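import Pool.Agent.TH535.SM.B5

set_option autoImplicit false

/-! Off the critical line: the smoothed function against the sharp cut-off. -/

namespace Pool.Agent.U575.OL

open Complex MeasureTheory Filter Topology Set Pool.Agent.TH535.SM
open scoped FourierTransform ComplexConjugate

noncomputable section

/-- the point `1/2 + r + it` -/
def pt (r t : ℝ) : ℂ := ((1 / 2 + r : ℝ) : ℂ) + t * I

@[simp] lemma pt_re (r t : ℝ) : (pt r t).re = 1 / 2 + r := by simp [pt]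
@[simp] lemma pt_im (r t : ℝ) : (pt r t).im = t := by simp [pt]

lemma pt_cont (r : ℝ) : Continuous (fun t : ℝ => pt r t) := by unfold pt; fun_prop

lemma pt_ne {r : ℝ} (h1 : r ≤ 1 / 4) (t : ℝ) : pt r t ≠ 1 := by
  intro h
  have := congrArg Complex.re h
  rw [pt_re, one_re] at this
  linarith

lemma gauss_full (r : ℝ) : ∫ z : ℝ, cexp (((r : ℂ) + z * I) ^ 2) = ((√Real.pi : ℝ) : ℂ) := by
  have h := GaussianFourier.integral_cexp_neg_mul_sq_add_real_mul_I (b := 1) (by simp) (-r)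
  have e1 : ((Real.pi : ℂ) / 1) ^ (1 / 2 : ℂ) = ((√Real.pi : ℝ) : ℂ) := by
    rw [div_one, Real.sqrt_eq_rpow, Complex.ofReal_cpow Real.pi_pos.le]
    norm_num
  rw [e1] at h
  rw [← h]
  refine integral_congr_ae (Eventually.of_forall fun z => ?_)
  simp only
  congr 1
  push_cast
  have : ((r : ℂ) + z * I) ^ 2 = r ^ 2 + 2 * r * z * I + z ^ 2 * I ^ 2 := by ring
  rw [this]
  have h2 : -1 * ((z : ℂ) + -(r : ℂ) * I) ^ 2 = -(z ^ 2) + 2 * r * z * I - r ^ 2 * I ^ 2 := by ring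
  rw [h2, I_sq]
  ring

lemma gauss_int (r : ℝ) : Integrable (fun z : ℝ => cexp (((r : ℂ) + z * I) ^ 2)) := by
  by_contra h
  have h1 := integral_undef h
  rw [gauss_full] at h1
  have : √Real.pi = 0 := by exact_mod_cast h1
  exact absurd this (Real.sqrt_pos.2 Real.pi_pos).ne'

lemma gauss_norm (r z : ℝ) : ‖cexp (((r : ℂ) + z * I) ^ 2)‖ = Real.exp (r ^ 2) * Real.exp (-z ^ 2) := by
  rw [Complex.norm_exp, ← Real.exp_add]
  congr 1
  simp [pow_two]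
  ring

lemma V_ioc {T : ℝ} (hT : 0 ≤ T) (r t : ℝ) :
    V T (pt r t) = ((√Real.pi)⁻¹ : ℝ) * ∫ z in Ioc (t - T) t, cexp (((r : ℂ) + z * I) ^ 2) := by
  rw [← intervalIntegral.integral_of_le (by linarith)]
  rcases hT.eq_or_lt with rfl | hT0
  · unfold V
    simp
  have h := intervalIntegral.integral_comp_sub_mul (a := 0) (b := 1)
    (fun z : ℝ => cexp (((r : ℂ) + z * I) ^ 2)) hT0.ne' t
  rw [mul_zero, mul_one, sub_zero] at h
  have h2 : ∫ z in (t - T)..t, cexp (((r : ℂ) + z * I) ^ 2) =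
      (T : ℂ) * ∫ x in (0:ℝ)..1, cexp (((r : ℂ) + ((t - T * x : ℝ) : ℂ) * I) ^ 2) := by
    rw [h, Complex.real_smul, ← mul_assoc, ofReal_inv, mul_inv_cancel₀, one_mul]
    exact_mod_cast hT0.ne'
  rw [h2]
  unfold V
  rw [intervalIntegral.integral_const_mul, ← mul_assoc, ← ofReal_mul]
  congr 1
  · push_cast; ring
  · refine intervalIntegral.integral_congr fun x _ => ?_
    congr 2
    unfold pt
    push_cast
    ring

lemma V_close {T : ℝ} (hT : 0 ≤ T) {r : ℝ} (hr : |r| ≤ 1) (t : ℝ) :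
    ‖V T (pt r t) - ind T t‖ ≤ Real.exp 1 * √2 * (Real.exp (-t ^ 2 / 2) + Real.exp (-(t - T) ^ 2 / 2)) := by
  have hr2 : r ^ 2 ≤ 1 := by rw [← sq_abs]; exact pow_le_one₀ (abs_nonneg r) hr
  have he : Real.exp (r ^ 2) ≤ Real.exp 1 := Real.exp_le_exp.2 hr2
  have hp : 0 < √Real.pi := Real.sqrt_pos.2 Real.pi_pos
  have E1 := Real.exp_pos (-t ^ 2 / 2)
  have E2 := Real.exp_pos (-(t - T) ^ 2 / 2)
  have hcl := v_close hT t
  by_cases ht : t ∈ Icc 0 T
  · rw [ind_mem ht]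
    rw [indicator_of_mem ht, abs_of_nonneg (by linarith [v_le_one hT t])] at hcl
    have e1 : V T (pt r t) - ((1:ℝ) : ℂ) =
        -(((√Real.pi)⁻¹ : ℝ) * ∫ z in (Ioc (t - T) t)ᶜ, cexp (((r : ℂ) + z * I) ^ 2)) := by
      have h1 := integral_add_compl (measurableSet_Ioc (a := t - T) (b := t)) (gauss_int r)
      rw [gauss_full] at h1
      rw [V_ioc hT]
      have h3 : ((1:ℝ) : ℂ) = (((√Real.pi)⁻¹ : ℝ) : ℂ) * ((√Real.pi : ℝ) : ℂ) := by
        rw [← ofReal_mul, inv_mul_cancel₀ hp.ne']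
      rw [h3, ← h1]
      ring
    rw [e1, norm_neg, norm_mul, Complex.norm_real, Real.norm_of_nonneg (inv_nonneg.2 hp.le)]
    have h4 : ‖∫ z in (Ioc (t - T) t)ᶜ, cexp (((r : ℂ) + z * I) ^ 2)‖ ≤
        Real.exp (r ^ 2) * ∫ z in (Ioc (t - T) t)ᶜ, Real.exp (-z ^ 2) := by
      rw [← integral_const_mul]
      refine (norm_integral_le_integral_norm _).trans (le_of_eq ?_)
      exact integral_congr_ae (Eventually.of_forall fun z => gauss_norm r z)
    have h5 : (√Real.pi)⁻¹ * ∫ z in (Ioc (t - T) t)ᶜ, Real.exp (-z ^ 2) = 1 - v T t := by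
      rw [v_ioc hT]
      have h1 := integral_add_compl (measurableSet_Ioc (a := t - T) (b := t)) g_int
      rw [g_val] at h1
      have : (1:ℝ) = (√Real.pi)⁻¹ * √Real.pi := by rw [inv_mul_cancel₀ hp.ne']
      nth_rewrite 1 [this]
      rw [← h1]
      ring
    calc (√Real.pi)⁻¹ * ‖∫ z in (Ioc (t - T) t)ᶜ, cexp (((r : ℂ) + z * I) ^ 2)‖ ≤
          (√Real.pi)⁻¹ * (Real.exp (r ^ 2) * ∫ z in (Ioc (t - T) t)ᶜ, Real.exp (-z ^ 2)) := by gcongr
      _ = Real.exp (r ^ 2) * (1 - v T t) := by rw [← h5]; ring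
      _ ≤ Real.exp 1 * (√2 * (Real.exp (-t ^ 2 / 2) + Real.exp (-(t - T) ^ 2 / 2))) := by
          have : 0 ≤ 1 - v T t := by linarith [v_le_one hT t]
          gcongr
      _ = _ := by ring
  · rw [ind_not ht, ofReal_zero, sub_zero]
    rw [indicator_of_notMem ht, zero_sub, abs_neg, abs_of_nonneg (v_nonneg hT t)] at hcl
    have h := V_norm hT (pt r t)
    rw [pt_re, pt_im, add_sub_cancel_left] at h
    calc ‖V T (pt r t)‖ ≤ Real.exp (r ^ 2) * v T t := h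
      _ ≤ Real.exp 1 * (√2 * (Real.exp (-t ^ 2 / 2) + Real.exp (-(t - T) ^ 2 / 2))) := by
          have := v_nonneg hT t
          gcongr
      _ = _ := by ring

/-- the rational factor is close to `1` -/
lemma qq_close (k u : ℕ) : ∃ C : ℝ, 0 ≤ C ∧ ∀ r t : ℝ, 0 ≤ r → ‖qq k u (pt r t) - 1‖ ≤ C / (1 + |t|) := by
  refine ⟨k * (2 * (2 * u + 2)), by positivity, fun r t hr => ?_⟩
  have h0 : (0:ℝ) ≤ u := Nat.cast_nonneg u
  have hd1 := den_norm (u := u) (s := pt r t) (by rw [pt_re]; linarith)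
  have hd0 : pt r t + (2 * u + 1 : ℕ) ≠ 0 := norm_pos_iff.1 (by linarith)
  set b : ℂ := (pt r t - 1) / (pt r t + (2 * u + 1 : ℕ)) with hb
  have hb1 : ‖b‖ ≤ 1 := by
    rw [hb, norm_div, div_le_one (by linarith)]
    exact ratio_le (by rw [pt_re]; linarith)
  have hb2 : ‖b - 1‖ ≤ 2 * (2 * u + 2) / (1 + |t|) := by
    have e3 : b - 1 = -((2 * u + 2 : ℕ) : ℂ) / (pt r t + (2 * u + 1 : ℕ)) := by
      rw [hb, div_sub_one hd0]
      congr 1
      push_cast; ring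
    rw [e3, norm_div, norm_neg, Complex.norm_natCast]
    have h4 : (1 + |t|) / 2 ≤ ‖pt r t + (2 * u + 1 : ℕ)‖ := by
      have h5 := Complex.abs_im_le_norm (pt r t + (2 * u + 1 : ℕ))
      rw [den_im, pt_im] at h5
      linarith
    have e5 : ((2 * u + 2 : ℕ) : ℝ) = 2 * u + 2 := by push_cast; ring
    rw [e5, div_le_div_iff₀ (by linarith) (by positivity)]
    nlinarith [mul_le_mul_of_nonneg_left h4 (by linarith : (0:ℝ) ≤ 2 * u + 2)]
  have e : qq k u (pt r t) = b ^ k := rfl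
  rw [e]
  refine (pow_sub_one_le hb1 k).trans ?_
  calc (k : ℝ) * ‖b - 1‖ ≤ k * (2 * (2 * u + 2) / (1 + |t|)) := by gcongr
    _ = _ := by ring

/-- pointwise comparison: the smooth factor `V qq` and the sharp cut-off -/
lemma Vq_close (k u : ℕ) : ∃ C : ℝ, 1 ≤ C ∧ ∀ T : ℝ, 0 ≤ T → ∀ r t : ℝ, 0 ≤ r → r ≤ 1 →
    ‖V T (pt r t) * qq k u (pt r t) - ind T t‖ ^ 2 ≤ C * Wq T t := by
  obtain ⟨C1, hC1, h1⟩ := qq_close k u
  refine ⟨2 * (2 * (Real.exp 1 * √2) ^ 2) + 2 * C1 ^ 2 + 1, by nlinarith [sq_nonneg C1, sq_nonneg (Real.exp 1 * √2)],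
    fun T hT r t hr hr1 => ?_⟩
  have hV := V_close hT (r := r) (by rw [abs_of_nonneg hr]; exact hr1) t
  have hq := h1 r t hr
  have hu : (0:ℝ) ≤ u := Nat.cast_nonneg u
  have hq1 : ‖qq k u (pt r t)‖ ≤ 1 := qq_norm (by rw [pt_re]; linarith)
  have i0 := ind_nonneg T t
  have i1 := ind_le T t
  set E : ℝ := Real.exp (-t ^ 2 / 2) + Real.exp (-(t - T) ^ 2 / 2) with hE
  set c0 : ℝ := Real.exp 1 * √2 with hc0
  have hE0 : 0 ≤ E := by positivity
  have hc00 : 0 ≤ c0 := by positivity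
  have e : V T (pt r t) * qq k u (pt r t) - ind T t =
      (V T (pt r t) - ind T t) * qq k u (pt r t) + ind T t * (qq k u (pt r t) - 1) := by ring
  have habs := abs_nonneg t
  have hn : ‖V T (pt r t) * qq k u (pt r t) - ind T t‖ ≤ c0 * E + ind T t * (C1 / (1 + |t|)) := by
    rw [e]
    refine (norm_add_le _ _).trans (add_le_add ?_ ?_)
    · rw [norm_mul]
      calc _ ≤ (c0 * E) * 1 := mul_le_mul hV hq1 (norm_nonneg _) (by positivity)
        _ = _ := mul_one _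
    · rw [norm_mul, Complex.norm_real, Real.norm_of_nonneg i0]
      gcongr
  have hE2 : E ^ 2 ≤ 2 * (Real.exp (-t ^ 2 / 4) + Real.exp (-(t - T) ^ 2 / 4)) := by
    have a1 : Real.exp (-t ^ 2 / 2) ^ 2 ≤ Real.exp (-t ^ 2 / 4) := by
      rw [← Real.exp_nat_mul]; refine Real.exp_le_exp.2 ?_
      push_cast; nlinarith [sq_nonneg t]
    have a2 : Real.exp (-(t - T) ^ 2 / 2) ^ 2 ≤ Real.exp (-(t - T) ^ 2 / 4) := by
      rw [← Real.exp_nat_mul]; refine Real.exp_le_exp.2 ?_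
      push_cast; nlinarith [sq_nonneg (t - T)]
    rw [hE]
    nlinarith [sq_nonneg (Real.exp (-t ^ 2 / 2) - Real.exp (-(t - T) ^ 2 / 2))]
  have hi2 : (ind T t * (C1 / (1 + |t|))) ^ 2 ≤ C1 ^ 2 * (ind T t * ((1 + |t|) ^ 2)⁻¹) := by
    have : ind T t ^ 2 ≤ ind T t := by nlinarith
    calc (ind T t * (C1 / (1 + |t|))) ^ 2 = ind T t ^ 2 * (C1 ^ 2 * ((1 + |t|) ^ 2)⁻¹) := by
          rw [mul_pow, div_pow, div_eq_mul_inv]
      _ ≤ ind T t * (C1 ^ 2 * ((1 + |t|) ^ 2)⁻¹) := by gcongr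
      _ = _ := by ring
  have hW1 : Real.exp (-t ^ 2 / 4) + Real.exp (-(t - T) ^ 2 / 4) ≤ Wq T t := by
    unfold Wq
    have : 0 ≤ ind T t * ((1 + |t|) ^ 2)⁻¹ := by positivity
    linarith
  have hW2 : ind T t * ((1 + |t|) ^ 2)⁻¹ ≤ Wq T t := by
    unfold Wq
    have : 0 ≤ Real.exp (-t ^ 2 / 4) + Real.exp (-(t - T) ^ 2 / 4) := by positivity
    linarith
  have hW0 := Wq_nonneg T t
  calc ‖V T (pt r t) * qq k u (pt r t) - ind T t‖ ^ 2 ≤ (c0 * E + ind T t * (C1 / (1 + |t|))) ^ 2 := by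
        gcongr
    _ ≤ 2 * (c0 ^ 2 * E ^ 2) + 2 * (ind T t * (C1 / (1 + |t|))) ^ 2 := by
        nlinarith [sq_nonneg (c0 * E - ind T t * (C1 / (1 + |t|)))]
    _ ≤ 2 * (c0 ^ 2 * (2 * Wq T t)) + 2 * (C1 ^ 2 * Wq T t) := by
        gcongr
        · exact hE2.trans (by linarith)
        · exact hi2.trans (by gcongr)
    _ ≤ _ := by nlinarith

/-- growth of zeta near the line -/
lemma zeta_growth (k : ℕ) : ∃ (C : ℝ) (p : ℕ), 1 ≤ C ∧ ∀ r t : ℝ, 0 ≤ r → r ≤ 1 / 4 →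
    ‖riemannZeta (pt r t)‖ ^ (2 * k) ≤ C * (1 + |t|) ^ p := by
  obtain ⟨C, M, hC, hb⟩ := H_strip k (u := 1) le_rfl
  refine ⟨17 ^ (2 * k) * C ^ 2, 2 * M, ?_, fun r t h0 h1 => ?_⟩
  · have : (1:ℝ) ≤ 17 ^ (2 * k) := one_le_pow₀ (by norm_num)
    nlinarith
  have hne := pt_ne h1 t
  have hb1 := hb (pt r t) (by rw [pt_re]; push_cast; linarith) (by rw [pt_re]; push_cast; linarith)
  rw [pt_im, H_qq hne, norm_mul, norm_pow] at hb1
  -- lower bound for the rational factor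
  have hd1 := den_norm (u := 1) (s := pt r t) (by rw [pt_re]; push_cast; linarith)
  have h4 : 1 / 4 ≤ ‖pt r t - 1‖ := by
    have := Complex.abs_re_le_norm (pt r t - 1)
    rw [sub_re, pt_re, one_re, abs_of_nonpos (by linarith)] at this
    linarith
  have h5 : ‖pt r t + (2 * 1 + 1 : ℕ)‖ ≤ ‖pt r t - 1‖ + 4 := by
    have e : pt r t + (2 * 1 + 1 : ℕ) = (pt r t - 1) + 4 := by push_cast; ring
    rw [e]
    refine (norm_add_le _ _).trans ?_
    norm_num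
  have h6 : 1 / 17 ≤ ‖(pt r t - 1) / (pt r t + (2 * 1 + 1 : ℕ))‖ := by
    rw [norm_div, div_le_div_iff₀ (by norm_num) (by linarith)]
    nlinarith
  have h7 : (1 / 17 : ℝ) ^ k ≤ ‖qq k 1 (pt r t)‖ := by
    unfold qq
    rw [norm_pow]
    exact pow_le_pow_left₀ (by norm_num) h6 k
  have h8 : ‖riemannZeta (pt r t)‖ ^ k ≤ 17 ^ k * (C * (1 + |t|) ^ M) := by
    have h9 : (1 / 17 : ℝ) ^ k * ‖riemannZeta (pt r t)‖ ^ k ≤ C * (1 + |t|) ^ M := by
      refine le_trans ?_ hb1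
      gcongr
    calc ‖riemannZeta (pt r t)‖ ^ k = 17 ^ k * ((1 / 17 : ℝ) ^ k * ‖riemannZeta (pt r t)‖ ^ k) := by
          rw [← mul_assoc, ← mul_pow]; norm_num
      _ ≤ _ := by gcongr
  calc ‖riemannZeta (pt r t)‖ ^ (2 * k) = (‖riemannZeta (pt r t)‖ ^ k) ^ 2 := by
        rw [← pow_mul, mul_comm]
    _ ≤ (17 ^ k * (C * (1 + |t|) ^ M)) ^ 2 := by gcongr
    _ = _ := by rw [mul_pow, mul_pow, ← pow_mul, ← pow_mul]; ring

end

end Pool.Agent.U575.OL
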