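import Pool.Agent.U575.OL.Basic

set_option autoImplicit false

/-! Integrated comparison with the sharp cut-off, off the critical line. -/

namespace Pool.Agent.U575.OL

open Complex MeasureTheory Filter Topology Set Pool.Agent.TH535.SM
open scoped FourierTransform ComplexConjugate

noncomputable section

/-- `|ζ(1/2 + r + it)|^{2k}` -/
def Z (k : ℕ) (r t : ℝ) : ℝ := ‖riemannZeta (pt r t)‖ ^ (2 * k)

/-- the moment at distance `r` -/
def J (k : ℕ) (r T : ℝ) : ℝ := ∫ t in (0:ℝ)..T, Z k r t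

/-- the local moment at distance `r` -/
def Br (k : ℕ) (r T : ℝ) : ℝ := ∫ t : ℝ, Real.exp (-(t - T) ^ 2 / 4) * Z k r t

/-- the smoothed moment at distance `r` -/
def Nn (k u : ℕ) (r T : ℝ) : ℝ := ∫ t, ‖Fn (H k u) T r t‖ ^ 2

lemma Z_nonneg (k : ℕ) (r t : ℝ) : 0 ≤ Z k r t := by unfold Z; positivity

lemma zeta_cont {r : ℝ} (h1 : r ≤ 1 / 4) : Continuous (fun t : ℝ => riemannZeta (pt r t)) := by
  rw [continuous_iff_continuousAt]
  intro t
  exact ContinuousAt.comp (f := fun t : ℝ => pt r t)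
    (differentiableAt_riemannZeta (pt_ne h1 t)).continuousAt (pt_cont r).continuousAt

lemma Z_cont (k : ℕ) {r : ℝ} (h1 : r ≤ 1 / 4) : Continuous (Z k r) := (zeta_cont h1).norm.pow _

lemma J_nonneg (k : ℕ) (r : ℝ) {T : ℝ} (hT : 0 ≤ T) : 0 ≤ J k r T :=
  intervalIntegral.integral_nonneg hT fun t _ => Z_nonneg k r t

lemma J_mono (k : ℕ) {r : ℝ} (h1 : r ≤ 1 / 4) {S T : ℝ} (h : S ≤ T) : J k r S ≤ J k r T := by
  unfold J
  rw [← intervalIntegral.integral_add_adjacent_intervals (a := 0) (b := S) (c := T)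
    ((Z_cont k h1).intervalIntegrable _ _) ((Z_cont k h1).intervalIntegrable _ _)]
  have : 0 ≤ ∫ t in S..T, Z k r t := intervalIntegral.integral_nonneg h fun t _ => Z_nonneg k r t
  linarith

lemma Br_nonneg (k : ℕ) (r T : ℝ) : 0 ≤ Br k r T :=
  integral_nonneg fun t => mul_nonneg (Real.exp_pos _).le (Z_nonneg k r t)

lemma Br_int (k : ℕ) {r : ℝ} (h0 : 0 ≤ r) (h1 : r ≤ 1 / 4) (T : ℝ) :
    Integrable (fun t : ℝ => Real.exp (-(t - T) ^ 2 / 4) * Z k r t) := by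
  obtain ⟨C, p, hC, hb⟩ := zeta_growth k
  refine ((gp_int p T).const_mul C).mono'
    (((by fun_prop : Continuous fun t : ℝ => Real.exp (-(t - T) ^ 2 / 4))).mul
      (Z_cont k h1)).aestronglyMeasurable (Eventually.of_forall fun t => ?_)
  rw [Real.norm_of_nonneg (mul_nonneg (Real.exp_pos _).le (Z_nonneg k r t))]
  calc _ ≤ Real.exp (-(t - T) ^ 2 / 4) * (C * (1 + |t|) ^ p) := by
        gcongr; exact hb r t h0 h1
    _ = _ := by ring

lemma Br_int0 (k : ℕ) {r : ℝ} (h0 : 0 ≤ r) (h1 : r ≤ 1 / 4) :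
    Integrable (fun t : ℝ => Real.exp (-t ^ 2 / 4) * Z k r t) := by
  have := Br_int k h0 h1 0
  simpa only [sub_zero] using this

lemma inv_cont : Continuous (fun t : ℝ => ((1 + |t|) ^ 2)⁻¹) := by
  refine Continuous.inv₀ (by fun_prop) (fun t => ?_)
  have := abs_nonneg t
  positivity

lemma Wq_split (T t x : ℝ) : Wq T t * x = (Real.exp (-t ^ 2 / 4) * x + Real.exp (-(t - T) ^ 2 / 4) * x) +
    ind T t * (((1 + |t|) ^ 2)⁻¹ * x) := by
  unfold Wq; ring

lemma WZ_int (k : ℕ) {r : ℝ} (h0 : 0 ≤ r) (h1 : r ≤ 1 / 4) (T : ℝ) :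
    Integrable (fun t => Wq T t * Z k r t) := by
  simp only [Wq_split]
  exact ((Br_int0 k h0 h1).add (Br_int k h0 h1 T)).add (ind_bd (inv_cont.mul (Z_cont k h1)))

lemma WZ_le (k : ℕ) {ε : ℝ} (hε : 0 < ε) : ∃ C : ℝ, 0 ≤ C ∧ ∀ T : ℝ, 1 ≤ T → ∀ r : ℝ, 0 ≤ r → r ≤ 1 / 4 →
    ∫ t, Wq T t * Z k r t ≤ ε * J k r T + C + Br k r T := by
  obtain ⟨C, p, hC, hb⟩ := zeta_growth k
  obtain ⟨S, hS⟩ := exists_nat_gt (ε⁻¹)
  have hS0 : (0:ℝ) < S := lt_trans (by positivity) hS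
  set K0 : ℝ := ∫ t : ℝ, Real.exp (-(t - 0) ^ 2 / 4) * (1 + |t|) ^ p with hK0
  have hK00 : 0 ≤ K0 := integral_nonneg fun t => by positivity
  refine ⟨C * K0 + S * (C * (1 + S) ^ p), by positivity, fun T hT r h0 h1 => ?_⟩
  have hT0 : 0 ≤ T := by linarith
  have hZc := Z_cont k h1
  have e : ∫ t, Wq T t * Z k r t = (∫ t : ℝ, Real.exp (-t ^ 2 / 4) * Z k r t) + Br k r T +
      ∫ t in (0:ℝ)..T, ((1 + |t|) ^ 2)⁻¹ * Z k r t := by
    unfold Br
    rw [← ind_val hT0, ← integral_add (Br_int0 k h0 h1) (Br_int k h0 h1 T), ← integral_add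
      (iadd (Br_int0 k h0 h1) (Br_int k h0 h1 T))
      (ind_bd (T := T) (g := fun t => ((1 + |t|) ^ 2)⁻¹ * Z k r t) (inv_cont.mul hZc))]
    exact integral_congr_ae (Eventually.of_forall fun t => Wq_split T t _)
  have b1 : ∫ t : ℝ, Real.exp (-t ^ 2 / 4) * Z k r t ≤ C * K0 := by
    rw [hK0, ← integral_const_mul]
    refine integral_mono (Br_int0 k h0 h1) ((gp_int p 0).const_mul C) fun t => ?_
    simp only [sub_zero]
    calc Real.exp (-t ^ 2 / 4) * Z k r t ≤ Real.exp (-t ^ 2 / 4) * (C * (1 + |t|) ^ p) := by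
          gcongr; exact hb r t h0 h1
      _ = _ := by ring
  have b2 : ∀ t ∈ Icc (0:ℝ) T, ((1 + |t|) ^ 2)⁻¹ * Z k r t ≤
      ε * Z k r t + ind (S:ℝ) t * (C * (1 + S) ^ p) := by
    intro t ht
    have hz := Z_nonneg k r t
    have hi : 0 ≤ ind (S:ℝ) t := ind_nonneg _ _
    by_cases hts : t ≤ S
    · rw [ind_mem ⟨ht.1, hts⟩, one_mul]
      have h3 : ((1 + |t|) ^ 2)⁻¹ ≤ 1 := by
        refine inv_le_one_of_one_le₀ (one_le_pow₀ ?_)
        have := abs_nonneg t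
        linarith
      have h4 : Z k r t ≤ C * (1 + S) ^ p := by
        refine (hb r t h0 h1).trans ?_
        rw [abs_of_nonneg ht.1]
        have := ht.1
        gcongr
      have h5 : ((1 + |t|) ^ 2)⁻¹ * Z k r t ≤ 1 * Z k r t := mul_le_mul_of_nonneg_right h3 hz
      have h6 : 0 ≤ ε * Z k r t := by positivity
      linarith
    · push Not at hts
      have h6 : ((1 + |t|) ^ 2)⁻¹ ≤ ε := by
        rw [inv_le_comm₀ (by positivity) hε]
        have h7 : (S:ℝ) ≤ |t| := hts.le.trans (le_abs_self t)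
        nlinarith
      have : 0 ≤ ind (S:ℝ) t * (C * (1 + S) ^ p) := by positivity
      have := mul_le_mul_of_nonneg_right h6 hz
      linarith
  have b3 : ∫ t in (0:ℝ)..T, ((1 + |t|) ^ 2)⁻¹ * Z k r t ≤ ε * J k r T + S * (C * (1 + S) ^ p) := by
    have i1 : IntervalIntegrable (fun t => ε * Z k r t) volume 0 T :=
      (hZc.const_mul ε |>.intervalIntegrable _ _)
    have i2' : Integrable (fun t => ind (S:ℝ) t * (C * (1 + (S:ℝ)) ^ p)) :=
      ind_bd (T := (S:ℝ)) (g := fun _ => C * (1 + (S:ℝ)) ^ p) continuous_const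
    have i2 : IntervalIntegrable (fun t => ind (S:ℝ) t * (C * (1 + (S:ℝ)) ^ p)) volume 0 T :=
      i2'.intervalIntegrable
    calc ∫ t in (0:ℝ)..T, ((1 + |t|) ^ 2)⁻¹ * Z k r t ≤
          ∫ t in (0:ℝ)..T, (ε * Z k r t + ind (S:ℝ) t * (C * (1 + S) ^ p)) :=
          intervalIntegral.integral_mono_on hT0 ((inv_cont.mul hZc).intervalIntegrable _ _) (i1.add i2) b2
      _ = ε * J k r T + ∫ t in (0:ℝ)..T, ind (S:ℝ) t * (C * (1 + S) ^ p) := by
          rw [intervalIntegral.integral_add i1 i2, intervalIntegral.integral_const_mul]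
          rfl
      _ ≤ ε * J k r T + ∫ t, ind (S:ℝ) t * (C * (1 + S) ^ p) := by
          gcongr
          rw [intervalIntegral.integral_of_le hT0]
          exact setIntegral_le_integral i2' (Eventually.of_forall fun t =>
            mul_nonneg (ind_nonneg _ _) (by positivity))
      _ = _ := by
          rw [ind_val (Nat.cast_nonneg S) (fun _ => C * (1 + (S:ℝ)) ^ p), intervalIntegral.integral_const]
          simp
  rw [e]
  linarith

/-- the general comparison -/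
lemma cmp (k u : ℕ) : ∃ C : ℝ, 1 ≤ C ∧ ∀ T : ℝ, 1 ≤ T → ∀ r : ℝ, 0 ≤ r → r ≤ 1 → ∀ φ : ℝ → ℂ, Continuous φ →
    Integrable (fun t => ‖V T (pt r t) * (qq k u (pt r t) * φ t)‖ ^ 2) →
    Integrable (fun t => Wq T t * ‖φ t‖ ^ 2) → ∀ ε : ℝ, 0 < ε →
    ∫ t, ‖V T (pt r t) * (qq k u (pt r t) * φ t)‖ ^ 2 ≤
      (1 + ε) * (∫ t in (0:ℝ)..T, ‖φ t‖ ^ 2) + (1 + ε⁻¹) * C * ∫ t, Wq T t * ‖φ t‖ ^ 2 ∧
    ∫ t in (0:ℝ)..T, ‖φ t‖ ^ 2 ≤
      (1 + ε) * (∫ t, ‖V T (pt r t) * (qq k u (pt r t) * φ t)‖ ^ 2) +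
        (1 + ε⁻¹) * C * ∫ t, Wq T t * ‖φ t‖ ^ 2 := by
  obtain ⟨C, hC, hc⟩ := Vq_close k u
  refine ⟨C, hC, fun T hT r h0 h1 φ hφ hI hW ε hε => ?_⟩
  have hT0 : 0 ≤ T := by linarith
  have hφ2 : Continuous (fun t => ‖φ t‖ ^ 2) := hφ.norm.pow 2
  have hd : ∀ t, ‖V T (pt r t) * (qq k u (pt r t) * φ t) - ind T t * φ t‖ ^ 2 ≤ C * (Wq T t * ‖φ t‖ ^ 2) := by
    intro t
    have e : V T (pt r t) * (qq k u (pt r t) * φ t) - ind T t * φ t =
        (V T (pt r t) * qq k u (pt r t) - ind T t) * φ t := by ring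
    rw [e, norm_mul, mul_pow]
    calc _ ≤ (C * Wq T t) * ‖φ t‖ ^ 2 := by
          gcongr
          exact hc T hT0 r t h0 h1
      _ = _ := by ring
  have iφ := ind_bd (T := T) hφ2
  constructor
  · rw [← ind_val hT0, ← integral_const_mul, mul_assoc, ← integral_const_mul C, ← integral_const_mul (1 + ε⁻¹),
      ← integral_add (iφ.const_mul _) ((hW.const_mul C).const_mul _)]
    refine integral_mono hI ((iφ.const_mul _).add ((hW.const_mul C).const_mul _)) fun t => ?_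
    have h2 := sq_split (x := V T (pt r t) * (qq k u (pt r t) * φ t)) (y := ind T t * φ t) hε
    rw [ind_sq] at h2
    have h3 := hd t
    simp only
    calc _ ≤ _ := h2
      _ ≤ _ := by gcongr
  · rw [← ind_val hT0, ← integral_const_mul, mul_assoc, ← integral_const_mul C, ← integral_const_mul (1 + ε⁻¹),
      ← integral_add (hI.const_mul _) ((hW.const_mul C).const_mul _)]
    refine integral_mono iφ ((hI.const_mul _).add ((hW.const_mul C).const_mul _)) fun t => ?_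
    have h2 := sq_split (x := ind T t * φ t) (y := V T (pt r t) * (qq k u (pt r t) * φ t)) hε
    rw [ind_sq, norm_sub_rev] at h2
    have h3 := hd t
    simp only
    calc _ ≤ _ := h2
      _ ≤ _ := by gcongr

lemma Fn_H (k u : ℕ) (T : ℝ) {r : ℝ} (h1 : r ≤ 1 / 4) (t : ℝ) :
    Fn (H k u) T r t = V T (pt r t) * (qq k u (pt r t) * riemannZeta (pt r t) ^ k) := by
  unfold Fn
  have := H_qq (k := k) (u := u) (pt_ne h1 t)
  unfold pt at *
  rw [this]

lemma Z_eq (k : ℕ) (r t : ℝ) : ‖riemannZeta (pt r t) ^ k‖ ^ 2 = Z k r t := by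
  unfold Z
  rw [norm_pow, ← pow_mul, mul_comm]

/-- smoothed and sharp moments -/
theorem cmp_zeta (k : ℕ) {u : ℕ} (hu : 1 ≤ u) {ε : ℝ} (hε : 0 < ε) : ∃ C : ℝ, 0 ≤ C ∧
    ∀ T : ℝ, 1 ≤ T → ∀ r : ℝ, 0 ≤ r → r ≤ 1 / 4 →
      Nn k u r T ≤ (1 + ε) * J k r T + C * (1 + Br k r T) ∧
      J k r T ≤ (1 + ε) * Nn k u r T + C * (1 + Br k r T) := by
  obtain ⟨C0, hC0, hc⟩ := cmp k u
  set η : ℝ := min (ε / 4) (1 / 4) with hη
  have hη0 : 0 < η := lt_min (by positivity) (by norm_num)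
  have hη1 : η ≤ ε / 4 := min_le_left _ _
  have hη2 : η ≤ 1 / 4 := min_le_right _ _
  set K : ℝ := (1 + η⁻¹) * C0 with hK
  have hK0 : 0 < K := by positivity
  obtain ⟨C1, hC1, hw⟩ := WZ_le k (ε := η / K) (by positivity)
  refine ⟨2 * (K * (C1 + 1)), by positivity, fun T hT r h0 h1 => ?_⟩
  have hu1 : (1:ℝ) ≤ u := by exact_mod_cast hu
  have hT0 : 0 ≤ T := by linarith
  have hJ := J_nonneg k r hT0
  have hB := Br_nonneg k r T
  have hdec := Fn_dec (H_PG k hu) hT (r := r) (by linarith) (by linarith)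
  have hN : 0 ≤ Nn k u r T := integral_nonneg fun t => by positivity
  obtain ⟨h2, h3⟩ := hc T hT r h0 (by linarith) (fun t => riemannZeta (pt r t) ^ k) ((zeta_cont h1).pow k)
    (by
      refine hdec.sq.congr (Eventually.of_forall fun t => ?_)
      simp only
      rw [Fn_H k u T h1 t])
    (by
      refine (WZ_int k h0 h1 T).congr (Eventually.of_forall fun t => ?_)
      simp only
      rw [Z_eq]) η hη0
  have e1 : ∫ t, ‖V T (pt r t) * (qq k u (pt r t) * riemannZeta (pt r t) ^ k)‖ ^ 2 = Nn k u r T := by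
    unfold Nn
    refine integral_congr_ae (Eventually.of_forall fun t => ?_)
    simp only
    rw [Fn_H k u T h1 t]
  have e2 : ∫ t in (0:ℝ)..T, ‖riemannZeta (pt r t) ^ k‖ ^ 2 = J k r T := by
    unfold J
    exact intervalIntegral.integral_congr fun t _ => Z_eq k r t
  have e3 : ∫ t, Wq T t * ‖riemannZeta (pt r t) ^ k‖ ^ 2 = ∫ t, Wq T t * Z k r t := by
    refine integral_congr_ae (Eventually.of_forall fun t => ?_)
    simp only
    rw [Z_eq]
  rw [e1, e2, e3] at h2 h3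
  have h4 : K * (∫ t, Wq T t * Z k r t) ≤ η * J k r T + K * (C1 + 1) * (1 + Br k r T) := by
    have h5 := mul_le_mul_of_nonneg_left (hw T hT r h0 h1) hK0.le
    have e4 : K * (η / K * J k r T + C1 + Br k r T) = η * J k r T + K * (C1 + Br k r T) := by
      field_simp
      ring
    rw [e4] at h5
    have h6 : K * (C1 + Br k r T) ≤ K * (C1 + 1) * (1 + Br k r T) := by
      have h66 : C1 + Br k r T ≤ (C1 + 1) * (1 + Br k r T) := by nlinarith [mul_nonneg hC1 hB]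
      calc K * (C1 + Br k r T) ≤ K * ((C1 + 1) * (1 + Br k r T)) := mul_le_mul_of_nonneg_left h66 hK0.le
        _ = _ := (mul_assoc _ _ _).symm
    linarith
  set W := K * (C1 + 1) * (1 + Br k r T) with hW
  have hW0 : 0 ≤ W := by positivity
  have e5 : 2 * (K * (C1 + 1)) * (1 + Br k r T) = 2 * W := by rw [hW]; ring
  rw [e5]
  constructor
  · nlinarith
  · have h7 : (1 - η) * J k r T ≤ (1 + η) * Nn k u r T + W := by linarith
    -- multiply by 1/(1-η) ≤ 1 + 2η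
    have h8 : 0 ≤ 1 - η := by linarith
    have h9 : J k r T ≤ (1 + 2 * η) * ((1 - η) * J k r T) := by
      have : 1 ≤ (1 + 2 * η) * (1 - η) := by nlinarith
      nlinarith
    have h10 : (1 + 2 * η) * ((1 - η) * J k r T) ≤ (1 + 2 * η) * ((1 + η) * Nn k u r T + W) := by
      gcongr
    have h11 : (1 + 2 * η) * (1 + η) ≤ 1 + ε := by nlinarith
    have h12 : (1 + 2 * η) * W ≤ 2 * W := by
      refine mul_le_mul_of_nonneg_right (by linarith) hW0
    calc J k r T ≤ (1 + 2 * η) * ((1 + η) * Nn k u r T + W) := h9.trans h10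
      _ = ((1 + 2 * η) * (1 + η)) * Nn k u r T + (1 + 2 * η) * W := by ring
      _ ≤ (1 + ε) * Nn k u r T + 2 * W := by gcongr

end

end Pool.Agent.U575.OL
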