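import Pool.Agent.U575.OL.Poly

set_option autoImplicit false

/-! The moment off the line against the Dirichlet series. -/

namespace Pool.Agent.U575.OL

open Complex MeasureTheory Filter Topology Set Pool.Agent.TH535.SM
open scoped FourierTransform ComplexConjugate

noncomputable section

/-- the error term -/
def Er (k : ℕ) (δ r T : ℝ) : ℝ := Real.exp (-(2 * (1 - δ) * (r * Real.log T))) *
  (J k 0 T + T * Real.log T ^ (k ^ 2)) + 1 + Br k 0 T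

lemma ar5 {a b c : ℝ} (ha : 0 ≤ a) (h : a ≤ b + c) : a ^ 2 ≤ 2 * b ^ 2 + 2 * c ^ 2 := by
  have h1 : a ^ 2 ≤ (b + c) ^ 2 := pow_le_pow_left₀ ha h 2
  nlinarith [sq_nonneg (b - c)]

/-- arithmetic I -/
lemma ar1 {e J X B D0 Dr C1 C2 A : ℝ} (he : 0 < e) (he1 : e ≤ 1) (hJ : 0 ≤ J) (hX : 0 ≤ X) (hB : 0 ≤ B)
    (hC1 : 0 ≤ C1) (hC2 : 0 ≤ C2) (hA : 0 ≤ A) (h1 : Dr ≤ e * D0 + C2)
    (h2 : D0 ≤ 4 * J + 2 * C1 * (1 + B) + 2 * (A + 1) * X) :
    Dr ≤ (2 * (4 + 2 * C1 + 2 * (A + 1)) + C2) * (e * (J + X) + 1 + B) := by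
  set E : ℝ := e * (J + X) + 1 + B with hE
  have p1 : 0 ≤ e * J := by positivity
  have p2 : 0 ≤ e * X := by positivity
  have hE' : E = e * J + e * X + 1 + B := by rw [hE]; ring
  clear_value E
  have q1 : e * J ≤ E := by linarith
  have q2 : e * X ≤ E := by linarith
  have q3 : 1 + B ≤ E := by linarith
  have q4 : 1 ≤ E := by linarith
  have q5 : e * (1 + B) ≤ E := (mul_le_of_le_one_left (by linarith) he1).trans q3
  have h3 : e * D0 ≤ e * (4 * J + 2 * C1 * (1 + B) + 2 * (A + 1) * X) := mul_le_mul_of_nonneg_left h2 he.le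
  have h4 : e * (4 * J + 2 * C1 * (1 + B) + 2 * (A + 1) * X) =
    4 * (e * J) + 2 * C1 * (e * (1 + B)) + 2 * (A + 1) * (e * X) := by ring
  have r1 : C1 * (e * (1 + B)) ≤ C1 * E := mul_le_mul_of_nonneg_left q5 hC1
  have r2 : (A + 1) * (e * X) ≤ (A + 1) * E := mul_le_mul_of_nonneg_left q2 (by linarith)
  have r3 : C2 * 1 ≤ C2 * E := mul_le_mul_of_nonneg_left q4 hC2
  have r4 : 0 ≤ C1 * E := mul_nonneg hC1 (by linarith)
  have r5 : 0 ≤ (A + 1) * E := mul_nonneg (by linarith) (by linarith)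
  have h5 : (2 * (4 + 2 * C1 + 2 * (A + 1)) + C2) * E = 8 * E + 4 * (C1 * E) + 4 * ((A + 1) * E) + C2 * E := by ring
  rw [h5]
  linarith

/-- arithmetic II -/
lemma ar2 {η ε J N P S E IK Q : ℝ} (hη : 0 ≤ η) (hη1 : η ≤ 1 / 4) (p3 : (1 + η) ^ 3 ≤ 1 + ε)
    (hS : 0 ≤ S) (hE : 0 ≤ E) (hIK : 0 ≤ IK * E) (hQ : 0 ≤ Q * E)
    (h1 : J ≤ (1 + η) * N + Q * E) (h2 : N ≤ (1 + η) * P + IK * E) (h3 : P ≤ (1 + η) * S) :
    J ≤ (1 + ε) * S + (4 * (IK + Q) + 1) * E := by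
  have f1 : (1 + η) * P ≤ (1 + η) * ((1 + η) * S) := mul_le_mul_of_nonneg_left h3 (by linarith)
  have f2 : (1 + η) * N ≤ (1 + η) * ((1 + η) * ((1 + η) * S) + IK * E) :=
    mul_le_mul_of_nonneg_left (by linarith) (by linarith)
  have f3 : (1 + η) * ((1 + η) * ((1 + η) * S) + IK * E) = (1 + η) ^ 3 * S + (1 + η) * (IK * E) := by ring
  have f4 : (1 + η) ^ 3 * S ≤ (1 + ε) * S := mul_le_mul_of_nonneg_right p3 hS
  have f5 : (1 + η) * (IK * E) ≤ 4 * (IK * E) := mul_le_mul_of_nonneg_right (by linarith) hIK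
  have f6 : (4 * (IK + Q) + 1) * E = 4 * (IK * E) + 4 * (Q * E) + E := by ring
  rw [f6]
  linarith

/-- arithmetic III -/
lemma ar3 {η ε J N P S E IK Q : ℝ} (hη : 0 ≤ η) (hη1 : η ≤ 1 / 4) (p3 : (1 + η) ^ 3 ≤ 1 + ε)
    (hJ : 0 ≤ J) (hE : 0 ≤ E) (hIK : 0 ≤ IK * E) (hQ : 0 ≤ Q * E)
    (h1 : N ≤ (1 + η) * J + Q * E) (h2 : P ≤ (1 + η) * N + IK * E) (h3 : S ≤ (1 + η) * P) :
    S ≤ (1 + ε) * J + (4 * (IK + Q) + 1) * E := by
  have f1 : (1 + η) * N ≤ (1 + η) * ((1 + η) * J + Q * E) := mul_le_mul_of_nonneg_left h1 (by linarith)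
  have f2 : (1 + η) * P ≤ (1 + η) * ((1 + η) * ((1 + η) * J + Q * E) + IK * E) :=
    mul_le_mul_of_nonneg_left (by linarith) (by linarith)
  have f3 : (1 + η) * ((1 + η) * ((1 + η) * J + Q * E) + IK * E) =
    (1 + η) ^ 3 * J + (1 + η) ^ 2 * (Q * E) + (1 + η) * (IK * E) := by ring
  have f4 : (1 + η) ^ 3 * J ≤ (1 + ε) * J := mul_le_mul_of_nonneg_right p3 hJ
  have f5 : (1 + η) * (IK * E) ≤ 4 * (IK * E) := mul_le_mul_of_nonneg_right (by linarith) hIK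
  have p2 : (1 + η) ^ 2 ≤ 4 := by
    have : (1 + η) ^ 2 ≤ (1 + 1 / 4) ^ 2 := pow_le_pow_left₀ (by linarith) (by linarith) 2
    linarith
  have f7 : (1 + η) ^ 2 * (Q * E) ≤ 4 * (Q * E) := mul_le_mul_of_nonneg_right p2 hQ
  have f6 : (4 * (IK + Q) + 1) * E = 4 * (IK * E) + 4 * (Q * E) + E := by ring
  rw [f6]
  linarith

lemma ar4 {η ε : ℝ} (hη : 0 ≤ η) (hη1 : η ≤ 1 / 4) (hη2 : η ≤ ε / 16) : (1 + η) ^ 3 ≤ 1 + ε := by
  have e : (1 + η) ^ 3 = 1 + η * (3 + 3 * η + η ^ 2) := by ring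
  have h1 : η ^ 2 ≤ 1 := pow_le_one₀ hη (by linarith)
  have h2 : η * (3 + 3 * η + η ^ 2) ≤ η * 5 := mul_le_mul_of_nonneg_left (by linarith) hη
  rw [e]; linarith

theorem off_cmp (k : ℕ) {δ : ℝ} (hk : 1 ≤ k) (hδ : 0 < δ) (hδ1 : δ ≤ 1) {ε : ℝ} (hε : 0 < ε) :
    ∃ C T0 : ℝ, 1 ≤ C ∧ 1 ≤ T0 ∧ ∀ T : ℝ, T0 ≤ T → ∀ r : ℝ, 0 ≤ r → r ≤ 1 / 4 →
      J k r T ≤ (1 + ε) * (T * SR k ⌊T ^ (1 - δ / 2)⌋₊ r) + C * Er k δ r T ∧
      T * SR k ⌊T ^ (1 - δ / 2)⌋₊ r ≤ (1 + ε) * J k r T + C * Er k δ r T := by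
  obtain ⟨u0, hu0⟩ := exists_nat_ge (max 1 (3 / δ))
  set u : ℕ := u0 with hu
  have hu1 : (1:ℝ) ≤ u := (le_max_left _ _).trans hu0
  have hun : 1 ≤ u := by exact_mod_cast hu1
  have hu3 : 3 ≤ δ * u := by
    have := (le_max_right _ _).trans hu0
    rw [div_le_iff₀ hδ] at this
    linarith
  set η : ℝ := min (ε / 16) (1 / 4) with hη
  have hη0 : 0 < η := lt_min (by positivity) (by norm_num)
  have hη1 : η ≤ ε / 16 := min_le_left _ _
  have hη2 : η ≤ 1 / 4 := min_le_right _ _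
  obtain ⟨C1, hC1, h1⟩ := cmp_zeta k hun hη0
  obtain ⟨C2, hC2, h2⟩ := rem_off k hδ hun hu3
  obtain ⟨C3, hC3, h3⟩ := Br_le k
  obtain ⟨T4, hT4, h4⟩ := poly_cmp k hk hδ hδ1 hun hη0
  obtain ⟨T5, hT5, h5⟩ := poly_size hk hδ hδ1 one_pos
  have hA := Ak_nonneg hk
  set I : ℝ := 1 + η⁻¹ with hI
  have hI1 : 1 ≤ I := by have : 0 ≤ η⁻¹ := by positivity
                         linarith
  set K : ℝ := 2 * (4 + 2 * C1 + 2 * (Ak k + 1)) + C2 with hK
  have hK0 : 0 ≤ K := by positivity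
  set Q : ℝ := C1 * (1 + C3) with hQ
  have hQ0 : 0 ≤ Q := by positivity
  have hCge : 1 ≤ 4 * (I * K + Q) + 1 := by
    have := mul_nonneg (by linarith : (0:ℝ) ≤ I) hK0
    linarith
  refine ⟨4 * (I * K + Q) + 1, max T4 T5, hCge, le_max_of_le_left hT4, fun T hT r h0 hr => ?_⟩
  have hTT4 : T4 ≤ T := (le_max_left _ _).trans hT
  have hTT5 : T5 ≤ T := (le_max_right _ _).trans hT
  have hT1 : 1 ≤ T := hT4.trans hTT4
  have hT0 : 0 ≤ T := by linarith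
  have hL := Real.log_nonneg hT1
  set N : ℕ := ⌊T ^ (1 - δ / 2)⌋₊ with hN
  have hNf : T ^ (1 - δ / 2) ≤ N + 1 := (Nat.lt_floor_add_one _).le
  obtain ⟨a1, a2⟩ := h1 T hT1 r h0 hr
  obtain ⟨b1, b2⟩ := h1 T hT1 0 le_rfl (by norm_num)
  have c1 := h2 T hT1 N hNf hδ1 r h0 hr
  have c3 := h3 T r h0 hr
  obtain ⟨d1, d2⟩ := h4 T hTT4 r h0 hr
  rw [← hN] at d1 d2
  have e5 := h5 T hTT5
  rw [← hN] at e5
  have e6 := normR k u N hT1
  -- names
  have hJ := J_nonneg k r hT0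
  have hJ0 := J_nonneg k 0 hT0
  have hB0 := Br_nonneg k 0 T
  have hBr := Br_nonneg k r T
  set P : ℝ := ∫ t, ‖Fn (gR k u N) T r t‖ ^ 2 with hP
  set P0 : ℝ := ∫ t, ‖Fn (gR k u N) T 0 t‖ ^ 2 with hP0
  set Dr : ℝ := ∫ t, ‖Fn (fun s => H k u s - gR k u N s) T r t‖ ^ 2 with hDr
  set D0 : ℝ := ∫ t, ‖Fn (fun s => H k u s - gR k u N s) T 0 t‖ ^ 2 with hD0
  have hPn : 0 ≤ P := integral_nonneg fun t => by positivity
  have hNn : 0 ≤ Nn k u r T := integral_nonneg fun t => by positivity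
  have hDrn : 0 ≤ Dr := integral_nonneg fun t => by positivity
  have hps : PS (gR k u N) 0 u := gR_ps k u N
  have hHs : PS (H k u) 0 u := (H_PG k hun).ps (by linarith) le_rfl
  have hds : PS (fun s => H k u s - gR k u N s) 0 u := hHs.sub hps
  have hFsub : ∀ ρ t : ℝ, Fn (fun s => H k u s - gR k u N s) T ρ t = Fn (H k u) T ρ t - Fn (gR k u N) T ρ t := by
    intro ρ t; unfold Fn; ring
  -- splitting
  have split1 : ∀ ρ : ℝ, 0 ≤ ρ → ρ ≤ 1 / 4 → ∀ x : ℝ, 0 < x →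
      Nn k u ρ T ≤ (1 + x) * (∫ t, ‖Fn (gR k u N) T ρ t‖ ^ 2) +
        (1 + x⁻¹) * ∫ t, ‖Fn (fun s => H k u s - gR k u N s) T ρ t‖ ^ 2 := by
    intro ρ g1 g2 x hx
    have i1 := (FS_dec hHs hT1 g1 (by linarith)).sq
    have i2 := (FS_dec hps hT1 g1 (by linarith)).sq
    have i3 := (FS_dec hds hT1 g1 (by linarith)).sq
    unfold Nn
    rw [← integral_const_mul, ← integral_const_mul, ← integral_add (i2.const_mul _) (i3.const_mul _)]
    refine integral_mono i1 ((i2.const_mul _).add (i3.const_mul _)) fun t => ?_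
    have := sq_split (x := Fn (H k u) T ρ t) (y := Fn (gR k u N) T ρ t) hx
    simp only
    rw [hFsub]
    exact this
  have split2 : P ≤ (1 + η) * Nn k u r T + I * Dr := by
    have i1 := (FS_dec hHs hT1 h0 (by linarith : r ≤ u)).sq
    have i2 := (FS_dec hps hT1 h0 (by linarith : r ≤ u)).sq
    have i3 := (FS_dec hds hT1 h0 (by linarith : r ≤ u)).sq
    rw [hP, hDr]
    unfold Nn
    rw [← integral_const_mul, ← integral_const_mul, ← integral_add (i1.const_mul _) (i3.const_mul _)]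
    refine integral_mono i2 ((i1.const_mul _).add (i3.const_mul _)) fun t => ?_
    have := sq_split (x := Fn (gR k u N) T r t) (y := Fn (H k u) T r t) hη0
    simp only
    rw [hFsub, norm_sub_rev]
    exact this
  have s1 := split1 r h0 hr η hη0
  -- the size of D0
  have hD0le : D0 ≤ 2 * Nn k u 0 T + 2 * P0 := by
    have i1 := (FS_dec hHs hT1 le_rfl (by linarith : (0:ℝ) ≤ u)).sq
    have i2 := (FS_dec hps hT1 le_rfl (by linarith : (0:ℝ) ≤ u)).sq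
    have i3 := (FS_dec hds hT1 le_rfl (by linarith : (0:ℝ) ≤ u)).sq
    rw [hD0, hP0]
    unfold Nn
    rw [← integral_const_mul, ← integral_const_mul, ← integral_add (i1.const_mul _) (i2.const_mul _)]
    refine integral_mono i3 ((i1.const_mul _).add (i2.const_mul _)) fun t => ?_
    simp only
    rw [hFsub]
    have h := norm_sub_le (Fn (H k u) T 0 t) (Fn (gR k u N) T 0 t)
    have h' := norm_nonneg (Fn (H k u) T 0 t - Fn (gR k u N) T 0 t)
    exact ar5 h' h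
  set X : ℝ := T * Real.log T ^ (k ^ 2) with hX
  have hX0 : 0 ≤ X := by positivity
  have hP0le : P0 ≤ (Ak k + 1) * X := e6.trans e5
  set e : ℝ := Real.exp (-(2 * (1 - δ) * (r * Real.log T))) with he
  have he0 : 0 < e := Real.exp_pos _
  have he1 : e ≤ 1 := by
    rw [he, Real.exp_le_one_iff]
    have h7 : 0 ≤ 1 - δ := by linarith
    have h8 : 0 ≤ 2 * (1 - δ) * (r * Real.log T) := by positivity
    linarith
  have hEr : Er k δ r T = e * (J k 0 T + X) + 1 + Br k 0 T := rfl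
  have hN0 : Nn k u 0 T ≤ 2 * J k 0 T + C1 * (1 + Br k 0 T) := by
    have : (1 + η) * J k 0 T ≤ 2 * J k 0 T := by
      refine mul_le_mul_of_nonneg_right (by linarith) hJ0
    linarith
  have hDrle : Dr ≤ K * Er k δ r T :=
    ar1 he0 he1 hJ0 hX0 hB0 (by linarith) (by linarith) hA c1 (by linarith)
  have hErn : 1 + Br k 0 T ≤ Er k δ r T := by
    rw [hEr]
    have : 0 ≤ e * (J k 0 T + X) := by positivity
    linarith
  have hEr0 : 0 ≤ Er k δ r T := by linarith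
  have hQle : C1 * (1 + Br k r T) ≤ Q * Er k δ r T := by
    have g1 : 1 + Br k r T ≤ (1 + C3) * (1 + Br k 0 T) := by nlinarith
    calc C1 * (1 + Br k r T) ≤ C1 * ((1 + C3) * (1 + Br k 0 T)) := by gcongr
      _ = Q * (1 + Br k 0 T) := by rw [hQ]; ring
      _ ≤ Q * Er k δ r T := by gcongr
  have hIK : I * Dr ≤ I * K * Er k δ r T := by
    rw [mul_assoc]; gcongr
  set E := Er k δ r T with hEd
  set S := T * SR k N r with hS
  have hS0 : 0 ≤ S := mul_nonneg hT0 (SR_nonneg k N r)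
  have hIKE : 0 ≤ I * K * E := by positivity
  have hQE : 0 ≤ Q * E := by positivity
  have p3 : (1 + η) ^ 3 ≤ 1 + ε := ar4 hη0.le hη2 hη1
  have f1 : Nn k u r T ≤ (1 + η) * P + I * K * E := by
    have : (1 + η⁻¹) * Dr = I * Dr := by rw [hI]
    linarith
  have g1 : J k r T ≤ (1 + η) * Nn k u r T + Q * E := a2.trans (add_le_add_right hQle _)
  have g2 : Nn k u r T ≤ (1 + η) * J k r T + Q * E := a1.trans (add_le_add_right hQle _)
  have g3 : P ≤ (1 + η) * Nn k u r T + I * K * E := split2.trans (add_le_add_right hIK _)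
  exact ⟨ar2 hη0.le hη2 p3 hS0 hEr0 hIKE hQE g1 f1 d1, ar3 hη0.le hη2 p3 hJ hEr0 hIKE hQE g2 g3 d2⟩

end

end Pool.Agent.U575.OL
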