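import Pool.Agent.U575.OL.Fwd

set_option autoImplicit false

/-! From the right of the line back to the line. -/

namespace Pool.Agent.U575.OL

open Complex MeasureTheory Filter Topology Set Pool.Agent.TH535.SM
open scoped FourierTransform ComplexConjugate

noncomputable section

/-- from the right of the line to the line -/
theorem conv (k : ℕ) {c : ℝ → ℝ} (h0 : ∀ᶠ T : ℝ in atTop, 0 ≤ c T) {S : ℝ} (hmono : MonotoneOn c (Ici S))
    (ho : Tendsto (fun T => c T / Real.log T) atTop (𝓝 0)) {C : ℝ}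
    (hJ : ∀ᶠ T : ℝ in atTop, J k (c T / Real.log T) T ≤ C * (T * Real.log T ^ (k ^ 2))) :
    ∃ C' : ℝ, 0 ≤ C' ∧ ∀ᶠ T : ℝ in atTop, J k 0 T ≤ C' * (T * Real.log T ^ (k ^ 2)) *
      Real.exp (2 * (k + 1) * c (2 * T)) := by
  obtain ⟨C1, hC1, h1⟩ := line_le k
  obtain ⟨X0, hX0, hBA⟩ := BA k (η := 1) one_pos le_rfl
  obtain ⟨Cp, q, hCp, hp⟩ := J_poly k
  obtain ⟨S1, hS1⟩ := ((h0.and hJ).and (ev_c_small ho (s := 1 / 4) (by norm_num))).exists_forall_of_atTop
  set D : ℝ := C1 * (|C| * 2 ^ (k ^ 2 + 1) + 3) with hD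
  have hD1 : 1 ≤ D := by
    have : 3 ≤ |C| * 2 ^ (k ^ 2 + 1) + 3 := by
      have : 0 ≤ |C| * 2 ^ (k ^ 2 + 1) := by positivity
      linarith
    nlinarith
  set Φ : ℝ → ℝ := fun T => D * (T * Real.log T ^ (k ^ 2)) * Real.exp (2 * (k + 1) * c (2 * T)) with hΦ
  have hk0 : (0:ℝ) ≤ k := Nat.cast_nonneg k
  have h2 : Tendsto (fun T : ℝ => 2 * T) atTop atTop := tendsto_id.const_mul_atTop two_pos
  have hcs : ∀ᶠ T : ℝ in atTop, 2 * (k + 1) * c (2 * T) ≤ 1 / 16 * Real.log T := by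
    filter_upwards [h2.eventually (ev_c_small ho (s := 1 / (64 * (k + 1))) (by positivity)),
      eventually_ge_atTop 2] with T hT hT2
    have hT0 : 0 < T := by linarith
    have h3 : Real.log (2 * T) ≤ 2 * Real.log T := by
      have h4 : Real.log (2 * T) ≤ Real.log (T ^ 2) := Real.log_le_log (by positivity) (by nlinarith)
      rw [Real.log_pow] at h4
      exact_mod_cast h4
    calc 2 * (k + 1) * c (2 * T) ≤ 2 * (k + 1) * (1 / (64 * (k + 1)) * Real.log (2 * T)) := by gcongr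
      _ = 1 / 32 * Real.log (2 * T) := by field_simp; ring
      _ ≤ 1 / 32 * (2 * Real.log T) := by gcongr
      _ = _ := by ring
  have hexp : ∀ᶠ T : ℝ in atTop, Real.exp (2 * (k + 1) * c (2 * T)) ≤ T ^ (1 / 16 : ℝ) := by
    filter_upwards [hcs, eventually_gt_atTop 0] with T hT hT0
    rw [Real.rpow_def_of_pos hT0, Real.exp_le_exp]
    linarith
  have m1 : ∀ᶠ T : ℝ in atTop, J k 0 T ≤ Φ T + T ^ (-(1 / 2 : ℝ)) * J k 0 (3 * T) := by
    filter_upwards [hexp, eventually_ge_atTop S1, eventually_ge_atTop X0, eventually_ge_atTop S,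
      Real.tendsto_log_atTop.eventually_ge_atTop 1, eventually_ge_atTop 2,
      (tendsto_rpow_atTop (y := 1 / 8) (by norm_num)).eventually_ge_atTop C1] with
      T hexp hTS1 hTX hTS hL1 hT2 hTC
    have hT0 : 0 < T := by linarith
    obtain ⟨T1, hT1, hT1', hb⟩ := hBA T hTX
    have hT1b : T1 ≤ 2 * T := by linarith
    have hT10 : 0 < T1 := by linarith
    obtain ⟨⟨a0, a1⟩, a2⟩ := hS1 T1 (by linarith)
    have hL1T : 0 < Real.log T1 := Real.log_pos (by linarith)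
    have hr0 : 0 ≤ c T1 / Real.log T1 := by positivity
    have hr4 : c T1 / Real.log T1 ≤ 1 / 4 := by rw [div_le_iff₀ hL1T]; exact a2
    have b1 := h1 T1 (by linarith) _ hr0 hr4
    have e1 : c T1 / Real.log T1 * Real.log T1 = c T1 := by field_simp
    rw [e1] at b1
    have b2 : c T1 ≤ c (2 * T) := hmono (by rw [mem_Ici]; linarith) (by rw [mem_Ici]; linarith) hT1b
    have b3 : J k 0 T ≤ J k 0 T1 := J_mono k (by norm_num) hT1
    have hlogT1 : Real.log T1 ≤ 2 * Real.log T := by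
      have h1 : Real.log T1 ≤ Real.log (T ^ 2) := Real.log_le_log hT10 (by nlinarith)
      rw [Real.log_pow] at h1
      exact_mod_cast h1
    set X := T * Real.log T ^ (k ^ 2) with hX
    have hX1 : 1 ≤ X := by
      have : 1 ≤ Real.log T ^ (k ^ 2) := one_le_pow₀ hL1
      rw [hX]; nlinarith
    have b4 : J k (c T1 / Real.log T1) T1 ≤ |C| * 2 ^ (k ^ 2 + 1) * X := by
      calc _ ≤ C * (T1 * Real.log T1 ^ (k ^ 2)) := a1
        _ ≤ |C| * (T1 * Real.log T1 ^ (k ^ 2)) := by gcongr; exact le_abs_self C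
        _ ≤ |C| * ((2 * T) * (2 * Real.log T) ^ (k ^ 2)) := by gcongr
        _ = _ := by rw [mul_pow, hX]; ring
    have b5 : J k 0 (2 * T) ≤ J k 0 (3 * T) := J_mono k (by norm_num) (by linarith)
    have hJ3 : 0 ≤ J k 0 (3 * T) := J_nonneg k 0 (by linarith)
    have b6 : Br k 0 T1 ≤ T ^ (-(3 / 4 : ℝ)) * J k 0 (3 * T) + 2 := by
      have : T ^ (-(3 / 4 : ℝ)) * J k 0 (2 * T) ≤ T ^ (-(3 / 4 : ℝ)) * J k 0 (3 * T) := by gcongr
      linarith
    set E := Real.exp (2 * (k + 1) * c (2 * T)) with hE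
    have b7 : Real.exp (2 * (k + 1) * c T1) ≤ E := by rw [hE]; gcongr
    have hE0 : 0 < E := Real.exp_pos _
    have hJr : 0 ≤ J k (c T1 / Real.log T1) T1 := J_nonneg k _ hT10.le
    have hBr : 0 ≤ Br k 0 T1 := Br_nonneg k 0 T1
    have b8 : J k 0 T ≤ C1 * E * (|C| * 2 ^ (k ^ 2 + 1) * X + 3 * X + T ^ (-(3 / 4 : ℝ)) * J k 0 (3 * T)) := by
      calc J k 0 T ≤ C1 * Real.exp (2 * (k + 1) * c T1) * (J k (c T1 / Real.log T1) T1 + 1 + Br k 0 T1) := b3.trans b1
        _ ≤ C1 * E * (J k (c T1 / Real.log T1) T1 + 1 + Br k 0 T1) := by gcongr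
        _ ≤ _ := by
            refine mul_le_mul_of_nonneg_left ?_ (by positivity)
            linarith
    have b9 : C1 * E * (T ^ (-(3 / 4 : ℝ)) * J k 0 (3 * T)) ≤ T ^ (-(1 / 2 : ℝ)) * J k 0 (3 * T) := by
      have : C1 * E * T ^ (-(3 / 4 : ℝ)) ≤ T ^ (-(1 / 2 : ℝ)) := by
        calc C1 * E * T ^ (-(3 / 4 : ℝ)) ≤ T ^ (1 / 8 : ℝ) * T ^ (1 / 16 : ℝ) * T ^ (-(3 / 4 : ℝ)) := by
              gcongr
          _ = T ^ (-(9 / 16 : ℝ)) := by rw [← Real.rpow_add hT0, ← Real.rpow_add hT0]; norm_num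
          _ ≤ _ := Real.rpow_le_rpow_of_exponent_le (by linarith) (by norm_num)
      calc _ = (C1 * E * T ^ (-(3 / 4 : ℝ))) * J k 0 (3 * T) := by ring
        _ ≤ _ := by gcongr
    have b10 : Φ T = C1 * E * (|C| * 2 ^ (k ^ 2 + 1) * X + 3 * X) := by
      simp only [hΦ, hD]
      rw [← hX, ← hE]; ring
    rw [b10]
    calc J k 0 T ≤ _ := b8
      _ = C1 * E * (|C| * 2 ^ (k ^ 2 + 1) * X + 3 * X) + C1 * E * (T ^ (-(3 / 4 : ℝ)) * J k 0 (3 * T)) := by ring
      _ ≤ _ := by gcongr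
  have m2 : ∀ᶠ T : ℝ in atTop, T ≤ Φ T := by
    filter_upwards [h2.eventually h0, Real.tendsto_log_atTop.eventually_ge_atTop 1, eventually_ge_atTop 1] with
      T hc hL hT1
    have e1 : 1 ≤ Real.exp (2 * (k + 1) * c (2 * T)) := Real.one_le_exp (by positivity)
    have e2 : 1 ≤ Real.log T ^ (k ^ 2) := one_le_pow₀ hL
    simp only [hΦ]
    calc T = 1 * (T * 1) * 1 := by ring
      _ ≤ _ := by gcongr
  have m3 : ∀ᶠ T : ℝ in atTop, Φ T ≤ T ^ (9 / 8 : ℝ) := by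
    filter_upwards [hexp, ev_log_small D (k ^ 2) (s := 1 / 16) (by norm_num), eventually_ge_atTop 1,
      Real.tendsto_log_atTop.eventually_ge_atTop 1] with T h3 h4 hT1 hL
    have hT0 : 0 < T := by linarith
    simp only [hΦ]
    calc D * (T * Real.log T ^ (k ^ 2)) * Real.exp (2 * (k + 1) * c (2 * T)) =
          T * (D * Real.log T ^ (k ^ 2)) * Real.exp (2 * (k + 1) * c (2 * T)) := by ring
      _ ≤ T * T ^ (1 / 16 : ℝ) * T ^ (1 / 16 : ℝ) := by gcongr
      _ = T ^ (1:ℝ) * T ^ (1 / 16 : ℝ) * T ^ (1 / 16 : ℝ) := by rw [Real.rpow_one]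
      _ = T ^ (9 / 8 : ℝ) := by rw [← Real.rpow_add hT0, ← Real.rpow_add hT0]; norm_num
  obtain ⟨T0, hT0⟩ := (m1.and (m2.and m3)).exists_forall_of_atTop
  obtain ⟨T1, -, -, hfin⟩ := iter (M := fun T => J k 0 T) (Φ := Φ) (fun T hT => J_nonneg k 0 hT)
    (by linarith : 0 ≤ Cp) hp (T0 := T0) (fun T hT => (hT0 T hT).1) (fun T hT => (hT0 T hT).2.1)
    (fun T hT => (hT0 T hT).2.2)
  refine ⟨2 * D, by positivity, ?_⟩
  filter_upwards [eventually_ge_atTop T1] with T hT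
  have := hfin T hT
  simp only [hΦ] at this
  linarith

/-- the asymptotic formula gives an upper bound -/
lemma Asym.upper {k : ℕ} {c : ℝ → ℝ} (h : Asym k c) (hc : Tendsto c atTop atTop) :
    ∀ᶠ T : ℝ in atTop, J k (c T / Real.log T) T ≤ (H306R2.aF k + 1) * (T * Real.log T ^ (k ^ 2)) := by
  unfold Asym at h
  filter_upwards [h.eventually_le_const (show H306R2.aF k < H306R2.aF k + 1 by linarith),
    hc.eventually_ge_atTop 1, Real.tendsto_log_atTop.eventually_gt_atTop 0, eventually_gt_atTop 0] with T h1 h2 h3 h4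
  have hX : 0 < T * Real.log T ^ (k ^ 2) := by positivity
  rw [div_le_iff₀ hX] at h1
  refine le_trans ?_ h1
  have : 1 ≤ (2 * c T) ^ (k ^ 2) := one_le_pow₀ (by linarith)
  exact le_mul_of_one_le_right (J_nonneg k _ h4.le) this

end

end Pool.Agent.U575.OL
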