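import Pool.Agent.U575.OL.Comb

set_option autoImplicit false

/-! The diagonal sum off the line. -/

namespace Pool.Agent.U575.OL

open Complex MeasureTheory Filter Topology Set Pool.Agent.TH535.SM
open scoped FourierTransform ComplexConjugate

noncomputable section

/-- the terms -/
def DR (k : ℕ) (r : ℝ) (n : ℕ) : ℝ := dr k n ^ 2 * (n : ℝ) ^ (-(2 * (1 / 2 + r)))

lemma DR_nonneg (k : ℕ) (r : ℝ) (n : ℕ) : 0 ≤ DR k r n := by unfold DR; positivity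

lemma DR_zero (k : ℕ) (r : ℝ) : DR k r 0 = 0 := by
  unfold DR dr
  rw [W182.KO.dk_eq]
  simp [H306R2.dv]

lemma DR_cf (k : ℕ) (r : ℝ) (n : ℕ) :
    H306R2.cf (fun _ : Fin 1 => (k : ℝ)) (fun _ => 2 * r) n = DR k r n := by
  rcases Nat.eq_zero_or_pos n with h0 | h0
  · subst h0
    rw [DR_zero, H306R2.cf_zero]
  have hn : (0:ℝ) < n := by exact_mod_cast h0
  unfold H306R2.cf H306R2.Gs DR dr
  simp only [Finset.univ_unique, Finset.sum_const, Finset.card_singleton, one_smul, Finset.prod_const, pow_one]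
  rw [H306R2.tw_apply, W182.KO.dk_eq]
  have e : (n : ℝ) ^ (-(2 * (1 / 2 + r))) = (n : ℝ) ^ (-(2 * r)) / n := by
    rw [show -(2 * (1 / 2 + r)) = -(2 * r) - 1 by ring, Real.rpow_sub hn, Real.rpow_one]
  rw [e]
  ring

lemma DR_summable (k : ℕ) {r : ℝ} (hr : 0 < r) : Summable (DR k r) := by
  have h := H306R2.cf_summable (ι := Fin 1) (e := fun _ => (k : ℝ)) (fun _ => Nat.cast_nonneg k)
    (s := fun _ => 2 * r) (σ := 2 * r) (by positivity) (fun _ => le_rfl)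
  exact h.congr fun n => DR_cf k r n

/-- the full sum -/
def Sinf (k : ℕ) (r : ℝ) : ℝ := ∑' n, DR k r n

lemma Sinf_nonneg (k : ℕ) (r : ℝ) : 0 ≤ Sinf k r := tsum_nonneg (DR_nonneg k r)

lemma Sinf_lim {k : ℕ} (hk : 1 ≤ k) :
    Tendsto (fun r : ℝ => Sinf k r * (2 * r) ^ (k ^ 2)) (𝓝[>] 0) (𝓝 (H306R2.aF k)) := by
  have hk0 : (0:ℝ) < k := by exact_mod_cast hk
  have h := H306R2.cf_tsum_tendsto (ι := Fin 1) (fun _ => (k : ℝ)) (fun _ => hk0) (fun _ => 1) (fun _ => one_pos)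
  simp only [Finset.univ_unique, Finset.sum_const, Finset.card_singleton, one_smul, Real.one_rpow,
    Finset.prod_const_one, mul_one] at h
  have hL : Tendsto (fun r : ℝ => (2 * r)⁻¹) (𝓝[>] 0) atTop := by
    refine tendsto_inv_nhdsGT_zero.comp ?_
    rw [tendsto_nhdsWithin_iff]
    constructor
    · have : Tendsto (fun r : ℝ => 2 * r) (𝓝 0) (𝓝 (2 * 0)) := tendsto_id.const_mul 2
      rw [mul_zero] at this
      exact this.mono_left nhdsWithin_le_nhds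
    · filter_upwards [self_mem_nhdsWithin] with r hr
      have : (0:ℝ) < r := hr
      exact mul_pos two_pos this
  refine (h.comp hL).congr' ?_
  filter_upwards [self_mem_nhdsWithin] with r hr
  have hr0 : (0:ℝ) < r := hr
  simp only [Function.comp]
  have e1 : (fun _ : Fin 1 => (1:ℝ) / (2 * r)⁻¹) = fun _ => 2 * r := by
    funext _; rw [one_div, inv_inv]
  rw [e1]
  unfold Sinf
  rw [tsum_congr (fun n => DR_cf k r n)]
  have e2 : ((2 * r)⁻¹) ^ ((k:ℝ) ^ 2) = ((2 * r) ^ (k ^ 2))⁻¹ := by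
    rw [← inv_pow, ← Real.rpow_natCast ((2 * r)⁻¹) (k ^ 2)]
    push_cast; rfl
  rw [e2, div_inv_eq_mul]

lemma SR_eq (k N : ℕ) (r : ℝ) : SR k N r = ∑ n ∈ Finset.range (N + 1), DR k r n := by
  unfold SR
  rw [Finset.sum_range_succ', DR_zero, add_zero, Finset.range_eq_Ico, Finset.sum_Ico_add' (fun n => DR k r n) 0 N 1]
  rfl

lemma tail_le (k N : ℕ) {r : ℝ} (hr : 0 < r) :
    Sinf k r ≤ SR k N r + ((N : ℝ) + 1) ^ (-r) * Sinf k (r / 2) := by
  have hs := DR_summable k hr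
  have hs2 := DR_summable k (half_pos hr)
  unfold Sinf
  rw [← hs.sum_add_tsum_nat_add (N + 1), ← SR_eq]
  gcongr
  have h1 : ∑' i, DR k r (i + (N + 1)) ≤ ∑' i, ((N : ℝ) + 1) ^ (-r) * DR k (r / 2) (i + (N + 1)) := by
    refine Summable.tsum_le_tsum (fun i => ?_) ((summable_nat_add_iff (N + 1)).2 hs)
      (((summable_nat_add_iff (N + 1)).2 hs2).mul_left _)
    set m := i + (N + 1) with hm
    have hm0 : (0:ℝ) < m := by
      have : 0 < m := by omega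
      exact_mod_cast this
    have hmN : (N : ℝ) + 1 ≤ m := by
      rw [hm]; push_cast
      have : (0:ℝ) ≤ i := Nat.cast_nonneg i
      linarith
    unfold DR
    have e : (m : ℝ) ^ (-(2 * (1 / 2 + r))) = (m : ℝ) ^ (-r) * (m : ℝ) ^ (-(2 * (1 / 2 + r / 2))) := by
      rw [← Real.rpow_add hm0]; congr 1; ring
    rw [e]
    have h2 : (m : ℝ) ^ (-r) ≤ ((N : ℝ) + 1) ^ (-r) :=
      Real.rpow_le_rpow_of_nonpos (by positivity) hmN (by linarith)
    have h3 : 0 ≤ dr k m ^ 2 * (m : ℝ) ^ (-(2 * (1 / 2 + r / 2))) := by positivity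
    calc dr k m ^ 2 * ((m : ℝ) ^ (-r) * (m : ℝ) ^ (-(2 * (1 / 2 + r / 2)))) =
        (m : ℝ) ^ (-r) * (dr k m ^ 2 * (m : ℝ) ^ (-(2 * (1 / 2 + r / 2)))) := by ring
      _ ≤ _ := mul_le_mul_of_nonneg_right h2 h3
  refine h1.trans ?_
  have h7 : ∑' i, ((N : ℝ) + 1) ^ (-r) * DR k (r / 2) (i + (N + 1)) =
      ((N : ℝ) + 1) ^ (-r) * ∑' i, DR k (r / 2) (i + (N + 1)) := _root_.tsum_mul_left
  rw [h7]
  refine mul_le_mul_of_nonneg_left ?_ (by positivity)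
  rw [← hs2.sum_add_tsum_nat_add (N + 1)]
  have : 0 ≤ ∑ i ∈ Finset.range (N + 1), DR k (r / 2) i := Finset.sum_nonneg fun i _ => DR_nonneg _ _ _
  linarith

lemma SR_le_Sinf (k N : ℕ) {r : ℝ} (hr : 0 < r) : SR k N r ≤ Sinf k r := by
  rw [SR_eq]
  exact (DR_summable k hr).sum_le_tsum _ fun i _ => DR_nonneg _ _ _

/-- the diagonal sum is asymptotically `a_k (2r)^{-k²}` -/
theorem SR_lim {k : ℕ} (hk : 1 ≤ k) {δ : ℝ} (hδ1 : δ ≤ 1) {ε : ℝ} (hε : 0 < ε) :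
    ∃ K : ℝ, 1 ≤ K ∧ ∀ T r : ℝ, 1 ≤ T → 0 < r → r ≤ 1 / K → K ≤ r * Real.log T →
      |SR k ⌊T ^ (1 - δ / 2)⌋₊ r * (2 * r) ^ (k ^ 2) - H306R2.aF k| ≤ ε := by
  have hk0 : (0:ℝ) < k := by exact_mod_cast hk
  have haF : 0 < H306R2.aF k := H306R2.aF_pos hk0
  have h := Sinf_lim hk
  rw [Metric.tendsto_nhdsWithin_nhds] at h
  obtain ⟨d1, hd1, h1⟩ := h (ε / 2) (by positivity)
  obtain ⟨d2, hd2, h2⟩ := h 1 one_pos
  set B : ℝ := 2 ^ (k ^ 2) * (H306R2.aF k + 1) with hB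
  have hB0 : 0 < B := by positivity
  have hexp : Tendsto (fun K : ℝ => Real.exp (-(K / 2)) * B) atTop (𝓝 (0 * B)) := by
    refine Tendsto.mul_const _ ?_
    refine Real.tendsto_exp_neg_atTop_nhds_zero.comp ?_
    exact tendsto_id.atTop_div_const two_pos
  rw [zero_mul] at hexp
  obtain ⟨K0, hK0⟩ := ((hexp.eventually_le_const (half_pos hε)).and (eventually_ge_atTop
    (max 1 (2 * max d1⁻¹ d2⁻¹)))).exists
  obtain ⟨hKe, hKm⟩ := hK0
  have hK1 : 1 ≤ K0 := (le_max_left _ _).trans hKm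
  have hKd1 : 1 / K0 < d1 := by
    have h3 : 2 * d1⁻¹ ≤ K0 := by
      have h5 : 2 * d1⁻¹ ≤ 2 * max d1⁻¹ d2⁻¹ := by gcongr; exact le_max_left _ _
      exact h5.trans ((le_max_right _ _).trans hKm)
    rw [div_lt_iff₀ (by linarith)]
    have h4 : d1 * (2 * d1⁻¹) ≤ d1 * K0 := by gcongr
    have h5 : d1 * (2 * d1⁻¹) = 2 := by field_simp
    linarith
  have hKd2 : 1 / K0 < d2 := by
    have h3 : 2 * d2⁻¹ ≤ K0 := by
      have h5 : 2 * d2⁻¹ ≤ 2 * max d1⁻¹ d2⁻¹ := by gcongr; exact le_max_right _ _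
      exact h5.trans ((le_max_right _ _).trans hKm)
    rw [div_lt_iff₀ (by linarith)]
    have h4 : d2 * (2 * d2⁻¹) ≤ d2 * K0 := by gcongr
    have h5 : d2 * (2 * d2⁻¹) = 2 := by field_simp
    linarith
  refine ⟨K0, hK1, fun T r hT hr hrK hrL => ?_⟩
  have hT0 : 0 < T := by linarith
  set N : ℕ := ⌊T ^ (1 - δ / 2)⌋₊ with hN
  have hNf : T ^ (1 - δ / 2) ≤ N + 1 := (Nat.lt_floor_add_one _).le
  have a1 := h1 (x := r) hr (by rw [dist_zero_right, Real.norm_of_nonneg hr.le]; linarith)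
  have a2 := h2 (x := r / 2) (half_pos hr) (by
    rw [dist_zero_right, Real.norm_of_nonneg (half_pos hr).le]; linarith)
  rw [Real.dist_eq] at a1 a2
  have b1 := tail_le k N hr
  have b2 := SR_le_Sinf k N hr
  have c1 : ((N : ℝ) + 1) ^ (-r) ≤ Real.exp (-(K0 / 2)) := by
    calc ((N : ℝ) + 1) ^ (-r) ≤ (T ^ (1 - δ / 2)) ^ (-r) :=
          Real.rpow_le_rpow_of_nonpos (by positivity) hNf (by linarith)
      _ = T ^ ((1 - δ / 2) * (-r)) := by rw [← Real.rpow_mul hT0.le]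
      _ = Real.exp (Real.log T * ((1 - δ / 2) * (-r))) := Real.rpow_def_of_pos hT0 _
      _ ≤ _ := by
        rw [Real.exp_le_exp]
        have h3 : 0 ≤ r * Real.log T := by linarith
        have h4 : Real.log T * ((1 - δ / 2) * (-r)) = -((1 - δ / 2) * (r * Real.log T)) := by ring
        have h5 : 1 / 2 * (r * Real.log T) ≤ (1 - δ / 2) * (r * Real.log T) := by
          refine mul_le_mul_of_nonneg_right (by linarith) h3
        rw [h4]
        linarith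
  have c2 : Sinf k (r / 2) * (2 * r) ^ (k ^ 2) ≤ B := by
    have e : (2 * r) ^ (k ^ 2) = 2 ^ (k ^ 2) * (2 * (r / 2)) ^ (k ^ 2) := by
      rw [← mul_pow]; congr 1; ring
    rw [abs_lt] at a2
    calc Sinf k (r / 2) * (2 * r) ^ (k ^ 2) = 2 ^ (k ^ 2) * (Sinf k (r / 2) * (2 * (r / 2)) ^ (k ^ 2)) := by
          rw [e]; ring
      _ ≤ 2 ^ (k ^ 2) * (H306R2.aF k + 1) := by
          gcongr
          linarith
      _ = B := hB.symm
  have hS2 := Sinf_nonneg k (r / 2)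
  have hp : 0 ≤ (2 * r) ^ (k ^ 2) := by positivity
  have d3 : ((N : ℝ) + 1) ^ (-r) * Sinf k (r / 2) * (2 * r) ^ (k ^ 2) ≤ ε / 2 := by
    calc _ = ((N : ℝ) + 1) ^ (-r) * (Sinf k (r / 2) * (2 * r) ^ (k ^ 2)) := by ring
      _ ≤ Real.exp (-(K0 / 2)) * B := by gcongr
      _ ≤ ε / 2 := hKe
  have e1 : Sinf k r * (2 * r) ^ (k ^ 2) ≤ SR k N r * (2 * r) ^ (k ^ 2) + ε / 2 := by
    calc _ ≤ (SR k N r + ((N : ℝ) + 1) ^ (-r) * Sinf k (r / 2)) * (2 * r) ^ (k ^ 2) := by gcongr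
      _ = SR k N r * (2 * r) ^ (k ^ 2) + ((N : ℝ) + 1) ^ (-r) * Sinf k (r / 2) * (2 * r) ^ (k ^ 2) := by ring
      _ ≤ _ := by gcongr
  have e2 : SR k N r * (2 * r) ^ (k ^ 2) ≤ Sinf k r * (2 * r) ^ (k ^ 2) := by gcongr
  rw [abs_lt] at a1
  rw [abs_le]
  constructor <;> linarith

end

end Pool.Agent.U575.OL
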