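import Pool.Agent.U575.OL.Iter

set_option autoImplicit false

/-! From the line to the right of it. -/

namespace Pool.Agent.U575.OL

open Complex MeasureTheory Filter Topology Set Pool.Agent.TH535.SM
open scoped FourierTransform ComplexConjugate

noncomputable section

/-- the asymptotic formula at distance `c(T)/log T` -/
def Asym (k : ℕ) (c : ℝ → ℝ) : Prop :=
  Tendsto (fun T : ℝ => J k (c T / Real.log T) T * (2 * c T) ^ (k ^ 2) / (T * Real.log T ^ (k ^ 2)))
    atTop (𝓝 (H306R2.aF k))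

lemma Mt_eq {k : ℕ} {c T : ℝ} (hc : c ≠ 0) (hL : Real.log T ≠ 0) :
    Mt k (c / Real.log T) T = H306R2.aF k * (T * Real.log T ^ (k ^ 2)) / (2 * c) ^ (k ^ 2) := by
  unfold Mt
  rw [show 2 * (c / Real.log T) = (2 * c) / Real.log T by ring, div_pow]
  field_simp

lemma asym_of {k : ℕ} (hk : 1 ≤ k) {c : ℝ → ℝ} (hc : Tendsto c atTop atTop)
    (h : ∀ ε : ℝ, 0 < ε → ∀ᶠ T : ℝ in atTop, J k (c T / Real.log T) T ≤ (1 + ε) * Mt k (c T / Real.log T) T ∧
      Mt k (c T / Real.log T) T ≤ (1 + ε) * J k (c T / Real.log T) T) : Asym k c := by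
  have hk0 : (0:ℝ) < k := by exact_mod_cast hk
  have haF : 0 < H306R2.aF k := H306R2.aF_pos hk0
  unfold Asym
  rw [Metric.tendsto_nhds]
  intro ε hε
  set a := H306R2.aF k with ha
  set η : ℝ := ε / (2 * a) with hη
  have hη0 : 0 < η := by positivity
  filter_upwards [h η hη0, hc.eventually_gt_atTop 0, Real.tendsto_log_atTop.eventually_gt_atTop 0,
    eventually_gt_atTop 0] with T hT hcT hL hT0
  obtain ⟨h1, h2⟩ := hT
  rw [Mt_eq hcT.ne' hL.ne'] at h1 h2
  set j := J k (c T / Real.log T) T with hj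
  have hj0 : 0 ≤ j := J_nonneg k _ hT0.le
  set X := T * Real.log T ^ (k ^ 2) with hX
  have hX0 : 0 < X := by positivity
  set q := (2 * c T) ^ (k ^ 2) with hq
  have hq0 : 0 < q := by positivity
  rw [← ha] at h1 h2
  set R := j * q / X with hR
  have hR0 : 0 ≤ R := by positivity
  have e1 : R ≤ (1 + η) * a := by
    rw [hR, div_le_iff₀ hX0]
    calc j * q ≤ ((1 + η) * (a * X / q)) * q := by gcongr
      _ = (1 + η) * a * X := by field_simp
  have e2 : a ≤ (1 + η) * R := by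
    rw [hR]
    have : a * X ≤ (1 + η) * j * q := by
      calc a * X = (a * X / q) * q := by field_simp
        _ ≤ ((1 + η) * j) * q := by gcongr
        _ = _ := by ring
    rw [← mul_div_assoc, le_div_iff₀ hX0]
    linarith
  have e3 : η * a = ε / 2 := by rw [hη]; field_simp
  rw [Real.dist_eq, abs_lt]
  constructor
  · -- a - ε < R
    by_contra hcon
    push Not at hcon
    have h5 : R ≤ a - ε := by linarith
    have h6 : (1 + η) * R ≤ (1 + η) * (a - ε) := mul_le_mul_of_nonneg_left h5 (by linarith)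
    have h7 : (1 + η) * (a - ε) = a + η * a - ε - η * ε := by ring
    have h8 : 0 < η * ε := by positivity
    linarith
  · linarith

/-- elementary limits -/
lemma ev_exp_small (γ B : ℝ) (hγ : 0 < γ) (m : ℕ) {ε : ℝ} (hε : 0 < ε) :
    ∀ᶠ x : ℝ in atTop, B * ((2 * x) ^ m * Real.exp (-(γ * x))) ≤ ε := by
  have h := Real.tendsto_pow_mul_exp_neg_atTop_nhds_zero m
  have hl : Tendsto (fun x : ℝ => γ * x) atTop atTop := tendsto_id.const_mul_atTop hγ
  have h2 := (h.comp hl).const_mul (B * (2 / γ) ^ m)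
  rw [mul_zero] at h2
  filter_upwards [h2.eventually_le_const hε] with x hx
  refine le_trans (le_of_eq ?_) hx
  simp only [Function.comp]
  have : (2 * x) ^ m = (2 / γ) ^ m * (γ * x) ^ m := by
    rw [← mul_pow]; congr 1; field_simp
  rw [this]; ring

lemma ev_log_small (B : ℝ) (m : ℕ) {s : ℝ} (hs : 0 < s) : ∀ᶠ T : ℝ in atTop, B * Real.log T ^ m ≤ T ^ s := by
  have h := (isLittleO_log_rpow_rpow_atTop (m : ℝ) hs).bound (c := 1 / (|B| + 1)) (by positivity)
  filter_upwards [h, eventually_ge_atTop 1] with T hT hT1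
  have hL := Real.log_nonneg hT1
  rw [Real.rpow_natCast, Real.norm_of_nonneg (by positivity), Real.norm_of_nonneg (by positivity)] at hT
  calc B * Real.log T ^ m ≤ (|B| + 1) * Real.log T ^ m := by
        refine mul_le_mul_of_nonneg_right ?_ (by positivity)
        linarith [le_abs_self B]
    _ ≤ (|B| + 1) * (1 / (|B| + 1) * T ^ s) := by gcongr
    _ = T ^ s := by field_simp

lemma ev_c_small {c : ℝ → ℝ} (ho : Tendsto (fun T => c T / Real.log T) atTop (𝓝 0)) {s : ℝ} (hs : 0 < s) :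
    ∀ᶠ T : ℝ in atTop, c T ≤ s * Real.log T := by
  filter_upwards [ho.eventually_le_const hs, Real.tendsto_log_atTop.eventually_gt_atTop 0] with T h1 h2
  rwa [div_le_iff₀ h2] at h1

/-- the error term is small compared with the main term -/
lemma Er_small {k : ℕ} (hk : 1 ≤ k) {θ : ℝ} (hθ0 : 0 ≤ θ) (hθ : θ < 2) (C : ℝ) {ε : ℝ} (hε : 0 < ε) :
    ∃ x0 : ℝ, ∀ c : ℝ → ℝ, (∀ᶠ T : ℝ in atTop, x0 ≤ c T) →
    Tendsto (fun T => c T / Real.log T) atTop (𝓝 0) →
    (∀ᶠ T : ℝ in atTop, J k 0 (2 * T) ≤ C * (T * Real.log T ^ (k ^ 2)) * Real.exp (θ * c T)) →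
    ∀ᶠ T : ℝ in atTop, ∀ T1 : ℝ, T / 2 ≤ T1 → T1 ≤ 2 * T →
      Br k 0 T1 ≤ 2 * (T ^ (-(3 / 4 : ℝ)) * J k 0 (2 * T)) + 2 →
      Er k ((2 - θ) / 4) (c T / Real.log T) T1 ≤ ε * Mt k (c T / Real.log T) T := by
  have hk0 : (0:ℝ) < k := by exact_mod_cast hk
  have haF : 0 < H306R2.aF k := H306R2.aF_pos hk0
  set a := H306R2.aF k with ha
  set γ : ℝ := (2 - θ) / 2 with hγ
  have hγ0 : 0 < γ := by rw [hγ]; linarith
  set B : ℝ := Real.exp 2 * (|C| + 2 ^ (k ^ 2 + 1)) / a with hB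
  have hB0 : 0 ≤ B := by positivity
  obtain ⟨x0, hx0⟩ := (ev_exp_small γ B hγ0 (k ^ 2) (half_pos hε)).exists_forall_of_atTop
  refine ⟨max x0 1, fun c hc ho hM => ?_⟩
  have hcl : Tendsto (fun T => c T * Real.log 2 / Real.log T) atTop (𝓝 0) := by
    have := ho.mul_const (Real.log 2)
    rw [zero_mul] at this
    refine this.congr fun T => ?_
    ring
  have hpw : ∀ᶠ T : ℝ in atTop, 3 + 2 * T ^ (1 / 2 : ℝ) ≤ ε / 2 * (a * T) := by
    filter_upwards [(tendsto_rpow_atTop (y := 1 / 2) (by norm_num)).eventually_ge_atTop (10 / (ε * a)),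
      eventually_ge_atTop 1] with T hT hT1
    have hT0 : 0 < T := by linarith
    have h2 : 1 ≤ T ^ (1 / 2 : ℝ) := Real.one_le_rpow hT1 (by norm_num)
    have h3 : T ^ (1 / 2 : ℝ) * T ^ (1 / 2 : ℝ) = T := by rw [← Real.rpow_add hT0]; norm_num
    rw [div_le_iff₀ (by positivity)] at hT
    have h4 : 10 * T ^ (1 / 2 : ℝ) ≤ (T ^ (1 / 2 : ℝ) * (ε * a)) * T ^ (1 / 2 : ℝ) := by gcongr
    have h5 : (T ^ (1 / 2 : ℝ) * (ε * a)) * T ^ (1 / 2 : ℝ) = ε * a * T := by
      calc _ = ε * a * (T ^ (1 / 2 : ℝ) * T ^ (1 / 2 : ℝ)) := by ring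
        _ = _ := by rw [h3]
    linarith
  filter_upwards [hM, hc, hcl.eventually_le_const one_pos, ev_log_small C (k ^ 2) (s := 1 / 8) (by norm_num),
    ev_c_small ho (s := 1 / 16) (by norm_num), hpw, Real.tendsto_log_atTop.eventually_ge_atTop 1,
    eventually_ge_atTop 2] with T hM hcc hcl hCl hcs hpw hL1 hT2 T1 hT1a hT1b hBr
  have hexp := hx0 (c T) ((le_max_left _ _).trans hcc)
  have hc1 : 1 ≤ c T := (le_max_right _ _).trans hcc
  have hT0 : 0 < T := by linarith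
  have hL0 : 0 < Real.log T := by linarith
  have hc0 : 0 < c T := by linarith
  set X := T * Real.log T ^ (k ^ 2) with hX
  have hX0 : 0 < X := by positivity
  set r := c T / Real.log T with hr
  have hr0 : 0 < r := by positivity
  have hT10 : 0 < T1 := by linarith
  have hMt : Mt k r T = a * X / (2 * c T) ^ (k ^ 2) := Mt_eq hc0.ne' hL0.ne'
  have hMt0 : 0 ≤ Mt k r T := Mt_nonneg hk hr0 hT0.le
  -- r log T1
  have hlog2 : Real.log T1 ≥ Real.log T - Real.log 2 := by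
    rw [ge_iff_le, ← Real.log_div hT0.ne' two_ne_zero]
    exact Real.log_le_log (by positivity) hT1a
  have hrl : c T - 1 ≤ r * Real.log T1 := by
    have h1 : r * (Real.log T - Real.log 2) ≤ r * Real.log T1 := by gcongr
    have h2 : r * (Real.log T - Real.log 2) = c T - c T * Real.log 2 / Real.log T := by
      rw [hr]; field_simp
    linarith
  have hlogT1 : Real.log T1 ≤ 2 * Real.log T := by
    have h1 : Real.log T1 ≤ Real.log (T ^ 2) := Real.log_le_log hT10 (by nlinarith)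
    rw [Real.log_pow] at h1
    exact_mod_cast h1
  have hlogT1' : 0 ≤ Real.log T1 := Real.log_nonneg (by linarith)
  set δ : ℝ := (2 - θ) / 4 with hδ
  have hE : Real.exp (-(2 * (1 - δ) * (r * Real.log T1))) ≤
      Real.exp 2 * Real.exp (-(2 * (1 - δ) * c T)) := by
    rw [← Real.exp_add, Real.exp_le_exp]
    have hδ0 : 0 < δ := by rw [hδ]; linarith
    have hδ1 : 0 ≤ 1 - δ := by rw [hδ]; linarith
    have h1 : 2 * (1 - δ) * (c T - 1) ≤ 2 * (1 - δ) * (r * Real.log T1) := by gcongr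
    linarith
  have hJ1 : J k 0 T1 ≤ |C| * X * Real.exp (θ * c T) := by
    have h1 : J k 0 T1 ≤ J k 0 (2 * T) := J_mono k (by norm_num) hT1b
    have h2 : C * X * Real.exp (θ * c T) ≤ |C| * X * Real.exp (θ * c T) := by
      gcongr; exact le_abs_self C
    linarith
  have hX1 : T1 * Real.log T1 ^ (k ^ 2) ≤ 2 ^ (k ^ 2 + 1) * X * Real.exp (θ * c T) := by
    have h1 : 1 ≤ Real.exp (θ * c T) := Real.one_le_exp (by positivity)
    have h2 : T1 * Real.log T1 ^ (k ^ 2) ≤ (2 * T) * (2 * Real.log T) ^ (k ^ 2) := by gcongr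
    calc _ ≤ (2 * T) * (2 * Real.log T) ^ (k ^ 2) := h2
      _ = 2 ^ (k ^ 2 + 1) * X := by rw [mul_pow, hX]; ring
      _ ≤ _ := le_mul_of_one_le_right (by positivity) h1
  have hJ1n := J_nonneg k 0 hT10.le
  have hfirst : Real.exp (-(2 * (1 - δ) * (r * Real.log T1))) * (J k 0 T1 + T1 * Real.log T1 ^ (k ^ 2)) ≤
      ε / 2 * Mt k r T := by
    calc _ ≤ (Real.exp 2 * Real.exp (-(2 * (1 - δ) * c T))) *
          (|C| * X * Real.exp (θ * c T) + 2 ^ (k ^ 2 + 1) * X * Real.exp (θ * c T)) := by gcongr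
      _ = Real.exp 2 * (|C| + 2 ^ (k ^ 2 + 1)) * X * (Real.exp (-(2 * (1 - δ) * c T)) * Real.exp (θ * c T)) := by
          ring
      _ = Real.exp 2 * (|C| + 2 ^ (k ^ 2 + 1)) * X * Real.exp (-(γ * c T)) := by
          rw [← Real.exp_add]; congr 2; rw [hδ, hγ]; ring
      _ = (B * ((2 * c T) ^ (k ^ 2) * Real.exp (-(γ * c T)))) * (a * X / (2 * c T) ^ (k ^ 2)) := by
          rw [hB]; field_simp
      _ ≤ ε / 2 * (a * X / (2 * c T) ^ (k ^ 2)) := by gcongr
      _ = _ := by rw [hMt]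
  -- the remaining terms
  have hsec : 1 + Br k 0 T1 ≤ ε / 2 * Mt k r T := by
    have h1 : T ^ (-(3 / 4 : ℝ)) * J k 0 (2 * T) ≤ T ^ (1 / 2 : ℝ) := by
      have h2 : Real.exp (θ * c T) ≤ T ^ (1 / 8 : ℝ) := by
        rw [Real.rpow_def_of_pos hT0, Real.exp_le_exp]
        have : θ * c T ≤ 2 * c T := by gcongr
        linarith
      have h3 : C * X ≤ T * T ^ (1 / 8 : ℝ) := by
        calc C * X = T * (C * Real.log T ^ (k ^ 2)) := by rw [hX]; ring
          _ ≤ _ := by gcongr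
      calc T ^ (-(3 / 4 : ℝ)) * J k 0 (2 * T) ≤ T ^ (-(3 / 4 : ℝ)) * (C * X * Real.exp (θ * c T)) := by gcongr
        _ ≤ T ^ (-(3 / 4 : ℝ)) * (T * T ^ (1 / 8 : ℝ) * T ^ (1 / 8 : ℝ)) := by
            refine mul_le_mul_of_nonneg_left ?_ (by positivity)
            exact mul_le_mul h3 h2 (Real.exp_pos _).le (by positivity)
        _ = T ^ (-(3 / 4 : ℝ)) * (T ^ (1:ℝ) * T ^ (1 / 8 : ℝ) * T ^ (1 / 8 : ℝ)) := by rw [Real.rpow_one]
        _ = T ^ (1 / 2 : ℝ) := by
            rw [← Real.rpow_add hT0, ← Real.rpow_add hT0, ← Real.rpow_add hT0]; norm_num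
    have h4 : a * T ≤ Mt k r T := by
      unfold Mt
      rw [le_div_iff₀ (by positivity), ← ha]
      have h5 : 2 * r ≤ 1 := by
        rw [hr]
        have : c T / Real.log T ≤ 1 / 16 := by rw [div_le_iff₀ hL0]; linarith
        linarith
      have h6 : (2 * r) ^ (k ^ 2) ≤ 1 := pow_le_one₀ (by positivity) h5
      exact mul_le_of_le_one_right (by positivity) h6
    calc 1 + Br k 0 T1 ≤ 3 + 2 * T ^ (1 / 2 : ℝ) := by linarith
      _ ≤ ε / 2 * (a * T) := hpw
      _ ≤ _ := by gcongr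
  unfold Er
  linarith

lemma Mt_lin {k : ℕ} {r T : ℝ} (q : ℝ) : Mt k r (q * T) = q * Mt k r T := by
  unfold Mt; ring

lemma fwd_alg {e J M : ℝ} (he : 0 ≤ e) (he1 : e ≤ 1) (hJ : 0 ≤ J) (hM : 0 ≤ M)
    (h1 : J ≤ (1 + e / 8) * ((1 + e / 8) * M) + e / 8 * M)
    (h2 : M ≤ (1 + e / 8) * ((1 + e / 8) * J + e / 8 * M)) :
    J ≤ (1 + e) * M ∧ M ≤ (1 + e) * J := by
  have hee : e * e ≤ e * 1 := mul_le_mul_of_nonneg_left he1 he
  constructor
  · have : (1 + e / 8) * ((1 + e / 8) * M) + e / 8 * M = (1 + 3 * e / 8 + e * e / 64) * M := by ring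
    rw [this] at h1
    exact h1.trans (mul_le_mul_of_nonneg_right (by linarith) hM)
  · have h3 : (1 + e / 8) * ((1 + e / 8) * J + e / 8 * M) =
      (1 + 2 * e / 8 + e * e / 64) * J + (e / 8 + e * e / 64) * M := by ring
    rw [h3] at h2
    have h4 : (1 - (e / 8 + e * e / 64)) * M ≤ (1 + 2 * e / 8 + e * e / 64) * J := by linarith
    have h5 : (1 + e / 4) * ((1 - (e / 8 + e * e / 64)) * M) ≤ (1 + e / 4) * ((1 + 2 * e / 8 + e * e / 64) * J) :=
      mul_le_mul_of_nonneg_left h4 (by linarith)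
    have hp : 0 ≤ e * (1 - e) := mul_nonneg he (by linarith)
    have h6 : M ≤ (1 + e / 4) * ((1 - (e / 8 + e * e / 64)) * M) := by
      have : 1 ≤ (1 + e / 4) * (1 - (e / 8 + e * e / 64)) := by nlinarith [mul_nonneg he hp, mul_nonneg he he]
      calc M = 1 * M := (one_mul M).symm
        _ ≤ ((1 + e / 4) * (1 - (e / 8 + e * e / 64))) * M := mul_le_mul_of_nonneg_right this hM
        _ = _ := by ring
    have h7 : (1 + e / 4) * ((1 + 2 * e / 8 + e * e / 64) * J) ≤ (1 + e) * J := by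
      have : (1 + e / 4) * (1 + 2 * e / 8 + e * e / 64) ≤ 1 + e := by nlinarith [mul_nonneg he hp, mul_nonneg he he]
      calc _ = ((1 + e / 4) * (1 + 2 * e / 8 + e * e / 64)) * J := by ring
        _ ≤ _ := mul_le_mul_of_nonneg_right this hJ
    linarith

/-- from the line to the right of it -/
theorem fwd0 {k : ℕ} (hk : 1 ≤ k) {θ : ℝ} (hθ0 : 0 ≤ θ) (hθ : θ < 2) (C : ℝ) {ε0 : ℝ} (hε0 : 0 < ε0) :
    ∃ x0 : ℝ, 1 ≤ x0 ∧ ∀ c : ℝ → ℝ, (∀ᶠ T : ℝ in atTop, x0 ≤ c T) →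
    Tendsto (fun T => c T / Real.log T) atTop (𝓝 0) →
    (∀ᶠ T : ℝ in atTop, J k 0 (2 * T) ≤ C * (T * Real.log T ^ (k ^ 2)) * Real.exp (θ * c T)) →
    ∀ᶠ T : ℝ in atTop, J k (c T / Real.log T) T ≤ (1 + ε0) * Mt k (c T / Real.log T) T ∧
      Mt k (c T / Real.log T) T ≤ (1 + ε0) * J k (c T / Real.log T) T := by
  obtain ⟨ε, hεd⟩ : ∃ ε, ε = min ε0 1 := ⟨_, rfl⟩
  have hε : 0 < ε := by rw [hεd]; exact lt_min hε0 one_pos
  have hε1 : ε ≤ 1 := by rw [hεd]; exact min_le_right _ _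
  have hεle : ε ≤ ε0 := by rw [hεd]; exact min_le_left _ _
  have hδ : 0 < (2 - θ) / 4 := by linarith
  have hδ1 : (2 - θ) / 4 ≤ 1 := by linarith
  obtain ⟨Cq, K, Tq, hCq, hK, hTq, hq⟩ := ql k hk hδ hδ1 (ε := ε / 8) (by positivity)
  obtain ⟨X0, hX0, hBA⟩ := BA k (η := ε / 8) (by positivity) (by linarith)
  obtain ⟨x0, hx0⟩ := Er_small hk hθ0 hθ C (ε := ε / 8 / Cq) (by positivity)
  refine ⟨max x0 (K + 1), le_max_of_le_right (by linarith), fun c hc ho hM => ?_⟩
  have hcl : Tendsto (fun T => c T * Real.log 2 / Real.log T) atTop (𝓝 0) := by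
    have := ho.mul_const (Real.log 2)
    rw [zero_mul] at this
    refine this.congr fun T => ?_
    ring
  filter_upwards [hx0 c (hc.mono fun T h => (le_max_left _ _).trans h) ho hM,
    hc.mono fun T h => (le_max_right _ _).trans h, hcl.eventually_le_const one_pos,
    ev_c_small ho (s := 1 / K) (by positivity), Real.tendsto_log_atTop.eventually_ge_atTop 1,
    eventually_ge_atTop (2 * X0), eventually_ge_atTop (2 * Tq), eventually_ge_atTop 2] with
    T hEr hcK hcl hcs hL1 hTX hTTq hT2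
  have hT0 : 0 < T := by linarith
  have hL0 : 0 < Real.log T := by linarith
  have hc0 : 0 < c T := by linarith
  obtain ⟨r, hr⟩ : ∃ r, r = c T / Real.log T := ⟨_, rfl⟩
  rw [← hr] at hEr ⊢
  have hr0 : 0 < r := by rw [hr]; positivity
  have hrK : r ≤ 1 / K := by rw [hr, div_le_iff₀ hL0]; exact hcs
  have hr4 : r ≤ 1 / 4 := hrK.trans (one_div_le_one_div_of_le (by norm_num) hK)
  have hrl : ∀ T1, T / 2 ≤ T1 → K ≤ r * Real.log T1 := by
    intro T1 hT1
    have hlog2 : Real.log T - Real.log 2 ≤ Real.log T1 := by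
      rw [← Real.log_div hT0.ne' two_ne_zero]
      exact Real.log_le_log (by positivity) hT1
    have h1 : r * (Real.log T - Real.log 2) ≤ r * Real.log T1 := by gcongr
    have h2 : r * (Real.log T - Real.log 2) = c T - c T * Real.log 2 / Real.log T := by
      rw [hr]; field_simp
    linarith
  have hMt0 : 0 ≤ Mt k r T := Mt_nonneg hk hr0 hT0.le
  have hJ0 : 0 ≤ J k r T := J_nonneg k r hT0.le
  have hJ20 : 0 ≤ J k 0 (2 * T) := J_nonneg k 0 (by linarith)
  have hCC : ∀ E : ℝ, E ≤ ε / 8 / Cq * Mt k r T → Cq * E ≤ ε / 8 * Mt k r T := by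
    intro E hE
    calc Cq * E ≤ Cq * (ε / 8 / Cq * Mt k r T) := by gcongr
      _ = _ := by field_simp
  -- the upper bound
  have hup : J k r T ≤ (1 + ε / 8) * ((1 + ε / 8) * Mt k r T) + ε / 8 * Mt k r T := by
    obtain ⟨T1, hT1, hT1', hb⟩ := hBA T (by linarith)
    have hT1b : T1 ≤ 2 * T := hT1'.trans (by nlinarith)
    have h1 : Br k 0 T1 ≤ 2 * (T ^ (-(3 / 4 : ℝ)) * J k 0 (2 * T)) + 2 := by
      have : 0 ≤ T ^ (-(3 / 4 : ℝ)) * J k 0 (2 * T) := by positivity
      linarith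
    have h2 := hEr T1 (by linarith) hT1b h1
    obtain ⟨h3, -⟩ := hq T1 (by linarith) r hr0 hrK (hrl T1 (by linarith))
    have h4 : J k r T ≤ J k r T1 := J_mono k hr4 hT1
    have h5 : Mt k r T1 ≤ (1 + ε / 8) * Mt k r T := by
      rw [← Mt_lin]
      unfold Mt
      have hk0 : (0:ℝ) < k := by exact_mod_cast hk
      have haF : 0 < H306R2.aF k := H306R2.aF_pos hk0
      gcongr
    have h6 : (1 + ε / 8) * Mt k r T1 ≤ (1 + ε / 8) * ((1 + ε / 8) * Mt k r T) := by gcongr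
    have h7 := hCC _ h2
    linarith
  have hlo : Mt k r T ≤ (1 + ε / 8) * ((1 + ε / 8) * J k r T + ε / 8 * Mt k r T) := by
    obtain ⟨T1, hT1, hT1', hb⟩ := hBA (T / (1 + ε / 8)) (by
      rw [le_div_iff₀ (by positivity)]
      have : X0 * (1 + ε / 8) ≤ X0 * 2 := by gcongr; linarith
      linarith)
    have e1 : (1 + ε / 8) * (T / (1 + ε / 8)) = T := by field_simp
    rw [e1] at hT1'
    have hT1a : T / 2 ≤ T1 := by
      refine le_trans ?_ hT1
      gcongr; linarith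
    have hT1p : 0 < T1 := by linarith
    have h1 : Br k 0 T1 ≤ 2 * (T ^ (-(3 / 4 : ℝ)) * J k 0 (2 * T)) + 2 := by
      have h8 : (T / (1 + ε / 8)) ^ (-(3 / 4 : ℝ)) ≤ 2 * T ^ (-(3 / 4 : ℝ)) := by
        rw [Real.div_rpow hT0.le (by positivity), div_eq_mul_inv, mul_comm,
          ← Real.rpow_neg (by positivity), neg_neg]
        gcongr
        calc (1 + ε / 8) ^ (3 / 4 : ℝ) ≤ (1 + ε / 8) ^ (1 : ℝ) :=
              Real.rpow_le_rpow_of_exponent_le (by linarith) (by norm_num)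
          _ = 1 + ε / 8 := Real.rpow_one _
          _ ≤ 2 := by linarith
      have h9 : J k 0 (2 * (T / (1 + ε / 8))) ≤ J k 0 (2 * T) := by
        refine J_mono k (by norm_num) ?_
        gcongr
        exact div_le_self hT0.le (by linarith)
      have h10 : 0 ≤ J k 0 (2 * (T / (1 + ε / 8))) := J_nonneg k 0 (by positivity)
      calc Br k 0 T1 ≤ (T / (1 + ε / 8)) ^ (-(3 / 4 : ℝ)) * J k 0 (2 * (T / (1 + ε / 8))) + 2 := hb
        _ ≤ (2 * T ^ (-(3 / 4 : ℝ))) * J k 0 (2 * T) + 2 := by gcongr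
        _ = _ := by ring
    have h2 := hEr T1 hT1a (by linarith) h1
    obtain ⟨-, h3⟩ := hq T1 (by linarith) r hr0 hrK (hrl T1 hT1a)
    have h4 : J k r T1 ≤ J k r T := J_mono k hr4 hT1'
    have h5 : Mt k r T ≤ (1 + ε / 8) * Mt k r T1 := by
      rw [← Mt_lin]
      unfold Mt
      have hk0 : (0:ℝ) < k := by exact_mod_cast hk
      have haF : 0 < H306R2.aF k := H306R2.aF_pos hk0
      gcongr
      rw [div_le_iff₀ (by positivity)] at hT1
      linarith
    have h7 := hCC _ h2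
    calc Mt k r T ≤ (1 + ε / 8) * Mt k r T1 := h5
      _ ≤ (1 + ε / 8) * ((1 + ε / 8) * J k r T + ε / 8 * Mt k r T) := by
        have h11 : (1 + ε / 8) * J k r T1 ≤ (1 + ε / 8) * J k r T := by gcongr
        refine mul_le_mul_of_nonneg_left ?_ (by positivity)
        linarith
  obtain ⟨f1, f2⟩ := fwd_alg hε.le hε1 hJ0 hMt0 hup hlo
  constructor
  · exact f1.trans (mul_le_mul_of_nonneg_right (by linarith) hMt0)
  · exact f2.trans (mul_le_mul_of_nonneg_right (by linarith) hJ0)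

/-- from the line to the right of it -/
theorem fwd {k : ℕ} (hk : 1 ≤ k) {c : ℝ → ℝ} (hc : Tendsto c atTop atTop)
    (ho : Tendsto (fun T => c T / Real.log T) atTop (𝓝 0)) {θ : ℝ} (hθ0 : 0 ≤ θ) (hθ : θ < 2) {C : ℝ}
    (hM : ∀ᶠ T : ℝ in atTop, J k 0 (2 * T) ≤ C * (T * Real.log T ^ (k ^ 2)) * Real.exp (θ * c T)) :
    Asym k c := by
  refine asym_of hk hc fun ε hε => ?_
  obtain ⟨x0, -, h⟩ := fwd0 hk hθ0 hθ C hε
  exact h c (hc.eventually_ge_atTop x0) ho hM

/-- fixed distances -/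
theorem fwd_fixed {k : ℕ} (hk : 1 ≤ k) {C : ℝ}
    (hM : ∀ᶠ T : ℝ in atTop, J k 0 (2 * T) ≤ C * (T * Real.log T ^ (k ^ 2))) {ε : ℝ} (hε : 0 < ε) :
    ∃ x0 : ℝ, 1 ≤ x0 ∧ ∀ x : ℝ, x0 ≤ x → ∀ᶠ T : ℝ in atTop,
      |J k (x / Real.log T) T * (2 * x) ^ (k ^ 2) / (T * Real.log T ^ (k ^ 2)) - H306R2.aF k| ≤ ε := by
  have hk0 : (0:ℝ) < k := by exact_mod_cast hk
  have haF : 0 < H306R2.aF k := H306R2.aF_pos hk0
  obtain ⟨a, ha⟩ : ∃ a, a = H306R2.aF k := ⟨_, rfl⟩
  rw [← ha] at haF ⊢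
  set η : ℝ := min (ε / (2 * a)) 1 with hη
  have hη0 : 0 < η := lt_min (by positivity) one_pos
  obtain ⟨x0, hx1, hx0⟩ := fwd0 hk (θ := 0) le_rfl two_pos C hη0
  refine ⟨x0, hx1, fun x hx => ?_⟩
  filter_upwards [hx0 (fun _ => x) (Eventually.of_forall fun _ => hx)
    (tendsto_const_nhds.div_atTop Real.tendsto_log_atTop) (hM.mono fun T h => by simpa using h),
    Real.tendsto_log_atTop.eventually_gt_atTop 0, eventually_gt_atTop 0] with T hT hL hT0
  obtain ⟨h1, h2⟩ := hT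
  have hx00 : 0 < x := by linarith
  rw [Mt_eq hx00.ne' hL.ne', ← ha] at h1 h2
  set j := J k (x / Real.log T) T with hj
  have hj0 : 0 ≤ j := J_nonneg k _ hT0.le
  set X := T * Real.log T ^ (k ^ 2) with hX
  have hX0 : 0 < X := by positivity
  set q := (2 * x) ^ (k ^ 2) with hq
  have hq0 : 0 < q := by positivity
  set R := j * q / X with hR
  have hR0 : 0 ≤ R := by positivity
  have e1 : R ≤ (1 + η) * a := by
    rw [hR, div_le_iff₀ hX0]
    calc j * q ≤ ((1 + η) * (a * X / q)) * q := by gcongr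
      _ = (1 + η) * a * X := by field_simp
  have e2 : a ≤ (1 + η) * R := by
    rw [hR]
    have : a * X ≤ (1 + η) * j * q := by
      calc a * X = (a * X / q) * q := by field_simp
        _ ≤ ((1 + η) * j) * q := by gcongr
        _ = _ := by ring
    rw [← mul_div_assoc, le_div_iff₀ hX0]
    linarith
  have e3 : η * a ≤ ε / 2 := by
    calc η * a ≤ ε / (2 * a) * a := by gcongr; exact min_le_left _ _
      _ = ε / 2 := by field_simp
  rw [abs_le]
  constructor
  · by_contra hcon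
    push Not at hcon
    have h5 : R ≤ a - ε := by linarith
    have h6 : (1 + η) * R ≤ (1 + η) * (a - ε) := mul_le_mul_of_nonneg_left h5 (by linarith)
    have h7 : (1 + η) * (a - ε) = a + η * a - ε - η * ε := by ring
    have h8 : 0 < η * ε := by positivity
    linarith
  · linarith

end

end Pool.Agent.U575.OL
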