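import Pool.Agent.U575.OL.QL

set_option autoImplicit false

/-! The local moment at a well chosen height, and the iteration. -/

namespace Pool.Agent.U575.OL

open Complex MeasureTheory Filter Topology Set Pool.Agent.TH535.SM
open scoped FourierTransform ComplexConjugate

noncomputable section

lemma zk_Z (k : ℕ) (t : ℝ) : ‖zk k t‖ ^ 2 = Z k 0 t := by
  unfold zk Z ze pt
  rw [norm_pow, ← pow_mul, mul_comm k 2]
  congr 3
  push_cast
  ring

lemma M_zk (k : ℕ) (T : ℝ) : M (zk k) T = J k 0 T := by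
  unfold M J
  simp_rw [zk_Z]

lemma B_zk (k : ℕ) (T : ℝ) : B (zk k) T = Br k 0 T := by
  unfold B Br
  simp_rw [zk_Z]

lemma J_poly (k : ℕ) : ∃ (C : ℝ) (q : ℕ), 1 ≤ C ∧ ∀ T : ℝ, 0 ≤ T → J k 0 T ≤ C * (1 + T) ^ q := by
  obtain ⟨C, q, hC, h⟩ := M_upper (zk_dat k (u := 1) le_rfl)
  exact ⟨C, q, hC, fun T hT => by rw [← M_zk]; exact h T hT⟩

lemma pigeon (f : ℕ → ℝ) {n : ℕ} (hn : 1 ≤ n) : ∃ j < n, f (j + 1) - f j ≤ (f n - f 0) / n := by
  have hn0 : (0:ℝ) < n := by exact_mod_cast hn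
  by_contra hcon
  push Not at hcon
  have h1 : ∑ j ∈ Finset.range n, (f n - f 0) / n < ∑ j ∈ Finset.range n, (f (j + 1) - f j) := by
    refine Finset.sum_lt_sum_of_nonempty ⟨0, Finset.mem_range.2 hn⟩ fun j hj => hcon j (Finset.mem_range.1 hj)
  rw [Finset.sum_range_sub, Finset.sum_const, Finset.card_range, nsmul_eq_mul] at h1
  have : (n:ℝ) * ((f n - f 0) / n) = f n - f 0 := by field_simp
  linarith

/-- the local moment is tiny at some height -/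
theorem BA (k : ℕ) {η : ℝ} (hη : 0 < η) (hη1 : η ≤ 1) : ∃ X0 : ℝ, 1 ≤ X0 ∧ ∀ X : ℝ, X0 ≤ X →
    ∃ T : ℝ, X ≤ T ∧ T ≤ (1 + η) * X ∧ Br k 0 T ≤ X ^ (-(3 / 4 : ℝ)) * J k 0 (2 * X) + 2 := by
  obtain ⟨C, p, hC, hB⟩ := B_split (zk_dat k (u := 1) le_rfl)
  have ev : ∀ᶠ X : ℝ in atTop, X ^ (3 / 4 : ℝ) * (4 * Real.log X) ≤ η * X := by
    have h := (isLittleO_log_rpow_atTop (r := 1 / 4) (by norm_num)).bound (c := η / 4) (by positivity)
    filter_upwards [h, eventually_ge_atTop 1] with X hX hX1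
    have hX0 : 0 < X := by linarith
    rw [Real.norm_of_nonneg (Real.log_nonneg hX1), Real.norm_of_nonneg (by positivity)] at hX
    calc X ^ (3 / 4 : ℝ) * (4 * Real.log X) ≤ X ^ (3 / 4 : ℝ) * (4 * (η / 4 * X ^ (1 / 4 : ℝ))) := by gcongr
      _ = η * (X ^ (3 / 4 : ℝ) * X ^ (1 / 4 : ℝ)) := by ring
      _ = η * X := by rw [← Real.rpow_add hX0]; norm_num
  have ev2 : ∀ᶠ X : ℝ in atTop, 4 * Real.log X ≤ η * X := by
    filter_upwards [ev, eventually_ge_atTop 1] with X hX hX1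
    refine le_trans ?_ hX
    have h1 : 1 ≤ X ^ (3 / 4 : ℝ) := Real.one_le_rpow hX1 (by norm_num)
    have h2 : 0 ≤ 4 * Real.log X := by have := Real.log_nonneg hX1; linarith
    exact le_mul_of_one_le_left h2 h1
  obtain ⟨X1, hX1⟩ := ((tail_small C p (by linarith)).and (ev.and (ev2.and
    (Real.tendsto_log_atTop.eventually_ge_atTop 1)))).exists_forall_of_atTop
  refine ⟨max X1 1, le_max_right _ _, fun X hX => ?_⟩
  obtain ⟨t1, t2, t3, t4⟩ := hX1 X ((le_max_left _ _).trans hX)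
  have hX1' : 1 ≤ X := (le_max_right _ _).trans hX
  have hX0 : 0 < X := by linarith
  set h := Real.log X with hh
  have hh0 : 0 < h := by linarith
  set n : ℕ := ⌊η * X / (2 * h)⌋₊ with hn
  have hnle : (n:ℝ) * (2 * h) ≤ η * X := by
    have : (n:ℝ) ≤ η * X / (2 * h) := Nat.floor_le (by positivity)
    rwa [le_div_iff₀ (by positivity)] at this
  have hnX : 2 ≤ η * X / (2 * h) := by
    rw [le_div_iff₀ (by positivity)]; linarith
  have hn1 : 1 ≤ n := by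
    rw [hn, Nat.one_le_floor_iff]; linarith
  have hnge : X ^ (3 / 4 : ℝ) ≤ n := by
    have h1 : η * X / (2 * h) < n + 1 := Nat.lt_floor_add_one _
    have h2 : 2 * X ^ (3 / 4 : ℝ) ≤ η * X / (2 * h) := by
      rw [le_div_iff₀ (by positivity)]; linarith
    have h3 : 1 ≤ X ^ (3 / 4 : ℝ) := Real.one_le_rpow hX1' (by norm_num)
    linarith
  obtain ⟨j, hj, hj2⟩ := pigeon (fun j : ℕ => J k 0 (X + 2 * j * h)) hn1
  have hjn : (j:ℝ) + 1 ≤ n := by exact_mod_cast hj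
  have hj0 : (0:ℝ) ≤ j := Nat.cast_nonneg j
  refine ⟨X + (2 * j + 1) * h, by have : 0 ≤ (2 * j + 1) * h := by positivity
                                  linarith, ?_, ?_⟩
  · have : (2 * j + 1) * h ≤ n * (2 * h) := by
      have : (2 * j + 1) * h ≤ (2 * n) * h := by gcongr; linarith
      linarith
    linarith
  · have h1 := hB (X + (2 * j + 1) * h) h (by positivity) hh0.le
    rw [B_zk, M_zk, M_zk] at h1
    have e1 : X + (2 * j + 1) * h + h = X + 2 * ((j + 1 : ℕ) : ℝ) * h := by push_cast; ring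
    have e2 : X + (2 * j + 1) * h - h = X + 2 * j * h := by ring
    rw [e1, e2] at h1
    have h2 : (J k 0 (X + 2 * (n:ℝ) * h) - J k 0 (X + 2 * ((0:ℕ):ℝ) * h)) / n ≤
        X ^ (-(3 / 4 : ℝ)) * J k 0 (2 * X) := by
      have h3 : J k 0 (X + 2 * (n:ℝ) * h) ≤ J k 0 (2 * X) := by
        refine J_mono k (by norm_num) ?_
        have : η * X ≤ 1 * X := by gcongr
        linarith
      have h4 : 0 ≤ J k 0 (X + 2 * ((0:ℕ):ℝ) * h) := J_nonneg k 0 (by push_cast; linarith)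
      have h5 : 0 ≤ J k 0 (2 * X) := J_nonneg k 0 (by linarith)
      calc _ ≤ J k 0 (2 * X) / n := by gcongr; linarith
        _ ≤ J k 0 (2 * X) / X ^ (3 / 4 : ℝ) := by gcongr
        _ = _ := by rw [Real.rpow_neg hX0.le]; ring
    have h6 : C * (1 + (X + (2 * j + 1) * h)) ^ p * Real.exp (-h ^ 2 / 8) ≤ 1 := by
      refine le_trans ?_ t1
      have h7 : X + (2 * j + 1) * h ≤ 2 * X := by
        have : (2 * j + 1) * h ≤ (2 * n) * h := by gcongr; linarith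
        have : η * X ≤ 1 * X := by gcongr
        linarith
      gcongr
    linarith

/-- the iteration -/
lemma iter {M Φ : ℝ → ℝ} (hM : ∀ T, 0 ≤ T → 0 ≤ M T) {C : ℝ} {q : ℕ} (hC : 0 ≤ C)
    (hq : ∀ T, 0 ≤ T → M T ≤ C * (1 + T) ^ q)
    {T0 : ℝ} (h1 : ∀ T, T0 ≤ T → M T ≤ Φ T + T ^ (-(1 / 2 : ℝ)) * M (3 * T))
    (h2 : ∀ T, T0 ≤ T → T ≤ Φ T) (h3 : ∀ T, T0 ≤ T → Φ T ≤ T ^ (9 / 8 : ℝ)) :
    ∃ T1 : ℝ, T0 ≤ T1 ∧ 1 ≤ T1 ∧ ∀ T, T1 ≤ T → M T ≤ 2 * Φ T := by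
  have key : ∀ n : ℕ, (∃ C' S : ℝ, 0 ≤ C' ∧ ∀ T, S ≤ T → M T ≤ C' * T ^ (9 / 8 + (n:ℝ) / 4)) →
      ∃ C' S : ℝ, 0 ≤ C' ∧ ∀ T, S ≤ T → M T ≤ C' * T ^ (9 / 8 : ℝ) := by
    intro n
    induction n with
    | zero =>
      rintro ⟨C', S, hC', h⟩
      refine ⟨C', S, hC', fun T hT => ?_⟩
      simpa using h T hT
    | succ n ih =>
      rintro ⟨C', S, hC', h⟩
      refine ih ⟨1 + C' * 3 ^ (9 / 8 + ((n + 1 : ℕ):ℝ) / 4), max (max S T0) 1, by positivity, fun T hT => ?_⟩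
      have hS : S ≤ T := ((le_max_left _ _).trans (le_max_left _ _)).trans hT
      have hT0 : T0 ≤ T := ((le_max_right _ _).trans (le_max_left _ _)).trans hT
      have hT1 : 1 ≤ T := (le_max_right _ _).trans hT
      have hTp : 0 < T := by linarith
      have a1 := h1 T hT0
      have a2 := h3 T hT0
      have a3 := h (3 * T) (by linarith)
      have hn0 : (0:ℝ) ≤ n := Nat.cast_nonneg n
      have a4 : T ^ (9 / 8 : ℝ) ≤ T ^ (9 / 8 + (n:ℝ) / 4) :=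
        Real.rpow_le_rpow_of_exponent_le hT1 (by linarith)
      have a5 : T ^ (-(1 / 2 : ℝ)) * M (3 * T) ≤ C' * 3 ^ (9 / 8 + ((n + 1 : ℕ):ℝ) / 4) *
          T ^ (9 / 8 + (n:ℝ) / 4) := by
        calc T ^ (-(1 / 2 : ℝ)) * M (3 * T) ≤
              T ^ (-(1 / 2 : ℝ)) * (C' * (3 * T) ^ (9 / 8 + ((n + 1 : ℕ):ℝ) / 4)) := by gcongr
          _ = C' * 3 ^ (9 / 8 + ((n + 1 : ℕ):ℝ) / 4) *
              (T ^ (-(1 / 2 : ℝ)) * T ^ (9 / 8 + ((n + 1 : ℕ):ℝ) / 4)) := by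
              rw [Real.mul_rpow (by norm_num) hTp.le]; ring
          _ ≤ _ := by
              rw [← Real.rpow_add hTp]
              refine mul_le_mul_of_nonneg_left ?_ (by positivity)
              refine Real.rpow_le_rpow_of_exponent_le hT1 ?_
              push_cast; linarith
      calc M T ≤ T ^ (9 / 8 + (n:ℝ) / 4) + C' * 3 ^ (9 / 8 + ((n + 1 : ℕ):ℝ) / 4) *
          T ^ (9 / 8 + (n:ℝ) / 4) := by linarith
        _ = _ := by ring
  have start : ∃ C' S : ℝ, 0 ≤ C' ∧ ∀ T, S ≤ T → M T ≤ C' * T ^ (9 / 8 + ((4 * q : ℕ):ℝ) / 4) := by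
    refine ⟨C * 2 ^ q, 1, by positivity, fun T hT => ?_⟩
    have hTp : 0 < T := by linarith
    calc M T ≤ C * (1 + T) ^ q := hq T (by linarith)
      _ ≤ C * (2 * T) ^ q := by gcongr; linarith
      _ = C * 2 ^ q * T ^ (q:ℝ) := by rw [mul_pow, Real.rpow_natCast]; ring
      _ ≤ _ := by
          refine mul_le_mul_of_nonneg_left ?_ (by positivity)
          refine Real.rpow_le_rpow_of_exponent_le hT ?_
          push_cast; linarith
  obtain ⟨C', S, hC', hS⟩ := key (4 * q) start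
  have ev : ∀ᶠ T : ℝ in atTop, C' * 3 ^ (9 / 8 : ℝ) ≤ T ^ (3 / 8 : ℝ) :=
    (tendsto_rpow_atTop (by norm_num)).eventually_ge_atTop _
  obtain ⟨S2, hS2⟩ := ev.exists_forall_of_atTop
  refine ⟨max (max S S2) (max T0 1), (le_max_left _ _).trans (le_max_right _ _),
    (le_max_right _ _).trans (le_max_right _ _), fun T hT => ?_⟩
  have hTS : S ≤ T := ((le_max_left _ _).trans (le_max_left _ _)).trans hT
  have hTS2 : S2 ≤ T := ((le_max_right _ _).trans (le_max_left _ _)).trans hT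
  have hTT0 : T0 ≤ T := ((le_max_left _ _).trans (le_max_right _ _)).trans hT
  have hT1 : 1 ≤ T := ((le_max_right _ _).trans (le_max_right _ _)).trans hT
  have hTp : 0 < T := by linarith
  have a1 := h1 T hTT0
  have a2 := h2 T hTT0
  have a3 := hS (3 * T) (by linarith)
  have a4 := hS2 T hTS2
  have a5 : T ^ (-(1 / 2 : ℝ)) * M (3 * T) ≤ T := by
    calc T ^ (-(1 / 2 : ℝ)) * M (3 * T) ≤ T ^ (-(1 / 2 : ℝ)) * (C' * (3 * T) ^ (9 / 8 : ℝ)) := by gcongr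
      _ = (C' * 3 ^ (9 / 8 : ℝ)) * (T ^ (-(1 / 2 : ℝ)) * T ^ (9 / 8 : ℝ)) := by
          rw [Real.mul_rpow (by norm_num) hTp.le]; ring
      _ ≤ T ^ (3 / 8 : ℝ) * (T ^ (-(1 / 2 : ℝ)) * T ^ (9 / 8 : ℝ)) := by gcongr
      _ = T := by
          rw [← Real.rpow_add hTp, ← Real.rpow_add hTp]; norm_num
  linarith

end

end Pool.Agent.U575.OL
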