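import Pool.Agent.U575.OL.Cmp

set_option autoImplicit false

/-! The local moment off the line is bounded by the local moment on the line. -/

namespace Pool.Agent.U575.OL

open Complex MeasureTheory Filter Topology Set Pool.Agent.TH535.SM
open scoped FourierTransform ComplexConjugate

noncomputable section

/-- analytic with quadratic decay in the strip `1/2 + a ≤ Re s ≤ 1/2 + b` -/
structure SD (f : ℂ → ℂ) (a b : ℝ) : Prop where
  diff : ∀ s : ℂ, 1 / 2 + a ≤ s.re → s.re ≤ 1 / 2 + b → DifferentiableAt ℂ f s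
  bd : ∃ B : ℝ, 0 ≤ B ∧ ∀ s : ℂ, 1 / 2 + a ≤ s.re → s.re ≤ 1 / 2 + b →
    ‖f s‖ ≤ B * ((1 + |s.im|) ^ 2)⁻¹

lemma SD.dec {f : ℂ → ℂ} {a b : ℝ} (h : SD f a b) {r : ℝ} (h1 : a ≤ r) (h2 : r ≤ b) :
    Dec (fun t => f (pt r t)) := by
  refine ⟨?_, ?_⟩
  · rw [continuous_iff_continuousAt]
    intro t
    exact ContinuousAt.comp (f := fun t : ℝ => pt r t)
      (h.diff _ (by rw [pt_re]; linarith) (by rw [pt_re]; linarith)).continuousAt
      (pt_cont r).continuousAt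
  · obtain ⟨B, hB, hb⟩ := h.bd
    refine ⟨B, hB, fun t => ?_⟩
    have := hb (pt r t) (by rw [pt_re]; linarith) (by rw [pt_re]; linarith)
    rwa [pt_im] at this

lemma SD.shift {f : ℂ → ℂ} {a b : ℝ} (h : SD f a b) {r1 r2 : ℝ} (h1 : a ≤ r1) (h12 : r1 ≤ r2)
    (h2 : r2 ≤ b) (w : ℝ) :
    cexp (-(2 * Real.pi * w * r1 : ℝ)) * 𝓕 (fun t => f (pt r1 t)) w =
      cexp (-(2 * Real.pi * w * r2 : ℝ)) * 𝓕 (fun t => f (pt r2 t)) w := by
  obtain ⟨B, hB, hb⟩ := h.bd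
  set g : ℂ → ℂ := fun s => cexp (-(2 * Real.pi * w * (s - 1 / 2))) * f s with hg
  have hline : ∀ r : ℝ, ∫ y : ℝ, g (((1 / 2 + r : ℝ) : ℂ) + y * I) =
      cexp (-(2 * Real.pi * w * r : ℝ)) * 𝓕 (fun t => f (pt r t)) w := by
    intro r
    rw [ft_eq, ← integral_const_mul]
    refine integral_congr_ae (Eventually.of_forall fun y => ?_)
    simp only [hg]
    have e : cexp (-(2 * Real.pi * w * ((((1 / 2 + r : ℝ) : ℂ) + y * I) - 1 / 2))) =
        cexp (-(2 * Real.pi * w * r : ℝ)) * cexp (-(2 * Real.pi * w * y * I)) := by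
      rw [← Complex.exp_add]
      congr 1
      push_cast
      ring
    rw [e]
    unfold pt
    ring
  rw [← hline, ← hline]
  set M : ℝ := |a| + |b| with hM
  refine W182.KO.strip_shift (B := Real.exp (2 * Real.pi * |w| * M) * B) (by linarith)
    (by positivity) ?_ ?_
  · intro s a' b'
    exact DifferentiableAt.mul (by fun_prop) (h.diff s (by linarith) (by linarith))
  · intro s a' b'
    have h3 := hb s (by linarith) (by linarith)
    rw [hg]
    simp only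
    have h7 : ‖cexp (-(2 * (Real.pi:ℂ) * w * (s - 1 / 2)))‖ ≤ Real.exp (2 * Real.pi * |w| * M) := by
      rw [Complex.norm_exp]
      refine Real.exp_le_exp.2 ?_
      have e1 : (-(2 * (Real.pi:ℂ) * w * (s - 1 / 2))).re = -(2 * Real.pi * w * (s.re - 1 / 2)) := by
        have : (-(2 * (Real.pi:ℂ) * w * (s - 1 / 2))) = ((-(2 * Real.pi * w) : ℝ) : ℂ) * (s - 1 / 2) := by
          push_cast; ring
        rw [this, Complex.re_ofReal_mul]
        simp
      rw [e1]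
      have h4 : |s.re - 1 / 2| ≤ M := by
        rw [abs_le, hM]
        have := neg_abs_le a
        have := le_abs_self b
        have := abs_nonneg a
        have := abs_nonneg b
        constructor <;> linarith
      have h5 : |w * (s.re - 1 / 2)| ≤ |w| * M := by
        rw [abs_mul]; gcongr
      have h6 := neg_abs_le (w * (s.re - 1 / 2))
      have hp := Real.pi_pos
      nlinarith [mul_le_mul_of_nonneg_left h5 hp.le, mul_le_mul_of_nonneg_left h6 hp.le]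
    calc ‖cexp (-(2 * (Real.pi:ℂ) * w * (s - 1 / 2))) * f s‖ =
          ‖cexp (-(2 * (Real.pi:ℂ) * w * (s - 1 / 2)))‖ * ‖f s‖ := norm_mul _ _
      _ ≤ Real.exp (2 * Real.pi * |w| * M) * (B * ((1 + |s.im|) ^ 2)⁻¹) :=
          mul_le_mul h7 h3 (norm_nonneg _) (Real.exp_pos _).le
      _ = _ := by rw [div_eq_mul_inv]; ring

/-- the spectral density off the line -/
lemma SD.ft {f : ℂ → ℂ} {a b : ℝ} (h : SD f a b) (ha : a ≤ 0) {r : ℝ} (h1 : 0 ≤ r) (h2 : r ≤ b) (w : ℝ) :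
    ‖𝓕 (fun t => f (pt r t)) w‖ ^ 2 = Real.exp (4 * Real.pi * w * r) * ‖𝓕 (fun t => f (pt 0 t)) w‖ ^ 2 := by
  have h3 := h.shift ha h1 h2 w
  rw [mul_zero, ofReal_zero, neg_zero, Complex.exp_zero, one_mul] at h3
  rw [h3, norm_mul, mul_pow, Complex.norm_exp, ← Real.exp_nat_mul, ← mul_assoc, ← Real.exp_add]
  have : 4 * Real.pi * w * r + ((2:ℕ):ℝ) * (-((2 * Real.pi * w * r : ℝ) : ℂ)).re = 0 := by
    rw [← Complex.ofReal_neg, Complex.ofReal_re]
    push_cast; ring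
  rw [this, Real.exp_zero, one_mul]

/-- three lines, in mean square -/
lemma SD.sq_le {f : ℂ → ℂ} {a b : ℝ} (h : SD f a b) (ha : a ≤ 0) {r : ℝ} (h1 : 0 ≤ r) (h2 : r ≤ b) :
    ∫ t, ‖f (pt r t)‖ ^ 2 ≤ (∫ t, ‖f (pt 0 t)‖ ^ 2) + ∫ t, ‖f (pt b t)‖ ^ 2 := by
  have hb : 0 ≤ b := h1.trans h2
  have d0 := h.dec (r := 0) ha hb
  have dr := h.dec (r := r) (by linarith) h2
  have db := h.dec (r := b) (by linarith) le_rfl
  rw [← (planch d0).2, ← (planch dr).2, ← (planch db).2, ← integral_add (planch d0).1 (planch db).1]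
  refine integral_mono (planch dr).1 ((planch d0).1.add (planch db).1) fun w => ?_
  simp only
  rw [h.ft ha h1 h2 w, h.ft ha hb le_rfl w]
  have h3 : Real.exp (4 * Real.pi * w * r) ≤ 1 + Real.exp (4 * Real.pi * w * b) := by
    have hp := Real.pi_pos
    rcases le_total w 0 with hw | hw
    · have : Real.exp (4 * Real.pi * w * r) ≤ 1 := Real.exp_le_one_iff.2
        (mul_nonpos_of_nonpos_of_nonneg (mul_nonpos_of_nonneg_of_nonpos (by positivity) hw) h1)
      linarith [Real.exp_pos (4 * Real.pi * w * b)]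
    · have : Real.exp (4 * Real.pi * w * r) ≤ Real.exp (4 * Real.pi * w * b) :=
        Real.exp_le_exp.2 (by gcongr)
      linarith
  have h4 : 0 ≤ ‖𝓕 (fun t => f (pt 0 t)) w‖ ^ 2 := by positivity
  nlinarith

/-- the Gaussian weight at height `T` -/
def WG (T : ℝ) (s : ℂ) : ℂ := cexp ((s - 1 / 2 - T * I) ^ 2 / 8)

lemma WG_norm (T r t : ℝ) : ‖WG T (pt r t)‖ ^ 2 = Real.exp (r ^ 2 / 4) * Real.exp (-(t - T) ^ 2 / 4) := by
  unfold WG
  rw [Complex.norm_exp, ← Real.exp_nat_mul, ← Real.exp_add]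
  congr 1
  have : (pt r t - 1 / 2 - T * I) ^ 2 / 8 = (((r ^ 2 - (t - T) ^ 2) / 8 : ℝ) : ℂ) + ((r * (t - T) / 4 : ℝ) : ℂ) * I := by
    unfold pt
    push_cast
    have h : ((1 / 2 + (r : ℂ)) + t * I - 1 / 2 - T * I) ^ 2 = r ^ 2 + 2 * r * (t - T) * I + (t - T) ^ 2 * I ^ 2 := by
      ring
    rw [h, I_sq]
    ring
  rw [this]
  simp only [add_re, ofReal_re, mul_re, I_re, mul_zero, ofReal_im, I_im, mul_one, sub_self, add_zero]
  push_cast
  ring

lemma poly_g (p : ℕ) {d : ℝ} (hd : 0 ≤ d) : (1 + d) ^ p * Real.exp (-d ^ 2 / 8) ≤ p.factorial * Real.exp 3 := by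
  have h1 := Real.pow_div_factorial_le_exp (1 + d) (by linarith) p
  have hf : (0:ℝ) < p.factorial := by exact_mod_cast Nat.factorial_pos p
  rw [div_le_iff₀ hf] at h1
  calc (1 + d) ^ p * Real.exp (-d ^ 2 / 8) ≤ (Real.exp (1 + d) * p.factorial) * Real.exp (-d ^ 2 / 8) := by
        gcongr
    _ = p.factorial * Real.exp (1 + d + -d ^ 2 / 8) := by rw [Real.exp_add (1 + d)]; ring
    _ ≤ _ := by
        refine mul_le_mul_of_nonneg_left (Real.exp_le_exp.2 ?_) hf.le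
        nlinarith [sq_nonneg (d - 4)]

lemma WG_SD (k : ℕ) (T : ℝ) : SD (fun s => WG T s * H k 1 s) (-1) 1 := by
  obtain ⟨C, M, hC, hb⟩ := H_strip k (u := 1) le_rfl
  refine ⟨fun s h1 h2 => ?_, ?_⟩
  · refine DifferentiableAt.mul ?_ (H_diff k (by push_cast; linarith))
    unfold WG
    fun_prop
  · refine ⟨Real.exp (1 / 8) * (C * (((M + 2).factorial * Real.exp 3) * (1 + |T|) ^ (M + 2))), by positivity,
      fun s h1 h2 => ?_⟩
    have hs : s = pt (s.re - 1 / 2) s.im := by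
      apply Complex.ext
      · rw [pt_re]; ring
      · rw [pt_im]
    have hH := hb s (by push_cast; linarith) (by push_cast; linarith)
    have hW := WG_norm T (s.re - 1 / 2) s.im
    rw [← hs] at hW
    have habs := abs_nonneg s.im
    set d : ℝ := |s.im - T| with hd
    have hd0 : 0 ≤ d := abs_nonneg _
    have hW2 : ‖WG T s‖ ≤ Real.exp (1 / 8) * Real.exp (-d ^ 2 / 8) := by
      have h3 : ‖WG T s‖ ^ 2 ≤ (Real.exp (1 / 8) * Real.exp (-d ^ 2 / 8)) ^ 2 := by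
        rw [hW, mul_pow, ← Real.exp_nat_mul, ← Real.exp_nat_mul, hd, sq_abs]
        refine mul_le_mul (Real.exp_le_exp.2 ?_) (Real.exp_le_exp.2 ?_) (by positivity) (by positivity)
        · push_cast
          have : (s.re - 1 / 2) ^ 2 ≤ 1 := by nlinarith
          linarith
        · push_cast
          linarith
      exact (sq_le_sq₀ (norm_nonneg _) (by positivity)).1 h3
    have h4 : 1 + |s.im| ≤ (1 + d) * (1 + |T|) := by
      have h1 := one_add_abs_le s.im (-T)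
      rw [abs_neg] at h1
      rwa [← sub_eq_add_neg] at h1
    have h5 := poly_g (M + 2) hd0
    have hpos : 0 < (1 + |s.im|) ^ 2 := by positivity
    rw [norm_mul, ← div_eq_mul_inv, le_div_iff₀ hpos]
    calc ‖WG T s‖ * ‖H k 1 s‖ * (1 + |s.im|) ^ 2 ≤
          (Real.exp (1 / 8) * Real.exp (-d ^ 2 / 8)) * (C * (1 + |s.im|) ^ M) * (1 + |s.im|) ^ 2 := by gcongr
      _ = Real.exp (1 / 8) * (C * (Real.exp (-d ^ 2 / 8) * (1 + |s.im|) ^ (M + 2))) := by ring
      _ ≤ Real.exp (1 / 8) * (C * (Real.exp (-d ^ 2 / 8) * ((1 + d) * (1 + |T|)) ^ (M + 2))) := by gcongr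
      _ = Real.exp (1 / 8) * (C * (((1 + d) ^ (M + 2) * Real.exp (-d ^ 2 / 8)) * (1 + |T|) ^ (M + 2))) := by
          rw [mul_pow]; ring
      _ ≤ _ := by gcongr

lemma qq_lower (k : ℕ) {r : ℝ} (h0 : 0 ≤ r) (h1 : r ≤ 1 / 4) (t : ℝ) :
    (1 / 17 : ℝ) ^ k ≤ ‖qq k 1 (pt r t)‖ := by
  have hd1 := den_norm (u := 1) (s := pt r t) (by rw [pt_re]; push_cast; linarith)
  have h4 : 1 / 4 ≤ ‖pt r t - 1‖ := by
    have := Complex.abs_re_le_norm (pt r t - 1)
    rw [sub_re, pt_re, one_re, abs_of_nonpos (by linarith)] at this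
    linarith
  have h5 : ‖pt r t + (2 * 1 + 1 : ℕ)‖ ≤ ‖pt r t - 1‖ + 4 := by
    have e : pt r t + (2 * 1 + 1 : ℕ) = (pt r t - 1) + 4 := by push_cast; ring
    rw [e]
    refine (norm_add_le _ _).trans ?_
    norm_num
  have h6 : 1 / 17 ≤ ‖(pt r t - 1) / (pt r t + (2 * 1 + 1 : ℕ))‖ := by
    rw [norm_div, div_le_div_iff₀ (by norm_num) (by linarith)]
    nlinarith
  unfold qq
  rw [norm_pow]
  exact pow_le_pow_left₀ (by norm_num) h6 k

/-- the local moment at distance `r` is bounded by the one on the line -/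
theorem Br_le (k : ℕ) : ∃ C : ℝ, 1 ≤ C ∧ ∀ T r : ℝ, 0 ≤ r → r ≤ 1 / 4 → Br k r T ≤ C * (1 + Br k 0 T) := by
  obtain ⟨C1, hC1, h1⟩ := H_right k (u := 1) le_rfl
  set g4 : ℝ := ∫ t : ℝ, Real.exp (-t ^ 2 / 4) with hg4
  have hg0 : 0 ≤ g4 := integral_nonneg fun t => (Real.exp_pos _).le
  set K : ℝ := 289 ^ k * (1 + Real.exp (1 / 4) * C1 ^ 2 * g4) with hK
  refine ⟨K, ?_, fun T r h0 h2 => ?_⟩
  · have a1 : (1:ℝ) ≤ 289 ^ k := one_le_pow₀ (by norm_num)
    have a2 : 0 ≤ Real.exp (1 / 4) * C1 ^ 2 * g4 := by positivity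
    rw [hK]; nlinarith
  have hsd := WG_SD k T
  have hsq := hsd.sq_le (by norm_num) h0 (r := r) (by linarith)
  have hdr := hsd.dec (r := r) (by linarith) (by linarith)
  have hd0 := hsd.dec (r := 0) (by linarith) (by linarith)
  have hd1 := hsd.dec (r := 1) (by linarith) (by linarith)
  -- left side
  have hl : Br k r T ≤ 289 ^ k * ∫ t, ‖WG T (pt r t) * H k 1 (pt r t)‖ ^ 2 := by
    unfold Br
    rw [← integral_const_mul]
    refine integral_mono (Br_int k h0 h2 T) (hdr.sq.const_mul _) fun t => ?_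
    simp only
    rw [H_qq (pt_ne h2 t), norm_mul, norm_mul, mul_pow, WG_norm, mul_pow, ← norm_pow _ 2, ← norm_pow _ 2]
    have h3 := qq_lower k h0 h2 t
    have h4 : 1 ≤ 289 ^ k * ‖qq k 1 (pt r t)‖ ^ 2 := by
      have h5 : ((1 / 17 : ℝ) ^ k) ^ 2 ≤ ‖qq k 1 (pt r t)‖ ^ 2 := by gcongr
      have h6 : (289 : ℝ) ^ k * ((1 / 17 : ℝ) ^ k) ^ 2 = 1 := by
        rw [← pow_mul, mul_comm k 2, pow_mul, ← mul_pow]
        norm_num
      calc (1:ℝ) = 289 ^ k * ((1 / 17 : ℝ) ^ k) ^ 2 := h6.symm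
        _ ≤ _ := by gcongr
    have h5 : 1 ≤ Real.exp (r ^ 2 / 4) := Real.one_le_exp (by positivity)
    have hZ : ‖riemannZeta (pt r t) ^ k‖ ^ 2 = Z k r t := Z_eq k r t
    rw [norm_pow, norm_pow] 
    have e : 289 ^ k * (Real.exp (r ^ 2 / 4) * Real.exp (-(t - T) ^ 2 / 4) *
        (‖qq k 1 (pt r t)‖ ^ 2 * ‖riemannZeta (pt r t) ^ k‖ ^ 2)) =
        (Real.exp (r ^ 2 / 4) * (289 ^ k * ‖qq k 1 (pt r t)‖ ^ 2)) *
          (Real.exp (-(t - T) ^ 2 / 4) * Z k r t) := by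
      rw [hZ]; ring
    rw [e]
    have h7 : 0 ≤ Real.exp (-(t - T) ^ 2 / 4) * Z k r t := mul_nonneg (Real.exp_pos _).le (Z_nonneg k r t)
    have h8 : 1 ≤ Real.exp (r ^ 2 / 4) * (289 ^ k * ‖qq k 1 (pt r t)‖ ^ 2) :=
      one_le_mul_of_one_le_of_one_le h5 h4
    nlinarith
  have hr0 : ∫ t, ‖WG T (pt 0 t) * H k 1 (pt 0 t)‖ ^ 2 ≤ Br k 0 T := by
    unfold Br
    refine integral_mono hd0.sq (Br_int k le_rfl (by norm_num) T) fun t => ?_
    simp only
    have hq : ‖qq k 1 (pt 0 t)‖ ≤ 1 := qq_norm (by rw [pt_re]; push_cast; norm_num)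
    rw [H_qq (pt_ne (by norm_num) t), norm_mul, norm_mul, mul_pow, WG_norm, mul_pow]
    have hZ : ‖riemannZeta (pt 0 t) ^ k‖ ^ 2 = Z k 0 t := Z_eq k 0 t
    rw [hZ]
    have e0 : Real.exp ((0:ℝ) ^ 2 / 4) = 1 := by norm_num
    rw [e0, one_mul]
    have hq2 : ‖qq k 1 (pt 0 t)‖ ^ 2 ≤ 1 := pow_le_one₀ (norm_nonneg _) hq
    have hz := Z_nonneg k 0 t
    refine mul_le_mul_of_nonneg_left ?_ (Real.exp_pos _).le
    nlinarith
  have hr1 : ∫ t, ‖WG T (pt 1 t) * H k 1 (pt 1 t)‖ ^ 2 ≤ Real.exp (1 / 4) * C1 ^ 2 * g4 := by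
    have e : g4 = ∫ t : ℝ, Real.exp (-(t - T) ^ 2 / 4) := by
      rw [hg4]
      exact (integral_sub_right_eq_self (fun t : ℝ => Real.exp (-t ^ 2 / 4)) (μ := volume) T).symm
    have gi : Integrable (fun t : ℝ => Real.exp (-(t - T) ^ 2 / 4)) := by
      have := gp_int 0 T
      simpa using this
    rw [e, ← integral_const_mul]
    refine integral_mono hd1.sq (gi.const_mul _) fun t => ?_
    simp only
    rw [norm_mul, mul_pow, WG_norm]
    have h3 := h1 t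
    have h4 : ‖H k 1 (pt 1 t)‖ ≤ C1 := by
      unfold pt
      push_cast at h3 ⊢
      exact h3
    have e0 : Real.exp ((1:ℝ) ^ 2 / 4) = Real.exp (1 / 4) := by norm_num
    rw [e0]
    calc Real.exp (1 / 4) * Real.exp (-(t - T) ^ 2 / 4) * ‖H k 1 (pt 1 t)‖ ^ 2 ≤
          Real.exp (1 / 4) * Real.exp (-(t - T) ^ 2 / 4) * C1 ^ 2 := by gcongr
      _ = _ := by ring
  have hB := Br_nonneg k 0 T
  calc Br k r T ≤ 289 ^ k * ∫ t, ‖WG T (pt r t) * H k 1 (pt r t)‖ ^ 2 := hl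
    _ ≤ 289 ^ k * (Br k 0 T + Real.exp (1 / 4) * C1 ^ 2 * g4) := by
        gcongr
        exact hsq.trans (add_le_add hr0 hr1)
    _ ≤ K * (1 + Br k 0 T) := by
        have a2 : 0 ≤ Real.exp (1 / 4) * C1 ^ 2 * g4 := by positivity
        have a3 : Br k 0 T + Real.exp (1 / 4) * C1 ^ 2 * g4 ≤
            (1 + Real.exp (1 / 4) * C1 ^ 2 * g4) * (1 + Br k 0 T) := by
          nlinarith [mul_nonneg a2 hB]
        calc (289:ℝ) ^ k * (Br k 0 T + Real.exp (1 / 4) * C1 ^ 2 * g4) ≤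
              289 ^ k * ((1 + Real.exp (1 / 4) * C1 ^ 2 * g4) * (1 + Br k 0 T)) := by gcongr
          _ = K * (1 + Br k 0 T) := by rw [hK]; ring

end

end Pool.Agent.U575.OL
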