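import Pool.Agent.U575.OL.Spec

set_option autoImplicit false

/-! Dirichlet polynomials off the line. -/

namespace Pool.Agent.U575.OL

open Complex MeasureTheory Filter Topology Set Pool.Agent.TH535.SM
open scoped FourierTransform ComplexConjugate

noncomputable section

/-- the diagonal sum at distance `r` -/
def SR (k N : ℕ) (r : ℝ) : ℝ := ∑ n ∈ Finset.Icc 1 N, dr k n ^ 2 * (n : ℝ) ^ (-(2 * (1 / 2 + r)))

lemma SR_nonneg (k N : ℕ) (r : ℝ) : 0 ≤ SR k N r := Finset.sum_nonneg fun n _ => by positivity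

lemma DN_sup_off (k N : ℕ) {r : ℝ} (hr : 0 ≤ r) (t : ℝ) : ‖DN k N (pt r t)‖ ^ 2 ≤ N * SN k N := by
  have h1 : ‖DN k N (pt r t)‖ ≤ ∑ n ∈ Finset.Icc 1 N, dr k n * (n : ℝ) ^ (-(1 / 2 : ℝ)) := by
    unfold DN W184.DS
    refine (norm_sum_le _ _).trans (Finset.sum_le_sum fun n hn => ?_)
    rw [Finset.mem_Icc] at hn
    have hn0 : (0:ℝ) < n := by exact_mod_cast hn.1
    have hn1 : (1:ℝ) ≤ n := by exact_mod_cast hn.1
    rw [norm_mul, Complex.norm_real, Real.norm_of_nonneg (dr_nonneg k n)]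
    have e : (n : ℂ) = ((n : ℝ) : ℂ) := by push_cast; rfl
    rw [e, Complex.norm_cpow_eq_rpow_re_of_pos hn0, neg_re, pt_re]
    refine mul_le_mul_of_nonneg_left ?_ (dr_nonneg k n)
    exact Real.rpow_le_rpow_of_exponent_le hn1 (by linarith)
  have h2 := sq_sum_le_card_mul_sum_sq (s := Finset.Icc 1 N)
    (f := fun n => dr k n * (n : ℝ) ^ (-(1 / 2 : ℝ)))
  rw [Nat.card_Icc, Nat.add_sub_cancel] at h2
  calc ‖DN k N (pt r t)‖ ^ 2 ≤
        (∑ n ∈ Finset.Icc 1 N, dr k n * (n : ℝ) ^ (-(1 / 2 : ℝ))) ^ 2 := by gcongr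
    _ ≤ N * ∑ n ∈ Finset.Icc 1 N, (dr k n * (n : ℝ) ^ (-(1 / 2 : ℝ))) ^ 2 := h2
    _ = N * SN k N := by
        unfold SN
        congr 1
        refine Finset.sum_congr rfl fun n hn => ?_
        rw [Finset.mem_Icc] at hn
        have hn0 : (0:ℝ) < n := by exact_mod_cast hn.1
        rw [mul_pow, ← Real.rpow_natCast ((n:ℝ) ^ (-(1 / 2 : ℝ))), ← Real.rpow_mul hn0.le]
        have : -(1 / 2 : ℝ) * ((2:ℕ):ℝ) = -1 := by push_cast; norm_num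
        rw [this, Real.rpow_neg_one]
        field_simp

/-- two-sided mean value theorem off the line -/
lemma mv_off (k : ℕ) {κ : ℝ} (hκ : 0 < κ) : ∃ D : ℝ, 1 ≤ D ∧ ∀ (N : ℕ), 1 ≤ N → ∀ T r : ℝ, 0 ≤ r →
    |(∫ t in (0:ℝ)..T, ‖DN k N (pt r t)‖ ^ 2) - T * SR k N r| ≤
      D * (N : ℝ) ^ (1 + 2 * κ) * (1 + Real.log N) := by
  obtain ⟨D, hD, hd⟩ := dr_le k hκ
  refine ⟨6 * D ^ 2, by nlinarith, fun N hN T r hr => ?_⟩
  have hN1 : (1:ℝ) ≤ N := by exact_mod_cast hN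
  have hN0 : (0:ℝ) < N := by linarith
  set c : ℝ := D * (N : ℝ) ^ κ with hc
  have hc0 : 0 < c := by positivity
  set g : ℕ → ℝ := fun n => if n ≤ N then dr k n / c else 0 with hg
  have hg0 : ∀ n, 0 ≤ g n := by
    intro n
    simp only [hg]
    split_ifs
    · exact div_nonneg (dr_nonneg k n) hc0.le
    · exact le_rfl
  have hg1 : ∀ n, g n ≤ 1 := by
    intro n
    simp only [hg]
    split_ifs with h
    · rw [div_le_one hc0]
      refine (hd n).trans ?_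
      rw [hc]
      have : (n:ℝ) ≤ N := by exact_mod_cast h
      gcongr
    · exact zero_le_one
  have h := W184.mv_DS hg0 hg1 (σ := 1 / 2 + r) (by linarith) N 0 T
  have e1 : ∀ t : ℝ, ‖DN k N (pt r t)‖ ^ 2 =
      c ^ 2 * ‖W184.DS g N (((1 / 2 + r : ℝ) : ℂ) + t * I)‖ ^ 2 := by
    intro t
    have : DN k N (pt r t) = (c : ℂ) * W184.DS g N (((1 / 2 + r : ℝ) : ℂ) + t * I) := by
      unfold DN W184.DS pt
      rw [Finset.mul_sum]
      refine Finset.sum_congr rfl fun n hn => ?_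
      rw [Finset.mem_Icc] at hn
      simp only [hg]
      rw [if_pos hn.2, ← mul_assoc]
      congr 1
      rw [← ofReal_mul]
      congr 1
      field_simp
    rw [this, norm_mul, mul_pow, Complex.norm_real, Real.norm_of_nonneg hc0.le]
  have e2 : c ^ 2 * ∑ n ∈ Finset.Icc 1 N, g n ^ 2 * (n : ℝ) ^ (-(2 * (1 / 2 + r))) = SR k N r := by
    unfold SR
    rw [Finset.mul_sum]
    refine Finset.sum_congr rfl fun n hn => ?_
    rw [Finset.mem_Icc] at hn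
    simp only [hg]
    rw [if_pos hn.2]
    field_simp
  simp_rw [e1]
  rw [intervalIntegral.integral_const_mul, ← e2]
  have e3 : 6 * D ^ 2 * (N : ℝ) ^ (1 + 2 * κ) * (1 + Real.log N) = c ^ 2 * (6 * N * (1 + Real.log N)) := by
    rw [hc, mul_pow, ← Real.rpow_natCast ((N:ℝ) ^ κ), ← Real.rpow_mul hN0.le, Real.rpow_add hN0,
      Real.rpow_one]
    have : κ * ((2:ℕ):ℝ) = 2 * κ := by push_cast; ring
    rw [this]; ring
  rw [e3]
  have e4 : c ^ 2 * (∫ t in (0:ℝ)..T, ‖W184.DS g N (((1 / 2 + r : ℝ) : ℂ) + t * I)‖ ^ 2) -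
      T * (c ^ 2 * ∑ n ∈ Finset.Icc 1 N, g n ^ 2 * (n : ℝ) ^ (-(2 * (1 / 2 + r)))) =
      c ^ 2 * ((∫ t in (0:ℝ)..T, ‖W184.DS g N (((1 / 2 + r : ℝ) : ℂ) + t * I)‖ ^ 2) -
        (T - 0) * ∑ n ∈ Finset.Icc 1 N, g n ^ 2 * (n : ℝ) ^ (-(2 * (1 / 2 + r)))) := by ring
  rw [e4, abs_mul, abs_of_nonneg (sq_nonneg c)]
  exact mul_le_mul_of_nonneg_left h (sq_nonneg c)

lemma Wq_int (T : ℝ) : Integrable (fun t => Wq T t) := by
  have h := ((g_int4.add (g_int4.comp_sub_right T)).add (ind_bd (T := T) inv_cont))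
  refine h.congr (Eventually.of_forall fun t => ?_)
  simp only [Pi.add_apply]
  unfold Wq
  ring

lemma Wq_val : ∃ c : ℝ, 0 ≤ c ∧ ∀ T : ℝ, 0 ≤ T → ∫ t, Wq T t ≤ c := by
  refine ⟨(∫ t : ℝ, Real.exp (-t ^ 2 / 4)) + (∫ t : ℝ, Real.exp (-t ^ 2 / 4)) + ∫ t : ℝ, ((1 + |t|) ^ 2)⁻¹,
    ?_, fun T hT => ?_⟩
  · have h1 : 0 ≤ ∫ t : ℝ, Real.exp (-t ^ 2 / 4) := integral_nonneg fun t => (Real.exp_pos _).le
    have h2 : 0 ≤ ∫ t : ℝ, ((1 + |t|) ^ 2)⁻¹ := integral_nonneg fun t => by positivity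
    linarith
  have e : ∫ t, Wq T t = (∫ t : ℝ, Real.exp (-t ^ 2 / 4)) + (∫ t : ℝ, Real.exp (-(t - T) ^ 2 / 4)) +
      ∫ t, ind T t * ((1 + |t|) ^ 2)⁻¹ := by
    rw [← integral_add g_int4 (g_int4.comp_sub_right T), ← integral_add
      (iadd g_int4 (g_int4.comp_sub_right T)) (ind_bd (T := T) inv_cont)]
    rfl
  rw [e, integral_sub_right_eq_self (fun t : ℝ => Real.exp (-t ^ 2 / 4)) (μ := volume) T]
  gcongr
  · exact ind_bd (T := T) inv_cont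
  · exact inv_sq_int
  · intro t
    have h1 := ind_le T t
    have h2 : 0 ≤ ((1 + |t|) ^ 2)⁻¹ := by positivity
    simp only
    nlinarith

lemma DNpt_cont (k N : ℕ) (r : ℝ) : Continuous (fun t : ℝ => DN k N (pt r t)) := by
  exact (DN_diff k N).continuous.comp (pt_cont r)

/-- smooth and sharp mean squares of the Dirichlet polynomial -/
lemma poly_cmp0 (k : ℕ) {κ : ℝ} (hκ : 0 < κ) (u : ℕ) {ε : ℝ} (hε : 0 < ε) : ∃ C : ℝ, 1 ≤ C ∧ ∀ (N : ℕ), 1 ≤ N →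
    ∀ T : ℝ, 1 ≤ T → ∀ r : ℝ, 0 ≤ r → r ≤ 1 → (r : ℝ) ≤ u →
    ∫ t, ‖Fn (gR k u N) T r t‖ ^ 2 ≤ (1 + ε) * (T * SR k N r) +
      C * (N * SN k N + (N : ℝ) ^ (1 + 2 * κ) * (1 + Real.log N)) ∧
    T * SR k N r ≤ (1 + ε) * (∫ t, ‖Fn (gR k u N) T r t‖ ^ 2) +
      C * (N * SN k N + (N : ℝ) ^ (1 + 2 * κ) * (1 + Real.log N)) := by
  obtain ⟨D, hD, hmv⟩ := mv_off k hκ
  obtain ⟨C0, hC0, hc⟩ := cmp k u
  obtain ⟨c, hc0, hw⟩ := Wq_val
  refine ⟨(1 + ε) * D + (1 + ε⁻¹) * C0 * c + 1, ?_, fun N hN T hT r h0 h1 hru => ?_⟩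
  · have : 0 ≤ (1 + ε) * D + (1 + ε⁻¹) * C0 * c := by positivity
    linarith
  have hT0 : 0 ≤ T := by linarith
  have hN1 : (1:ℝ) ≤ N := by exact_mod_cast hN
  have hlN := Real.log_nonneg hN1
  have hSN := SN_nonneg k N
  set A : ℝ := N * SN k N with hA
  set B : ℝ := (N : ℝ) ^ (1 + 2 * κ) * (1 + Real.log N) with hB
  have hA0 : 0 ≤ A := by positivity
  have hB0 : 0 ≤ B := by positivity
  have hdec := FS_dec (gR_ps k u N) hT h0 hru
  have hWi : Integrable (fun t => Wq T t * ‖DN k N (pt r t)‖ ^ 2) := by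
    refine ((Wq_int T).mul_const A).mono' ?_ (Eventually.of_forall fun t => ?_)
    · exact (Wq_int T).aestronglyMeasurable.mul ((DNpt_cont k N r).norm.pow 2).aestronglyMeasurable
    · rw [Real.norm_of_nonneg (mul_nonneg (Wq_nonneg T t) (by positivity))]
      exact mul_le_mul_of_nonneg_left (DN_sup_off k N h0 t) (Wq_nonneg T t)
  have hWv : ∫ t, Wq T t * ‖DN k N (pt r t)‖ ^ 2 ≤ c * A := by
    calc _ ≤ ∫ t, Wq T t * A := integral_mono hWi ((Wq_int T).mul_const A) fun t =>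
          mul_le_mul_of_nonneg_left (DN_sup_off k N h0 t) (Wq_nonneg T t)
      _ = (∫ t, Wq T t) * A := integral_mul_const _ _
      _ ≤ c * A := by
          have := hw T hT0
          gcongr
  have hFeq : ∀ t, Fn (gR k u N) T r t = V T (pt r t) * (qq k u (pt r t) * DN k N (pt r t)) := fun t => rfl
  obtain ⟨a1, a2⟩ := hc T hT r h0 h1 (fun t => DN k N (pt r t)) (DNpt_cont k N r)
    (by simpa only [hFeq] using hdec.sq) hWi ε hε
  have e1 : ∫ t, ‖V T (pt r t) * (qq k u (pt r t) * DN k N (pt r t))‖ ^ 2 = ∫ t, ‖Fn (gR k u N) T r t‖ ^ 2 := rfl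
  rw [e1] at a1 a2
  have hm := hmv N hN T r h0
  rw [mul_assoc D, abs_le] at hm
  have hK : (1 + ε⁻¹) * C0 * (∫ t, Wq T t * ‖DN k N (pt r t)‖ ^ 2) ≤ (1 + ε⁻¹) * C0 * (c * A) := by gcongr
  have hK2 : (1 + ε⁻¹) * C0 * (c * A) = ((1 + ε⁻¹) * C0 * c) * A := by ring
  rw [hK2] at hK
  have hx : 0 ≤ (1 + ε⁻¹) * C0 * c := by positivity
  have hCA : ((1 + ε) * D + (1 + ε⁻¹) * C0 * c + 1) * (A + B) ≥
      (1 + ε) * (D * B) + ((1 + ε⁻¹) * C0 * c) * A + D * B - D * B := by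
    have h5 : 0 ≤ (1 + ε) * D * A := by positivity
    have h6 : 0 ≤ ((1 + ε⁻¹) * C0 * c) * B := by positivity
    nlinarith
  constructor
  · have h7 : (1 + ε) * (∫ t in (0:ℝ)..T, ‖DN k N (pt r t)‖ ^ 2) ≤ (1 + ε) * (T * SR k N r + D * B) := by
      gcongr
      linarith [hm.2]
    nlinarith
  · have h7 : D * B ≤ (1 + ε) * (D * B) := by
      have : 0 ≤ D * B := by positivity
      nlinarith
    nlinarith [hm.1]

/-- the error terms are small for `N = T^(1-δ/2)` -/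
lemma err_small (k : ℕ) {δ : ℝ} (hk : 1 ≤ k) (hδ : 0 < δ) (hδ1 : δ ≤ 1) {η : ℝ} (hη : 0 < η) :
    ∃ T0 : ℝ, 1 ≤ T0 ∧ ∀ T : ℝ, T0 ≤ T →
      (⌊T ^ (1 - δ / 2)⌋₊ : ℝ) * SN k ⌊T ^ (1 - δ / 2)⌋₊ +
        (⌊T ^ (1 - δ / 2)⌋₊ : ℝ) ^ (1 + 2 * (δ / 8)) * (1 + Real.log ⌊T ^ (1 - δ / 2)⌋₊) ≤ η * T := by
  obtain ⟨T1, hT1, hS⟩ := SN_le hk one_pos
  have l1 : Tendsto (fun T : ℝ => (Ak k + 1) * (T ^ (-(δ / 2)) * Real.log T ^ (k ^ 2))) atTop (𝓝 0) := by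
    have h2 : Tendsto (fun T : ℝ => T ^ (-(δ / 2)) * Real.log T ^ (k ^ 2)) atTop (𝓝 0) := by
      have := (isLittleO_log_rpow_rpow_atTop ((k:ℝ) ^ 2) (s := δ / 2) (by positivity)).tendsto_div_nhds_zero
      refine this.congr' ?_
      filter_upwards [eventually_gt_atTop 0] with T hT
      have e : Real.log T ^ ((k:ℝ) ^ 2) = Real.log T ^ (k ^ 2) := by
        rw [← Real.rpow_natCast (Real.log T) (k ^ 2)]; push_cast; rfl
      rw [Real.rpow_neg hT.le, e, div_eq_inv_mul]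
    have := h2.const_mul (Ak k + 1)
    rwa [mul_zero] at this
  have l2 : Tendsto (fun T : ℝ => (T ^ (-(δ / 4)) * (1 + Real.log T))) atTop (𝓝 0) := by
    have h1 := tendsto_rpow_neg_atTop (y := δ / 4) (by positivity)
    have h2 : Tendsto (fun T : ℝ => T ^ (-(δ / 4)) * Real.log T) atTop (𝓝 0) := by
      have := (isLittleO_log_rpow_atTop (r := δ / 4) (by positivity)).tendsto_div_nhds_zero
      refine this.congr' ?_
      filter_upwards [eventually_gt_atTop 0] with T hT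
      rw [Real.rpow_neg hT.le, div_eq_inv_mul]
    have h3 := h1.add h2
    rw [add_zero] at h3
    refine h3.congr fun T => ?_
    ring
  obtain ⟨T2, hT2⟩ := (((l1.eventually_lt_const (half_pos hη)).and (l2.eventually_lt_const (half_pos hη))).and
    (eventually_ge_atTop (Real.exp 1))).exists_forall_of_atTop
  refine ⟨max (max T1 T2) 1, le_max_right _ _, fun T hT => ?_⟩
  have hTT1 : T1 ≤ T := ((le_max_left _ _).trans (le_max_left _ _)).trans hT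
  have hTT2 : T2 ≤ T := ((le_max_right _ _).trans (le_max_left _ _)).trans hT
  have hT1' : 1 ≤ T := (le_max_right _ _).trans hT
  have hT0 : 0 < T := by linarith
  obtain ⟨⟨a1, a2⟩, a3⟩ := hT2 T hTT2
  set N : ℕ := ⌊T ^ (1 - δ / 2)⌋₊ with hN
  have hY1 : 1 ≤ T ^ (1 - δ / 2) := Real.one_le_rpow hT1' (by linarith)
  have hN1 : 1 ≤ N := by
    rw [hN, Nat.one_le_floor_iff]; exact hY1
  have hN1R : (1:ℝ) ≤ N := by exact_mod_cast hN1
  have hN0 : (0:ℝ) < N := by linarith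
  have hNle : (N : ℝ) ≤ T ^ (1 - δ / 2) := Nat.floor_le (by linarith)
  have hYT : T ^ (1 - δ / 2) = T * T ^ (-(δ / 2)) := by
    rw [sub_eq_add_neg, Real.rpow_add hT0, Real.rpow_one]
  have hNT : (N : ℝ) ≤ T := by
    refine hNle.trans ?_
    calc T ^ (1 - δ / 2) ≤ T ^ (1:ℝ) := Real.rpow_le_rpow_of_exponent_le hT1' (by linarith)
      _ = T := Real.rpow_one T
  have b2 := hS T hTT1 N hNT
  have b3 : (N : ℝ) * SN k N ≤ η / 2 * T := by
    have hSN := SN_nonneg k N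
    have hLT : 0 ≤ Real.log T := Real.log_nonneg hT1'
    calc (N : ℝ) * SN k N ≤ (T * T ^ (-(δ / 2))) * ((Ak k + 1) * Real.log T ^ (k ^ 2)) := by
          rw [← hYT]; gcongr
      _ = ((Ak k + 1) * (T ^ (-(δ / 2)) * Real.log T ^ (k ^ 2))) * T := by ring
      _ ≤ η / 2 * T := by gcongr
  have b4 : (N : ℝ) ^ (1 + 2 * (δ / 8)) * (1 + Real.log N) ≤ η / 2 * T := by
    have c1 : (N : ℝ) ^ (1 + 2 * (δ / 8)) ≤ T * T ^ (-(δ / 4)) := by
      calc (N : ℝ) ^ (1 + 2 * (δ / 8)) ≤ (T ^ (1 - δ / 2)) ^ (1 + 2 * (δ / 8)) :=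
            Real.rpow_le_rpow hN0.le hNle (by positivity)
        _ = T ^ ((1 - δ / 2) * (1 + 2 * (δ / 8))) := by rw [← Real.rpow_mul hT0.le]
        _ ≤ T ^ (1 + -(δ / 4)) := Real.rpow_le_rpow_of_exponent_le hT1' (by nlinarith)
        _ = _ := by rw [Real.rpow_add hT0, Real.rpow_one]
    have c2 : Real.log N ≤ Real.log T := Real.log_le_log hN0 hNT
    have c3 : 0 ≤ Real.log N := Real.log_nonneg hN1R
    calc (N : ℝ) ^ (1 + 2 * (δ / 8)) * (1 + Real.log N) ≤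
          (T * T ^ (-(δ / 4))) * (1 + Real.log T) := by gcongr
      _ = (T ^ (-(δ / 4)) * (1 + Real.log T)) * T := by ring
      _ ≤ η / 2 * T := by gcongr
  linarith

lemma dr_one (k : ℕ) : dr k 1 = 1 := by
  unfold dr
  rw [W182.KO.dk_eq, H306R2.dv_one]

lemma SR_ge (k : ℕ) {N : ℕ} (hN : 1 ≤ N) (r : ℝ) : 1 ≤ SR k N r := by
  unfold SR
  refine le_trans ?_ (Finset.single_le_sum (f := fun n : ℕ => dr k n ^ 2 * (n : ℝ) ^ (-(2 * (1 / 2 + r))))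
    (fun n _ => by positivity) (Finset.mem_Icc.2 ⟨le_rfl, hN⟩))
  rw [dr_one]
  norm_num

/-- smooth and sharp mean squares of the Dirichlet polynomial, `N = T^(1-δ/2)` -/
theorem poly_cmp (k : ℕ) {δ : ℝ} (hk : 1 ≤ k) (hδ : 0 < δ) (hδ1 : δ ≤ 1) {u : ℕ} (hu : 1 ≤ u) {ε : ℝ} (hε : 0 < ε) :
    ∃ T0 : ℝ, 1 ≤ T0 ∧ ∀ T : ℝ, T0 ≤ T → ∀ r : ℝ, 0 ≤ r → r ≤ 1 / 4 →
      ∫ t, ‖Fn (gR k u ⌊T ^ (1 - δ / 2)⌋₊) T r t‖ ^ 2 ≤ (1 + ε) * (T * SR k ⌊T ^ (1 - δ / 2)⌋₊ r) ∧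
      T * SR k ⌊T ^ (1 - δ / 2)⌋₊ r ≤ (1 + ε) * ∫ t, ‖Fn (gR k u ⌊T ^ (1 - δ / 2)⌋₊) T r t‖ ^ 2 := by
  set η : ℝ := min (ε / 4) (1 / 4) with hη
  have hη0 : 0 < η := lt_min (by positivity) (by norm_num)
  have hη1 : η ≤ ε / 4 := min_le_left _ _
  have hη2 : η ≤ 1 / 4 := min_le_right _ _
  obtain ⟨C, hC, hc⟩ := poly_cmp0 k (κ := δ / 8) (by positivity) u hη0
  obtain ⟨T0, hT0, he⟩ := err_small k hk hδ hδ1 (η := η / C) (by positivity)
  refine ⟨T0, hT0, fun T hT r h0 h1 => ?_⟩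
  have hT1 : 1 ≤ T := hT0.trans hT
  have hu1 : (1:ℝ) ≤ u := by exact_mod_cast hu
  set N : ℕ := ⌊T ^ (1 - δ / 2)⌋₊ with hN
  have hY1 : 1 ≤ T ^ (1 - δ / 2) := Real.one_le_rpow hT1 (by linarith)
  have hN1 : 1 ≤ N := by
    rw [hN, Nat.one_le_floor_iff]; exact hY1
  obtain ⟨a1, a2⟩ := hc N hN1 T hT1 r h0 (by linarith) (by linarith)
  have h3 := he T hT
  rw [← hN] at h3
  have h4 : C * (N * SN k N + (N : ℝ) ^ (1 + 2 * (δ / 8)) * (1 + Real.log N)) ≤ η * T := by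
    calc _ ≤ C * (η / C * T) := by gcongr
      _ = η * T := by field_simp
  have h5 : η * T ≤ η * (T * SR k N r) := by
    have := SR_ge k hN1 r
    have : T * 1 ≤ T * SR k N r := by gcongr
    nlinarith
  have hS : 0 ≤ T * SR k N r := mul_nonneg (by linarith) (SR_nonneg k N r)
  have hI : 0 ≤ ∫ t, ‖Fn (gR k u N) T r t‖ ^ 2 := integral_nonneg fun t => by positivity
  constructor
  · nlinarith
  · have h6 : (1 - η) * (T * SR k N r) ≤ (1 + η) * ∫ t, ‖Fn (gR k u N) T r t‖ ^ 2 := by linarith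
    have h9 : T * SR k N r ≤ (1 + 2 * η) * ((1 - η) * (T * SR k N r)) := by
      have : 1 ≤ (1 + 2 * η) * (1 - η) := by nlinarith
      nlinarith
    have h11 : (1 + 2 * η) * (1 + η) ≤ 1 + ε := by nlinarith
    calc T * SR k N r ≤ (1 + 2 * η) * ((1 - η) * (T * SR k N r)) := h9
      _ ≤ (1 + 2 * η) * ((1 + η) * ∫ t, ‖Fn (gR k u N) T r t‖ ^ 2) := by gcongr
      _ = ((1 + 2 * η) * (1 + η)) * ∫ t, ‖Fn (gR k u N) T r t‖ ^ 2 := by ring
      _ ≤ _ := by gcongr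

end

end Pool.Agent.U575.OL
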