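import Pool.Agent.U575.OL.DS

set_option autoImplicit false

/-! The quasi-asymptotic formula off the line. -/

namespace Pool.Agent.U575.OL

open Complex MeasureTheory Filter Topology Set Pool.Agent.TH535.SM
open scoped FourierTransform ComplexConjugate

noncomputable section

/-- the main term -/
def Mt (k : ℕ) (r T : ℝ) : ℝ := H306R2.aF k * T / (2 * r) ^ (k ^ 2)

lemma Mt_nonneg {k : ℕ} (hk : 1 ≤ k) {r T : ℝ} (hr : 0 < r) (hT : 0 ≤ T) : 0 ≤ Mt k r T := by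
  have hk0 : (0:ℝ) < k := by exact_mod_cast hk
  have haF : 0 < H306R2.aF k := H306R2.aF_pos hk0
  unfold Mt
  positivity

lemma ql_alg {η ε J A S C E : ℝ} (hη : 0 ≤ η) (h4 : η ≤ 1 / 4) (h8 : η ≤ ε / 8) (hJ : 0 ≤ J)
    (hA : 0 ≤ A) (hCE : 0 ≤ C * E) (a1 : J ≤ (1 + η) * S + C * E) (a2 : S ≤ (1 + η) * J + C * E)
    (b1 : S ≤ (1 + η) * A) (b2 : (1 - η) * A ≤ S) :
    J ≤ (1 + ε) * A + 2 * C * E ∧ A ≤ (1 + ε) * J + 2 * C * E := by
  have hq : η * η ≤ η * (1 / 4) := mul_le_mul_of_nonneg_left h4 hη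
  constructor
  · have e1 : (1 + η) * S ≤ (1 + η) * ((1 + η) * A) := mul_le_mul_of_nonneg_left b1 (by linarith)
    have e2 : (1 + η) * ((1 + η) * A) = (1 + 2 * η + η * η) * A := by ring
    have e3 : (1 + 2 * η + η * η) * A ≤ (1 + ε) * A := mul_le_mul_of_nonneg_right (by linarith) hA
    linarith
  · have e1 : (1 + 2 * η) * ((1 - η) * A) ≤ (1 + 2 * η) * ((1 + η) * J + C * E) :=
      mul_le_mul_of_nonneg_left (b2.trans a2) (by linarith)
    have e2 : A ≤ (1 + 2 * η) * ((1 - η) * A) := by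
      have : (1 + 2 * η) * ((1 - η) * A) = (1 + η - 2 * (η * η)) * A := by ring
      rw [this]
      have h9 : 1 ≤ 1 + η - 2 * (η * η) := by linarith
      exact le_mul_of_one_le_left hA h9
    have e3 : (1 + 2 * η) * ((1 + η) * J + C * E) = (1 + 3 * η + 2 * (η * η)) * J + (1 + 2 * η) * (C * E) := by ring
    have e4 : (1 + 3 * η + 2 * (η * η)) * J ≤ (1 + ε) * J := mul_le_mul_of_nonneg_right (by linarith) hJ
    have e5 : (1 + 2 * η) * (C * E) ≤ 2 * (C * E) := mul_le_mul_of_nonneg_right (by linarith) hCE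
    linarith

theorem ql (k : ℕ) (hk : 1 ≤ k) {δ : ℝ} (hδ : 0 < δ) (hδ1 : δ ≤ 1) {ε : ℝ} (hε : 0 < ε) :
    ∃ C K T0 : ℝ, 1 ≤ C ∧ 4 ≤ K ∧ 1 ≤ T0 ∧ ∀ T : ℝ, T0 ≤ T → ∀ r : ℝ, 0 < r → r ≤ 1 / K → K ≤ r * Real.log T →
      J k r T ≤ (1 + ε) * Mt k r T + C * Er k δ r T ∧ Mt k r T ≤ (1 + ε) * J k r T + C * Er k δ r T := by
  have hk0 : (0:ℝ) < k := by exact_mod_cast hk
  have haF : 0 < H306R2.aF k := H306R2.aF_pos hk0
  set η : ℝ := min (ε / 8) (1 / 4) with hη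
  have hη0 : 0 < η := lt_min (by positivity) (by norm_num)
  have hη1 : η ≤ ε / 8 := min_le_left _ _
  have hη2 : η ≤ 1 / 4 := min_le_right _ _
  obtain ⟨C, T0, hC, hT0, h1⟩ := off_cmp k hk hδ hδ1 hη0
  obtain ⟨K, hK, h2⟩ := SR_lim hk (δ := δ) hδ1 (ε := η * H306R2.aF k) (by positivity)
  refine ⟨2 * C, max K 4, T0, by linarith, le_max_right _ _, hT0, fun T hT r hr hrK hrL => ?_⟩
  have hKm : 0 < max K 4 := lt_of_lt_of_le (by norm_num) (le_max_right _ _)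
  have hrK1 : r ≤ 1 / K := hrK.trans (one_div_le_one_div_of_le (by linarith) (le_max_left _ _))
  have hr4 : r ≤ 1 / 4 := hrK.trans (one_div_le_one_div_of_le (by norm_num) (le_max_right _ _))
  have hT1 : 1 ≤ T := hT0.trans hT
  have hTp : 0 ≤ T := by linarith
  obtain ⟨a1, a2⟩ := h1 T hT r hr.le hr4
  have a3 := h2 T r hT1 hr hrK1 ((le_max_left _ _).trans hrL)
  set N : ℕ := ⌊T ^ (1 - δ / 2)⌋₊ with hN
  have hp : 0 < (2 * r) ^ (k ^ 2) := by positivity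
  have hE : 0 ≤ Er k δ r T := by
    unfold Er
    have := J_nonneg k 0 hTp
    have := Br_nonneg k 0 T
    have := Real.log_nonneg hT1
    positivity
  have b1 : T * SR k N r ≤ (1 + η) * Mt k r T := by
    have : SR k N r ≤ (1 + η) * (H306R2.aF k / (2 * r) ^ (k ^ 2)) := by
      rw [← mul_div_assoc, le_div_iff₀ hp]
      rw [abs_le] at a3
      linarith [a3.2]
    calc T * SR k N r ≤ T * ((1 + η) * (H306R2.aF k / (2 * r) ^ (k ^ 2))) := by gcongr
      _ = _ := by unfold Mt; ring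
  have b2 : (1 - η) * Mt k r T ≤ T * SR k N r := by
    have : (1 - η) * (H306R2.aF k / (2 * r) ^ (k ^ 2)) ≤ SR k N r := by
      rw [← mul_div_assoc, div_le_iff₀ hp]
      rw [abs_le] at a3
      linarith [a3.1]
    calc _ = T * ((1 - η) * (H306R2.aF k / (2 * r) ^ (k ^ 2))) := by unfold Mt; ring
      _ ≤ _ := by gcongr
  exact ql_alg hη0.le hη2 hη1 (J_nonneg k r hTp) (Mt_nonneg hk hr hTp) (by positivity) a1 a2 b1 b2

end

end Pool.Agent.U575.OL
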