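import Pool.Agent.U575.OL.Loc

set_option autoImplicit false

/-! Spectral inequalities: the line against a parallel line. -/

namespace Pool.Agent.U575.OL

open Complex MeasureTheory Filter Topology Set Pool.Agent.TH535.SM
open scoped FourierTransform ComplexConjugate

noncomputable section

lemma SD_of_PG {G : ℂ → ℂ} {u : ℕ} (hG : PG G u) {T : ℝ} (hT : 1 ≤ T) :
    SD (fun s => V T s * G s) (-u) u := by
  obtain ⟨B, hB, hb⟩ := VG_bd hG hT
  exact ⟨fun s h1 h2 => (V_diff T _).mul (hG.diff s (by linarith) (by linarith)), B, hB,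
    fun s h1 h2 => hb s (by linarith) (by linarith)⟩

lemma SD_of_PS {G : ℂ → ℂ} {a b : ℝ} (hG : PS G a b) {T : ℝ} (hT : 1 ≤ T) :
    SD (fun s => V T s * G s) a b := by
  obtain ⟨B, hB, hb⟩ := VS_bd hG hT
  exact ⟨fun s h1 h2 => (V_diff T _).mul (hG.diff s (by linarith) (by linarith)), B, hB,
    fun s h1 h2 => hb s (by linarith) (by linarith)⟩

/-- lower bound off the line from the support of the spectrum -/
lemma SD.lower {f : ℂ → ℂ} {a b : ℝ} (h : SD f a b) (ha : a ≤ 0) {r : ℝ} (h1 : 0 ≤ r) (h2 : r ≤ b) (y : ℝ) :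
    ∫ t, ‖f (pt 0 t)‖ ^ 2 ≤ Real.exp (4 * Real.pi * y * r) * (∫ t, ‖f (pt r t)‖ ^ 2) +
      ms (fun t => f (pt 0 t)) (Iic (-y)) := by
  have hb : 0 ≤ b := h1.trans h2
  have d0 := h.dec (r := 0) ha hb
  have dr := h.dec (r := r) (by linarith) h2
  have hI := (planch d0).1
  rw [← (planch d0).2, ← integral_add_compl (measurableSet_Iic (a := -y)) hI, add_comm]
  unfold ms
  gcongr
  rw [← (planch dr).2, ← integral_const_mul]
  calc ∫ w in (Iic (-y))ᶜ, ‖𝓕 (fun t => f (pt 0 t)) w‖ ^ 2 ≤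
        ∫ w in (Iic (-y))ᶜ, Real.exp (4 * Real.pi * y * r) * ‖𝓕 (fun t => f (pt r t)) w‖ ^ 2 := by
        refine setIntegral_mono_on hI.integrableOn ((planch dr).1.const_mul _).integrableOn
          measurableSet_Iic.compl fun w hw => ?_
        rw [h.ft ha h1 h2 w, ← mul_assoc, ← Real.exp_add]
        have hw' : -y < w := by simpa using hw
        have h3 : 0 ≤ 4 * Real.pi * y * r + 4 * Real.pi * w * r := by
          have hp := Real.pi_pos
          have : 4 * Real.pi * y * r + 4 * Real.pi * w * r = 4 * Real.pi * r * (y + w) := by ring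
          rw [this]
          have : 0 ≤ y + w := by linarith
          positivity
        have h4 := Real.one_le_exp h3
        have h5 : 0 ≤ ‖𝓕 (fun t => f (pt 0 t)) w‖ ^ 2 := by positivity
        nlinarith
    _ ≤ _ := setIntegral_le_integral ((planch dr).1.const_mul _) (Eventually.of_forall fun w => by positivity)

/-- upper bound off the line: mass below `-y` on the line, and the far line on the right -/
lemma SD.upper {f : ℂ → ℂ} {a b : ℝ} (h : SD f a b) (ha : a ≤ 0) {r : ℝ} (h1 : 0 ≤ r) (h2 : r ≤ b) {y : ℝ}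
    (hy : 0 ≤ y) :
    ∫ t, ‖f (pt r t)‖ ^ 2 ≤ Real.exp (-(4 * Real.pi * y * r)) * (∫ t, ‖f (pt 0 t)‖ ^ 2) +
      Real.exp (4 * Real.pi * y * b) * ∫ t, ‖f (pt b t)‖ ^ 2 := by
  have hb : 0 ≤ b := h1.trans h2
  have d0 := h.dec (r := 0) ha hb
  have dr := h.dec (r := r) (by linarith) h2
  have db := h.dec (r := b) (by linarith) le_rfl
  have hp := Real.pi_pos
  rw [← (planch d0).2, ← (planch dr).2, ← (planch db).2, ← integral_const_mul, ← integral_const_mul,
    ← integral_add ((planch d0).1.const_mul _) ((planch db).1.const_mul _)]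
  refine integral_mono (planch dr).1 (((planch d0).1.const_mul _).add ((planch db).1.const_mul _)) fun w => ?_
  simp only
  rw [h.ft ha h1 h2 w, h.ft ha hb le_rfl w, ← mul_assoc, ← Real.exp_add, ← add_mul]
  refine mul_le_mul_of_nonneg_right ?_ (by positivity)
  rcases le_total w (-y) with hw | hw
  · have : Real.exp (4 * Real.pi * w * r) ≤ Real.exp (-(4 * Real.pi * y * r)) := by
      refine Real.exp_le_exp.2 ?_
      have h3 : 4 * Real.pi * w * r = 4 * Real.pi * r * w := by ring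
      have h4 : -(4 * Real.pi * y * r) = 4 * Real.pi * r * (-y) := by ring
      rw [h3, h4]
      gcongr
    have := Real.exp_pos (4 * Real.pi * y * b + 4 * Real.pi * w * b)
    linarith
  · have : Real.exp (4 * Real.pi * w * r) ≤ Real.exp (4 * Real.pi * y * b + 4 * Real.pi * w * b) := by
      refine Real.exp_le_exp.2 ?_
      have h3 : 0 ≤ y + w := by linarith
      have h4 : 4 * Real.pi * w * r ≤ 4 * Real.pi * (y + w) * r := by
        gcongr
        linarith
      have h5 : 4 * Real.pi * (y + w) * r ≤ 4 * Real.pi * (y + w) * b := by gcongr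
      linarith
    have := Real.exp_pos (-(4 * Real.pi * y * r))
    linarith

lemma Nn_eq (k u : ℕ) (r T : ℝ) : Nn k u r T = ∫ t, ‖(fun s => V T s * H k u s) (pt r t)‖ ^ 2 := rfl

/-- the moment on the line is at most `T^(2(k+1)r)` times the one at distance `r` -/
theorem line_le (k : ℕ) : ∃ C : ℝ, 1 ≤ C ∧ ∀ T : ℝ, 1 ≤ T → ∀ r : ℝ, 0 ≤ r → r ≤ 1 / 4 →
    J k 0 T ≤ C * Real.exp (2 * (k + 1) * (r * Real.log T)) * (J k r T + 1 + Br k 0 T) := by
  obtain ⟨C1, hC1, h1⟩ := cmp_zeta k (u := 1) le_rfl (ε := 1) one_pos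
  obtain ⟨C2, hC2, h2⟩ := out_left (zk_dat k (u := 1) le_rfl) (δ := 1) one_pos (by norm_num)
  obtain ⟨C3, hC3, h3⟩ := Br_le k
  refine ⟨4 + 2 * (C1 * (1 + C3)) + 2 * C2 + C1, by nlinarith, fun T hT r h0 hr => ?_⟩
  have hT0 : 0 ≤ T := by linarith
  have hL := Real.log_nonneg hT
  set E : ℝ := Real.exp (2 * (k + 1) * (r * Real.log T)) with hE
  have hE1 : 1 ≤ E := Real.one_le_exp (by positivity)
  obtain ⟨-, a1⟩ := h1 T hT 0 le_rfl (by norm_num)
  obtain ⟨a2, -⟩ := h1 T hT r h0 hr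
  have a3 := h3 T r h0 hr
  have a4 := h2 T hT
  have hsd := SD_of_PG (H_PG k (u := 1) le_rfl) hT
  have a5 := hsd.lower (by norm_num) h0 (r := r) (by push_cast; linarith) ((k + 1) * Real.log T / (2 * Real.pi))
  have e1 : 4 * Real.pi * ((k + 1) * Real.log T / (2 * Real.pi)) * r = 2 * (k + 1) * (r * Real.log T) := by
    have := Real.pi_pos
    field_simp
    ring
  rw [e1, ← hE, ← Nn_eq, ← Nn_eq] at a5
  have a6 : ms (fun t => V T (pt 0 t) * H k 1 (pt 0 t)) (Iic (-((k + 1) * Real.log T / (2 * Real.pi)))) ≤ C2 := a4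
  have hJ := J_nonneg k r hT0
  have hB0 := Br_nonneg k 0 T
  have hBr := Br_nonneg k r T
  have b1 : Nn k 1 r T ≤ 2 * J k r T + C1 * (1 + C3) * (1 + Br k 0 T) := by
    have : C1 * (1 + Br k r T) ≤ C1 * (1 + C3) * (1 + Br k 0 T) := by
      rw [mul_assoc]
      refine mul_le_mul_of_nonneg_left ?_ hC1
      nlinarith
    linarith
  have b2 : Nn k 1 0 T ≤ E * (2 * J k r T + C1 * (1 + C3) * (1 + Br k 0 T)) + C2 := by
    have : E * Nn k 1 r T ≤ E * (2 * J k r T + C1 * (1 + C3) * (1 + Br k 0 T)) := by gcongr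
    linarith
  set X := J k r T + 1 + Br k 0 T with hX
  have hX1 : 1 ≤ X := by linarith
  have hEX : 1 ≤ E * X := one_le_mul_of_one_le_of_one_le hE1 hX1
  have c1 : 2 * J k r T + C1 * (1 + C3) * (1 + Br k 0 T) ≤ (2 + C1 * (1 + C3)) * X := by
    have : 0 ≤ C1 * (1 + C3) := by positivity
    nlinarith
  have c2 : 1 + Br k 0 T ≤ E * X := by
    have : 1 + Br k 0 T ≤ X := by linarith
    nlinarith
  calc J k 0 T ≤ 2 * Nn k 1 0 T + C1 * (1 + Br k 0 T) := by linarith
    _ ≤ 2 * (E * ((2 + C1 * (1 + C3)) * X) + C2 * (E * X)) + C1 * (E * X) := by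
        have : E * (2 * J k r T + C1 * (1 + C3) * (1 + Br k 0 T)) ≤ E * ((2 + C1 * (1 + C3)) * X) := by gcongr
        have : C2 * 1 ≤ C2 * (E * X) := by gcongr
        have : C1 * (1 + Br k 0 T) ≤ C1 * (E * X) := by gcongr
        linarith
    _ = _ := by ring

/-- the function minus the Dirichlet polynomial, off the line -/
theorem rem_off (k : ℕ) {δ : ℝ} (hδ : 0 < δ) {u : ℕ} (hu : 1 ≤ u) (hu3 : 3 ≤ δ * u) :
    ∃ C : ℝ, 0 ≤ C ∧ ∀ T : ℝ, 1 ≤ T → ∀ N : ℕ, T ^ (1 - δ / 2) ≤ N + 1 → δ ≤ 1 → ∀ r : ℝ, 0 ≤ r → r ≤ 1 / 4 →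
      ∫ t, ‖Fn (fun s => H k u s - gR k u N s) T r t‖ ^ 2 ≤
        Real.exp (-(2 * (1 - δ) * (r * Real.log T))) *
          (∫ t, ‖Fn (fun s => H k u s - gR k u N s) T 0 t‖ ^ 2) + C := by
  obtain ⟨Z, hZ, hz⟩ := tail_bd k
  obtain ⟨D0, hD0, hs⟩ := FS_sq 0
  refine ⟨D0 * Real.exp (2 * (u:ℝ) ^ 2) * Z ^ 2, by positivity, fun T hT N hN hδ1 r hr0 hr1 => ?_⟩
  have hu0 : (0:ℝ) ≤ u := Nat.cast_nonneg u
  have hu1 : (1:ℝ) ≤ u := by exact_mod_cast hu
  have hT0 : 0 < T := by linarith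
  have hL : 0 ≤ Real.log T := Real.log_nonneg hT
  have hps : PS (fun s => H k u s - gR k u N s) 0 u :=
    ((H_PG k hu).ps (by linarith) le_rfl).sub (gR_ps k u N)
  set Y' : ℝ := T ^ (1 - δ / 2) with hY
  have hY1 : 1 ≤ Y' := Real.one_le_rpow hT (by linarith)
  have hsd := SD_of_PS hps hT
  have h1 := hsd.upper le_rfl hr0 (r := r) (by linarith) (y := (1 - δ) * Real.log T / (2 * Real.pi)) (by
    have := Real.pi_pos
    have : 0 ≤ 1 - δ := by linarith
    positivity)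
  have h2 := hs _ 0 u hps T hT u (by linarith) le_rfl (Z * (Y' ^ (u - 1))⁻¹) (by positivity) (by
    intro t
    rw [pow_zero, mul_one]
    have hre : (((1 / 2 + u : ℝ) : ℂ) + t * I).re = 1 / 2 + u := by simp
    have hne : (((1 / 2 + u : ℝ) : ℂ) + t * I) ≠ 1 := by
      intro h
      have := congrArg Complex.re h
      rw [hre, one_re] at this
      linarith
    rw [H_qq hne]
    unfold gR
    rw [← mul_sub, norm_mul]
    have h3 := hz N (u - 1) Y' hY1 hN (((1 / 2 + u : ℝ) : ℂ) + t * I) (by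
      rw [hre, Nat.cast_sub hu]; push_cast; linarith)
    have h4 : ‖qq k u (((1 / 2 + u : ℝ) : ℂ) + t * I)‖ ≤ 1 := qq_norm (by rw [hre]; linarith)
    calc _ ≤ 1 * (Z * (Y' ^ (u - 1))⁻¹) := mul_le_mul h4 h3 (norm_nonneg _) zero_le_one
      _ = _ := one_mul _)
  have e1 : 4 * Real.pi * ((1 - δ) * Real.log T / (2 * Real.pi)) * u = 2 * (1 - δ) * u * Real.log T := by
    have := Real.pi_pos
    field_simp
    ring
  have e2 : -(4 * Real.pi * ((1 - δ) * Real.log T / (2 * Real.pi)) * r) = -(2 * (1 - δ) * (r * Real.log T)) := by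
    have := Real.pi_pos
    field_simp
    ring
  rw [e1, e2] at h1
  have e4 : Y' ^ (u - 1) = Real.exp ((1 - δ / 2) * (u - 1) * Real.log T) := by
    rw [hY, ← Real.rpow_natCast, ← Real.rpow_mul hT0.le, Real.rpow_def_of_pos hT0]
    congr 1
    rw [Nat.cast_sub hu]
    push_cast
    ring
  have h3 : Real.exp (2 * (1 - δ) * u * Real.log T) * ((Y' ^ (u - 1))⁻¹ ^ 2 * T) ≤ 1 := by
    rw [e4, ← Real.exp_neg, ← Real.exp_nat_mul]
    nth_rewrite 3 [← Real.exp_log hT0]
    rw [← Real.exp_add, ← Real.exp_add, Real.exp_le_one_iff]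
    push_cast
    have : 2 * (1 - δ) * u * Real.log T + (2 * -((1 - δ / 2) * (u - 1) * Real.log T) + Real.log T) =
      -((δ + δ * u - 3) * Real.log T) := by ring
    rw [this]
    have : 0 ≤ (δ + δ * u - 3) * Real.log T := mul_nonneg (by linarith) hL
    linarith
  have hE := Real.exp_pos (2 * (1 - δ) * u * Real.log T)
  have h5 : Real.exp (2 * (1 - δ) * u * Real.log T) *
        ∫ t, ‖Fn (fun s => H k u s - gR k u N s) T u t‖ ^ 2 ≤ D0 * Real.exp (2 * (u:ℝ) ^ 2) * Z ^ 2 := by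
    calc _ ≤ Real.exp (2 * (1 - δ) * u * Real.log T) *
          (D0 * Real.exp (2 * (u:ℝ) ^ 2) * (Z * (Y' ^ (u - 1))⁻¹) ^ 2 * T ^ (2 * 0 + 1)) := by
          gcongr
      _ = (D0 * Real.exp (2 * (u:ℝ) ^ 2) * Z ^ 2) *
          (Real.exp (2 * (1 - δ) * u * Real.log T) * ((Y' ^ (u - 1))⁻¹ ^ 2 * T)) := by
          ring
      _ ≤ (D0 * Real.exp (2 * (u:ℝ) ^ 2) * Z ^ 2) * 1 := by gcongr
      _ = _ := mul_one _
  refine h1.trans ?_
  exact add_le_add_right h5 _

end

end Pool.Agent.U575.OL
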