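import Pool.Agent.U575.OL.Conv

set_option autoImplicit false

/-! The equivalences. -/

namespace Pool.Agent.U575.OL

open Complex MeasureTheory Filter Topology Set Pool.Agent.TH535.SM
open scoped FourierTransform ComplexConjugate

noncomputable section

/-- the conjectured upper bound -/
def Ub (k : ℕ) : Prop := ∃ C : ℝ, ∀ᶠ T : ℝ in atTop, J k 0 T ≤ C * (T * Real.log T ^ (k ^ 2))

lemma ub_two {k : ℕ} (h : Ub k) : ∃ C : ℝ, ∀ᶠ T : ℝ in atTop,
    J k 0 (2 * T) ≤ C * (T * Real.log T ^ (k ^ 2)) := by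
  obtain ⟨C, hC⟩ := h
  have h2 : Tendsto (fun T : ℝ => 2 * T) atTop atTop := tendsto_id.const_mul_atTop two_pos
  refine ⟨|C| * 2 ^ (k ^ 2 + 1), ?_⟩
  filter_upwards [h2.eventually hC, eventually_ge_atTop 2] with T hT hT2
  have hT0 : 0 < T := by linarith
  have h3 : Real.log (2 * T) ≤ 2 * Real.log T := by
    have h4 : Real.log (2 * T) ≤ Real.log (T ^ 2) := Real.log_le_log (by positivity) (by nlinarith)
    rw [Real.log_pow] at h4
    exact_mod_cast h4
  have h4 : 0 ≤ Real.log (2 * T) := Real.log_nonneg (by linarith)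
  calc J k 0 (2 * T) ≤ C * (2 * T * Real.log (2 * T) ^ (k ^ 2)) := hT
    _ ≤ |C| * (2 * T * Real.log (2 * T) ^ (k ^ 2)) := by gcongr; exact le_abs_self C
    _ ≤ |C| * (2 * T * (2 * Real.log T) ^ (k ^ 2)) := by gcongr
    _ = _ := by rw [mul_pow]; ring

/-- the step function of the sequence `φ` -/
def stp (φ : ℕ → ℕ) (T : ℝ) : ℝ := 1 + (((Finset.range (⌊T⌋₊ + 1)).filter (fun m => 4 * (φ m : ℝ) ≤ T)).card : ℝ)

lemma stp_mono (φ : ℕ → ℕ) {S T : ℝ} (h : S ≤ T) : stp φ S ≤ stp φ T := by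
  unfold stp
  have : ((Finset.range (⌊S⌋₊ + 1)).filter (fun m => 4 * (φ m : ℝ) ≤ S)).card ≤
      ((Finset.range (⌊T⌋₊ + 1)).filter (fun m => 4 * (φ m : ℝ) ≤ T)).card := by
    refine Finset.card_le_card fun m hm => ?_
    rw [Finset.mem_filter, Finset.mem_range] at hm ⊢
    have := Nat.floor_mono h
    exact ⟨by omega, hm.2.trans h⟩
  have : ((((Finset.range (⌊S⌋₊ + 1)).filter (fun m => 4 * (φ m : ℝ) ≤ S)).card : ℕ) : ℝ) ≤
      (((Finset.range (⌊T⌋₊ + 1)).filter (fun m => 4 * (φ m : ℝ) ≤ T)).card : ℝ) := by exact_mod_cast this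
  linarith

lemma stp_top {φ : ℕ → ℕ} (hφ : StrictMono φ) : Tendsto (stp φ) atTop atTop := by
  rw [tendsto_atTop]
  intro b
  obtain ⟨n, hn⟩ := exists_nat_ge b
  filter_upwards [eventually_ge_atTop (4 * (φ n : ℝ))] with T hT
  refine hn.trans ?_
  unfold stp
  have h1 : Finset.range n ⊆ (Finset.range (⌊T⌋₊ + 1)).filter (fun m => 4 * (φ m : ℝ) ≤ T) := by
    intro m hm
    rw [Finset.mem_range] at hm
    rw [Finset.mem_filter, Finset.mem_range]
    have h2 : φ m < φ n := hφ hm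
    have h3 : (φ m : ℝ) ≤ φ n := by exact_mod_cast h2.le
    have h4 : m ≤ φ m := hφ.le_apply
    have h5 : m ≤ ⌊T⌋₊ := by
      rw [Nat.le_floor_iff (by have : (0:ℝ) ≤ φ n := Nat.cast_nonneg _
                               linarith)]
      have h6 : (m : ℝ) ≤ φ m := by exact_mod_cast h4
      have h7 : (0:ℝ) ≤ φ n := Nat.cast_nonneg _
      linarith
    exact ⟨by omega, by linarith⟩
  have h2 := Finset.card_le_card h1
  rw [Finset.card_range] at h2
  have h3 : (n : ℝ) ≤ (((Finset.range (⌊T⌋₊ + 1)).filter (fun m => 4 * (φ m : ℝ) ≤ T)).card : ℝ) := by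
    exact_mod_cast h2
  linarith

lemma stp_le {φ : ℕ → ℕ} (h : ∀ n : ℕ, (n : ℝ) ^ 2 ≤ Real.log (φ n)) {T : ℝ} (hT : 1 ≤ T) :
    stp φ T ≤ 2 + √(Real.log T) := by
  unfold stp
  have hL := Real.log_nonneg hT
  have h1 : (Finset.range (⌊T⌋₊ + 1)).filter (fun m => 4 * (φ m : ℝ) ≤ T) ⊆
      Finset.range (⌊√(Real.log T)⌋₊ + 1) := by
    intro m hm
    rw [Finset.mem_filter] at hm
    rw [Finset.mem_range, Nat.lt_succ_iff, Nat.le_floor_iff (Real.sqrt_nonneg _)]
    refine Real.le_sqrt_of_sq_le ?_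
    refine (h m).trans ?_
    rcases Nat.eq_zero_or_pos (φ m) with h0 | h0
    · rw [h0]; simpa using hL
    · have h0' : (0:ℝ) < φ m := by exact_mod_cast h0
      exact Real.log_le_log h0' (by linarith [hm.2])
  have h2 := Finset.card_le_card h1
  rw [Finset.card_range] at h2
  have h3 : (((Finset.range (⌊T⌋₊ + 1)).filter (fun m => 4 * (φ m : ℝ) ≤ T)).card : ℝ) ≤
      (⌊√(Real.log T)⌋₊ : ℝ) + 1 := by exact_mod_cast h2
  have h4 := Nat.floor_le (Real.sqrt_nonneg (Real.log T))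
  linarith

lemma stp_at {φ : ℕ → ℕ} (hφ : StrictMono φ) (n : ℕ) (hp : 0 < φ n) : stp φ (2 * (φ n : ℝ)) ≤ n + 1 := by
  unfold stp
  have h1 : (Finset.range (⌊2 * (φ n : ℝ)⌋₊ + 1)).filter (fun m => 4 * (φ m : ℝ) ≤ 2 * (φ n : ℝ)) ⊆
      Finset.range n := by
    intro m hm
    rw [Finset.mem_filter] at hm
    rw [Finset.mem_range]
    by_contra hcon
    push Not at hcon
    have h2 : (φ n : ℝ) ≤ φ m := by exact_mod_cast hφ.monotone hcon
    have h3 : (0:ℝ) < φ n := by exact_mod_cast hp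
    linarith [hm.2]
  have h2 := Finset.card_le_card h1
  rw [Finset.card_range] at h2
  have h3 : (((Finset.range (⌊2 * (φ n : ℝ)⌋₊ + 1)).filter (fun m => 4 * (φ m : ℝ) ≤ 2 * (φ n : ℝ))).card : ℝ) ≤ n :=
    Nat.cast_le.2 h2
  linarith

lemma stp_pos (φ : ℕ → ℕ) (T : ℝ) : 1 ≤ stp φ T := by
  unfold stp
  have : (0:ℝ) ≤ (((Finset.range (⌊T⌋₊ + 1)).filter (fun m => 4 * (φ m : ℝ) ≤ T)).card : ℝ) := Nat.cast_nonneg _
  linarith

lemma stp_little {φ : ℕ → ℕ} (h : ∀ n : ℕ, (n : ℝ) ^ 2 ≤ Real.log (φ n)) :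
    Tendsto (fun T => stp φ T / Real.log T) atTop (𝓝 0) := by
  have h1 : Tendsto (fun L : ℝ => (2 + √L) / L) atTop (𝓝 0) := by
    have h2 : Tendsto (fun L : ℝ => 2 / L) atTop (𝓝 0) := tendsto_const_nhds.div_atTop tendsto_id
    have h3 : Tendsto (fun L : ℝ => 1 / √L) atTop (𝓝 0) :=
      tendsto_const_nhds.div_atTop Real.tendsto_sqrt_atTop
    have h4 := h2.add h3
    rw [add_zero] at h4
    refine h4.congr' ?_
    filter_upwards [eventually_gt_atTop 0] with L hL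
    have : √L * √L = L := Real.mul_self_sqrt hL.le
    rw [add_div]
    congr 1
    rw [div_eq_div_iff (by positivity) (by positivity)]
    linarith
  refine squeeze_zero' ?_ ?_ (h1.comp Real.tendsto_log_atTop)
  · filter_upwards [eventually_ge_atTop 1] with T hT
    have := stp_pos φ T
    exact div_nonneg (by linarith) (Real.log_nonneg hT)
  · filter_upwards [eventually_ge_atTop 1, Real.tendsto_log_atTop.eventually_gt_atTop 0] with T hT hL
    simp only [Function.comp]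
    gcongr
    exact stp_le h hT

theorem three_one {k : ℕ} (h : ∀ c : ℝ → ℝ, Tendsto c atTop atTop →
    Tendsto (fun T => c T / Real.log T) atTop (𝓝 0) → Asym k c) : Ub k := by
  by_contra hnot
  set P : ℕ → ℕ → Prop := fun n m => Real.exp ((2 * k + 3) * (n + 1)) * ((m : ℝ) * Real.log m ^ (k ^ 2)) < J k 0 m ∧
    (n : ℝ) ^ 2 ≤ Real.log m ∧ 3 ≤ m with hP
  have hfreq : ∀ n : ℕ, ∃ᶠ m in atTop, P n m := by
    intro n
    by_contra hcon
    rw [not_frequently] at hcon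
    apply hnot
    have hlog : Tendsto (fun m : ℕ => Real.log (m : ℝ)) atTop atTop :=
      Real.tendsto_log_atTop.comp tendsto_natCast_atTop_atTop
    obtain ⟨m0, hm0⟩ := (hcon.and ((hlog.eventually_ge_atTop ((n:ℝ) ^ 2)).and
      (eventually_ge_atTop 3))).exists_forall_of_atTop
    refine ⟨Real.exp ((2 * k + 3) * (n + 1)) * 2 ^ (k ^ 2 + 1), ?_⟩
    filter_upwards [eventually_ge_atTop (m0 : ℝ), eventually_ge_atTop 2] with T hT hT2
    have hT0 : 0 < T := by linarith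
    have hm : m0 ≤ ⌈T⌉₊ := by exact_mod_cast hT.trans (Nat.le_ceil T)
    obtain ⟨g1, g2, g3⟩ := hm0 _ hm
    have g4 : J k 0 (⌈T⌉₊ : ℝ) ≤ Real.exp ((2 * k + 3) * (n + 1)) *
        ((⌈T⌉₊ : ℝ) * Real.log (⌈T⌉₊ : ℝ) ^ (k ^ 2)) := by
      by_contra g5
      push Not at g5
      exact g1 ⟨g5, g2, g3⟩
    have g5 : (⌈T⌉₊ : ℝ) ≤ 2 * T := by
      have := Nat.ceil_lt_add_one hT0.le
      linarith
    have g6 : T ≤ (⌈T⌉₊ : ℝ) := Nat.le_ceil T
    have g7 : Real.log (⌈T⌉₊ : ℝ) ≤ 2 * Real.log T := by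
      have h4 : Real.log (⌈T⌉₊ : ℝ) ≤ Real.log (T ^ 2) := Real.log_le_log (by linarith) (by nlinarith)
      rw [Real.log_pow] at h4
      exact_mod_cast h4
    have g8 : 0 ≤ Real.log (⌈T⌉₊ : ℝ) := Real.log_nonneg (by linarith)
    calc J k 0 T ≤ J k 0 (⌈T⌉₊ : ℝ) := J_mono k (by norm_num) g6
      _ ≤ _ := g4
      _ ≤ Real.exp ((2 * k + 3) * (n + 1)) * ((2 * T) * (2 * Real.log T) ^ (k ^ 2)) := by gcongr
      _ = _ := by rw [mul_pow]; ring
  obtain ⟨φ, hφ, hPφ⟩ := extraction_forall_of_frequently hfreq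
  have hsq : ∀ n : ℕ, (n : ℝ) ^ 2 ≤ Real.log (φ n) := fun n => (hPφ n).2.1
  have hA := h (stp φ) (stp_top hφ) (stp_little hsq)
  obtain ⟨C', hC', hc⟩ := conv k (c := stp φ) (Eventually.of_forall fun T => by linarith [stp_pos φ T]) (S := 0)
    (fun x _ y _ hxy => stp_mono φ hxy) (stp_little hsq) (Asym.upper hA (stp_top hφ))
  have hφt : Tendsto (fun n => (φ n : ℝ)) atTop atTop := tendsto_natCast_atTop_atTop.comp hφ.tendsto_atTop
  obtain ⟨n, ⟨h1, h2⟩⟩ := ((hφt.eventually hc).and (tendsto_natCast_atTop_atTop.eventually_ge_atTop C')).exists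
  obtain ⟨h3, h4, h5⟩ := hPφ n
  have hm1 : (1:ℝ) < φ n := by exact_mod_cast (by omega : 1 < φ n)
  have hL : 0 < Real.log (φ n : ℝ) := Real.log_pos hm1
  have hX : 0 < (φ n : ℝ) * Real.log (φ n) ^ (k ^ 2) := by positivity
  set X := (φ n : ℝ) * Real.log (φ n) ^ (k ^ 2) with hXd
  have h6 := stp_at hφ n (by omega)
  have h7 : Real.exp ((2 * k + 3) * (n + 1)) * X < C' * X * Real.exp (2 * (k + 1) * (n + 1)) := by
    refine h3.trans_le (h1.trans ?_)
    gcongr
  have h8 : Real.exp ((2 * k + 3) * ((n:ℝ) + 1)) = Real.exp (n + 1) * Real.exp (2 * (k + 1) * (n + 1)) := by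
    rw [← Real.exp_add]; congr 1; ring
  rw [h8] at h7
  have h9 : Real.exp ((n:ℝ) + 1) < C' := by
    have hE := Real.exp_pos (2 * (k + 1) * ((n:ℝ) + 1))
    by_contra hcon
    push Not at hcon
    have : C' * (X * Real.exp (2 * (k + 1) * ((n:ℝ) + 1))) ≤
      Real.exp ((n:ℝ) + 1) * (X * Real.exp (2 * (k + 1) * ((n:ℝ) + 1))) := by gcongr
    nlinarith
  have h10 := Real.add_one_le_exp ((n:ℝ) + 1)
  linarith

/-- the four statements are equivalent -/
theorem tfae_main {k : ℕ} (hk : 1 ≤ k) : List.TFAE [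
    Ub k,
    ∃ x : ℝ, 0 < x ∧ ∃ C : ℝ, ∀ᶠ T : ℝ in atTop, J k (x / Real.log T) T ≤ C * (T * Real.log T ^ (k ^ 2)),
    ∀ c : ℝ → ℝ, Tendsto c atTop atTop → Tendsto (fun T => c T / Real.log T) atTop (𝓝 0) → Asym k c,
    ∀ ε : ℝ, 0 < ε → ∃ x0 : ℝ, 1 ≤ x0 ∧ ∀ x : ℝ, x0 ≤ x → ∀ᶠ T : ℝ in atTop,
      |J k (x / Real.log T) T * (2 * x) ^ (k ^ 2) / (T * Real.log T ^ (k ^ 2)) - H306R2.aF k| ≤ ε] := by
  tfae_have 1 → 4 := by
    intro h ε hε
    obtain ⟨C, hC⟩ := ub_two h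
    exact fwd_fixed hk hC hε
  tfae_have 4 → 2 := by
    intro h
    obtain ⟨x0, hx1, hx0⟩ := h 1 one_pos
    refine ⟨x0, by linarith, H306R2.aF k + 1, ?_⟩
    filter_upwards [hx0 x0 le_rfl, Real.tendsto_log_atTop.eventually_gt_atTop 0, eventually_gt_atTop 0] with
      T h1 hL hT
    have hX : 0 < T * Real.log T ^ (k ^ 2) := by positivity
    have h2 := (abs_le.1 h1).2
    have h3 : J k (x0 / Real.log T) T * (2 * x0) ^ (k ^ 2) / (T * Real.log T ^ (k ^ 2)) ≤ H306R2.aF k + 1 := by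
      linarith
    rw [div_le_iff₀ hX] at h3
    refine le_trans ?_ h3
    have : 1 ≤ (2 * x0) ^ (k ^ 2) := one_le_pow₀ (by linarith)
    exact le_mul_of_one_le_right (J_nonneg k _ hT.le) this
  tfae_have 2 → 1 := by
    rintro ⟨x, hx, C, hC⟩
    obtain ⟨C', hC', h⟩ := conv k (c := fun _ => x) (Eventually.of_forall fun _ => hx.le) (S := 0)
      (fun _ _ _ _ _ => le_rfl) (tendsto_const_nhds.div_atTop Real.tendsto_log_atTop) hC
    refine ⟨C' * Real.exp (2 * (k + 1) * x), ?_⟩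
    filter_upwards [h] with T hT
    linarith
  tfae_have 1 → 3 := by
    intro h c hc ho
    obtain ⟨C, hC⟩ := ub_two h
    exact fwd hk hc ho (θ := 0) le_rfl two_pos (C := C) (hC.mono fun T h => by simpa using h)
  tfae_have 3 → 1 := three_one
  tfae_finish

/-- the scale version -/
theorem scale {k : ℕ} (hk : 1 ≤ k) {c : ℝ → ℝ} (hc : Tendsto c atTop atTop) {S : ℝ}
    (hmono : MonotoneOn c (Ici S)) (ho : Tendsto (fun T => c T / Real.log T) atTop (𝓝 0)) {K : ℝ} (hK : 0 < K)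
    (hd : ∀ᶠ T : ℝ in atTop, c (2 * T) ≤ K * c T) :
    (∀ δ : ℝ, 0 < δ → ∃ C : ℝ, ∀ᶠ T : ℝ in atTop,
      J k 0 T ≤ C * (T * Real.log T ^ (k ^ 2)) * Real.exp (δ * c T)) ↔
    ∀ δ : ℝ, 0 < δ → Asym k (fun T => δ * c T) := by
  have h2 : Tendsto (fun T : ℝ => 2 * T) atTop atTop := tendsto_id.const_mul_atTop two_pos
  have hoδ : ∀ δ : ℝ, Tendsto (fun T => δ * c T / Real.log T) atTop (𝓝 0) := by
    intro δ
    have := ho.const_mul δ
    rw [mul_zero] at this
    refine this.congr fun T => ?_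
    ring
  constructor
  · intro h δ hδ
    obtain ⟨C, hC⟩ := h (δ / K) (by positivity)
    refine fwd hk (hc.const_mul_atTop hδ) (hoδ δ) (θ := 1) zero_le_one one_lt_two
      (C := |C| * 2 ^ (k ^ 2 + 1)) ?_
    filter_upwards [h2.eventually hC, hd, eventually_ge_atTop 2] with T hT hd hT2
    have hT0 : 0 < T := by linarith
    have h3 : Real.log (2 * T) ≤ 2 * Real.log T := by
      have h4 : Real.log (2 * T) ≤ Real.log (T ^ 2) := Real.log_le_log (by positivity) (by nlinarith)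
      rw [Real.log_pow] at h4
      exact_mod_cast h4
    have h4 : 0 ≤ Real.log (2 * T) := Real.log_nonneg (by linarith)
    have h5 : δ / K * c (2 * T) ≤ 1 * (δ * c T) := by
      calc δ / K * c (2 * T) ≤ δ / K * (K * c T) := by gcongr
        _ = _ := by field_simp
    calc J k 0 (2 * T) ≤ C * (2 * T * Real.log (2 * T) ^ (k ^ 2)) * Real.exp (δ / K * c (2 * T)) := hT
      _ ≤ |C| * (2 * T * Real.log (2 * T) ^ (k ^ 2)) * Real.exp (δ / K * c (2 * T)) := by
          gcongr; exact le_abs_self C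
      _ ≤ |C| * (2 * T * (2 * Real.log T) ^ (k ^ 2)) * Real.exp (1 * (δ * c T)) := by
          have h6 : 0 ≤ Real.log T := Real.log_nonneg (by linarith)
          gcongr
      _ = _ := by rw [mul_pow]; ring
  · intro h δ hδ
    have hk0 : (0:ℝ) ≤ k := Nat.cast_nonneg k
    obtain ⟨e, he⟩ : ∃ e : ℝ, e = δ / (2 * (k + 1) * K) := ⟨_, rfl⟩
    have he0 : 0 < e := by rw [he]; positivity
    have hA := h e he0
    obtain ⟨C', hC', h3⟩ := conv k (c := fun T => e * c T)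
      ((hc.eventually_ge_atTop 0).mono fun T h => by positivity) (S := S)
      (fun x hx y hy hxy => mul_le_mul_of_nonneg_left (hmono hx hy hxy) he0.le) (hoδ e)
      (Asym.upper hA (hc.const_mul_atTop he0))
    refine ⟨C', ?_⟩
    filter_upwards [h3, hd, Real.tendsto_log_atTop.eventually_ge_atTop 0, eventually_ge_atTop 0] with T hT hd hL hT0
    refine hT.trans ?_
    have : 2 * (k + 1) * (e * c (2 * T)) ≤ δ * c T := by
      calc 2 * (k + 1) * (e * c (2 * T)) ≤ 2 * (k + 1) * (e * (K * c T)) := by gcongr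
        _ = δ * c T := by rw [he]; field_simp
    gcongr

end

end Pool.Agent.U575.OL
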